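import Pool.Agent.Helper49.LN.Exist

/-!
# LN: choice of the columns of a flag and of a line
-/

set_option autoImplicit false

namespace Pool.Agent.Helper49.LN

open scoped BigOperators
open MvPolynomial

variable {E : Type*} [Field E] {σ : Type*} [Fintype σ] [DecidableEq σ] {κ : Type*} [Fintype κ]
  [DecidableEq κ] {n : ℕ}

/-! auxiliary statements -/

private theorem ex2_indep {M : Type*} [AddCommGroup M] [Module E M] {A : Type*} {v : A → M}
    (hv : LinearIndependent E v) : LinearIndependent E (Sum.elim v (vb0 M)) := by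
  have h1 : LinearIndependent E (vb0 M) := linearIndependent_empty_type
  refine hv.sum_type h1 ?_
  have h2 : Set.range (vb0 M) = ∅ := Set.range_eq_empty _
  rw [h2, Submodule.span_empty]
  exact disjoint_bot_right

private theorem ex2_range0 {M A : Type*} (v : A → M) :
    Set.range (Sum.elim v (vb0 M)) = Set.range v := by
  have h2 : Set.range (vb0 M) = ∅ := Set.range_eq_empty _
  rw [Set.Sum.elim_range, h2, Set.union_empty]

private theorem ex2_IC {M : Type*} [AddCommGroup M] [Module E M] {q : ℕ} (V : Sym σ q → M)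
    (I : Ideal (MvPolynomial σ E)) (W : Submodule E M) (h : ∀ g ∈ I, cP V g ∈ W) :
    IC V I ≤ W := by
  rintro _ ⟨g, hg, rfl⟩
  exact h g hg

private theorem ex2_mem_IC {M : Type*} [AddCommGroup M] [Module E M] {q : ℕ} (V : Sym σ q → M)
    (I : Ideal (MvPolynomial σ E)) (g : MvPolynomial σ E) (h : g ∈ I) : cP V g ∈ IC V I :=
  ⟨g, h, rfl⟩

/-- **Flag**. -/
theorem ex_flag (V : Sym σ (n + 1) → (σ ⊕ σ) ⊕ κ → E) (x y : σ → E) (ε : κ → E) (i₀ a : σ)
    (hx : x i₀ = 1) (ha : pl x y i₀ a ≠ 0) (lam : ((σ ⊕ σ) ⊕ κ → E) →ₗ[E] E)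
    (hl0 : ∀ t, lam (b3 x y ε t) = 0) (hl1 : ∀ g ∈ Ipt x, lam (cP V g) = 0)
    (hu : lam (la (E := E) V i₀) ≠ 0) :
    ∃ (b r t : ℕ) (f : Fin b → Sym σ n × σ × σ × σ) (K : Fin r → ℕ) (f' : Fin t → (σ × σ) ⊕ κ)
      (rr : TT (Fin 3) (Fin 0) (Fin b) (Fin r) (Fin 1) (Fin t) ≃ (σ ⊕ σ) ⊕ κ),
      (∀ s, K s ≤ n) ∧ Function.Injective K ∧
      dt rr (vv (b3 x y ε) (vb0 _) (fun s => lv V (pl x y) (f s)) (fun s => fn V x i₀ a (K s))
        (fun _ => la (E := E) V i₀) fun s => kv x y (f' s)) ≠ 0 ∧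
      (∀ g ∈ Il (pl x y), cP V g ∈ Submodule.span E (Set.range (b3 x y ε) ∪
        Set.range fun s => lv V (pl x y) (f s))) ∧
      (∀ g ∈ Ipt x, cP V g ∈ Submodule.span E (Set.range (b3 x y ε) ∪
        (Set.range fun s => lv V (pl x y) (f s)) ∪ Set.range fun s => fn V x i₀ a (K s))) ∧
      Module.finrank E ↥(Submodule.span E (Set.range (b3 x y ε)) ⊔ IC V (Il (pl x y))) = 3 + b ∧
      Module.finrank E ↥(Submodule.span E (Set.range (b3 x y ε)) ⊔ IC V (Ipt x)) = 3 + b + r ∧
      3 + b + r + 1 ≤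
        Module.finrank E ↥(Submodule.span E (Set.range (b3 x y ε)) ⊔ IC (E := E) V ⊤) ∧
      3 + b + r + 1 + t = 2 * Fintype.card σ + Fintype.card κ := by
  classical
  have h0 := ex2_indep (b3_indep x y ε i₀ a ha)
  obtain ⟨b, f, -, h1, h1s⟩ := sel (Sum.elim (b3 x y ε) (vb0 _)) h0 (lv V (pl x y))
  obtain ⟨r, K, hK, h2, h2s⟩ := sel _ h1 (fun k : Fin (n + 1) => fn V x i₀ a k)
  have hr1 : Set.range (Sum.elim (Sum.elim (b3 x y ε) (vb0 _)) fun s => lv V (pl x y) (f s)) =
      Set.range (b3 x y ε) ∪ Set.range fun s => lv V (pl x y) (f s) := by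
    rw [Set.Sum.elim_range, ex2_range0]
  have hr2 : Set.range (Sum.elim (Sum.elim (Sum.elim (b3 x y ε) (vb0 _))
      fun s => lv V (pl x y) (f s)) fun s => fn V x i₀ a (K s : ℕ)) =
      (Set.range (b3 x y ε) ∪ Set.range fun s => lv V (pl x y) (f s)) ∪
        Set.range fun s => fn V x i₀ a (K s : ℕ) := by
    rw [Set.Sum.elim_range, hr1]
  rw [hr1] at h1s
  rw [hr2] at h2s
  have hI1 : ∀ g ∈ Il (pl x y), cP V g ∈ Submodule.span E (Set.range (b3 x y ε) ∪
      Set.range fun s => lv V (pl x y) (f s)) := fun g hg => span_lv V (pl x y) _ h1s g hg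
  have hI2 : ∀ g ∈ Ipt x, cP V g ∈ Submodule.span E (Set.range (b3 x y ε) ∪
      (Set.range fun s => lv V (pl x y) (f s)) ∪
        Set.range fun s => fn V x i₀ a (K s : ℕ)) := fun g hg =>
    span_fn V x y i₀ a ha _
      (fun g hg => Submodule.span_mono Set.subset_union_left (hI1 g hg))
      (fun k hk => h2s ⟨k, Nat.lt_succ_of_le hk⟩) g hg
  have hlz : ∀ g ∈ Submodule.span E (Set.range (b3 x y ε) ∪
      (Set.range fun s => lv V (pl x y) (f s)) ∪
        Set.range fun s => fn V x i₀ a (K s : ℕ)), lam g = 0 := by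
    intro g hg
    have h3 : Submodule.span E (Set.range (b3 x y ε) ∪
      (Set.range fun s => lv V (pl x y) (f s)) ∪
        Set.range fun s => fn V x i₀ a (K s : ℕ)) ≤ LinearMap.ker lam := by
      rw [Submodule.span_le]
      rintro _ ((⟨s, rfl⟩ | ⟨s, rfl⟩) | ⟨s, rfl⟩)
      · exact hl0 s
      · exact hl1 _ (Il_le_Ipt x y i₀ hx (lv_mem (pl x y) (f s)))
      · exact hl1 _ (fn_mem x i₀ a (K s))
    exact h3 hg
  obtain ⟨t, f', rr, hrr⟩ := complete1 _ h2 lam (fun s => hlz _ (by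
    rw [← hr2]
    exact Submodule.subset_span ⟨s, rfl⟩)) (la (E := E) V i₀) hu (kv x y) (span_kv x y i₀ a ha)
  have e1 : Submodule.span E (Set.range (b3 x y ε)) ⊔ IC V (Il (pl x y)) =
      Submodule.span E (Set.range (Sum.elim (Sum.elim (b3 x y ε) (vb0 _))
        fun s => lv V (pl x y) (f s))) := by
    rw [hr1]
    refine le_antisymm (sup_le (Submodule.span_mono Set.subset_union_left)
      (ex2_IC V _ _ hI1)) ?_
    rw [Submodule.span_union]
    refine sup_le_sup_left ?_ _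
    rw [Submodule.span_le]
    rintro _ ⟨s, rfl⟩
    exact ex2_mem_IC V _ _ (lv_mem (pl x y) (f s))
  have e2 : Submodule.span E (Set.range (b3 x y ε)) ⊔ IC V (Ipt x) =
      Submodule.span E (Set.range (Sum.elim (Sum.elim (Sum.elim (b3 x y ε) (vb0 _))
        fun s => lv V (pl x y) (f s)) fun s => fn V x i₀ a (K s : ℕ))) := by
    rw [hr2]
    refine le_antisymm (sup_le (Submodule.span_mono (Set.subset_union_left.trans
      Set.subset_union_left)) (ex2_IC V _ _ hI2)) ?_
    rw [Submodule.span_union, Submodule.span_union, sup_assoc]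
    refine sup_le_sup_left (sup_le ?_ ?_) _
    · rw [Submodule.span_le]
      rintro _ ⟨s, rfl⟩
      exact ex2_mem_IC V _ _ (Il_le_Ipt x y i₀ hx (lv_mem (pl x y) (f s)))
    · rw [Submodule.span_le]
      rintro _ ⟨s, rfl⟩
      exact ex2_mem_IC V _ _ (fn_mem x i₀ a (K s))
  have c1 : Module.finrank E ↥(Submodule.span E (Set.range (b3 x y ε)) ⊔ IC V (Il (pl x y))) =
      3 + b := by
    rw [e1, finrank_span_eq_card h1]
    simp
  have c2 : Module.finrank E ↥(Submodule.span E (Set.range (b3 x y ε)) ⊔ IC V (Ipt x)) =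
      3 + b + r := by
    rw [e2, finrank_span_eq_card h2]
    simp
  refine ⟨b, r, t, f, fun s => (K s : ℕ), f', rr, fun s => Nat.lt_succ_iff.1 (K s).2,
    fun s s' h => hK (Fin.ext h), hrr, hI1, hI2, c1, c2, ?_, ?_⟩
  · have h3 : Submodule.span E (Set.range (b3 x y ε)) ⊔ IC V (Ipt x) <
        Submodule.span E (Set.range (b3 x y ε)) ⊔ IC (E := E) V ⊤ := by
      refine lt_of_le_of_ne (sup_le_sup_left (ex2_IC V _ _ fun g _ =>
        ex2_mem_IC V _ _ Submodule.mem_top) _) ?_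
      intro h4
      apply hu
      refine hlz _ ?_
      rw [← hr2, ← e2, h4]
      exact Submodule.mem_sup_right (ex2_mem_IC V _ _ Submodule.mem_top)
    have h4 := Submodule.finrank_lt_finrank_of_lt h3
    rw [c2] at h4
    exact h4
  · have h3 := Fintype.card_congr rr
    simp only [Fintype.card_sum, Fintype.card_prod, Fintype.card_fin] at h3
    omega

/-- **Line**. -/
theorem ex_line (V : Sym σ (n + 1) → (σ ⊕ σ) ⊕ κ → E) (x y : σ → E) (a b : σ)
    (hab : pl x y a b ≠ 0) :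
    ∃ (b' r t : ℕ) (f : Fin b' → Sym σ n × σ × σ × σ) (K : Fin r → ℕ) (f' : Fin t → (σ × σ) ⊕ κ)
      (rr : TT (Fin 4) (Fin 0) (Fin b') (Fin r) (Fin 0) (Fin t) ≃ (σ ⊕ σ) ⊕ κ),
      (∀ s, K s ≤ n + 1) ∧ Function.Injective K ∧
      dt rr (vv (b4 x y) (vb0 _) (fun s => lv V (pl x y) (f s))
        (fun s => bn (E := E) V a b (K s)) Fin.elim0 fun s => kv x y (f' s)) ≠ 0 ∧
      (∀ g ∈ Il (pl x y), cP V g ∈ Submodule.span E (Set.range (b4 x y) ∪
        Set.range fun s => lv V (pl x y) (f s))) ∧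
      Module.finrank E ↥(Submodule.span E (Set.range (b4 x y)) ⊔ IC V (Il (pl x y))) = 4 + b' ∧
      Module.finrank E ↥(Submodule.span E (Set.range (b4 x y)) ⊔ IC (E := E) V ⊤) = 4 + b' + r ∧
      4 + b' + r + t = 2 * Fintype.card σ + Fintype.card κ := by
  classical
  have h0 := ex2_indep (b4_indep (κ := κ) x y a b hab)
  obtain ⟨b', f, -, h1, h1s⟩ := sel (Sum.elim (b4 x y) (vb0 _)) h0 (lv V (pl x y))
  obtain ⟨r, K, hK, h2, h2s⟩ := sel _ h1 (fun k : Fin (n + 2) => bn (E := E) V a b k)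
  have hr1 : Set.range (Sum.elim (Sum.elim (b4 x y) (vb0 _)) fun s => lv V (pl x y) (f s)) =
      Set.range (b4 x y) ∪ Set.range fun s => lv V (pl x y) (f s) := by
    rw [Set.Sum.elim_range, ex2_range0]
  have hr2 : Set.range (Sum.elim (Sum.elim (Sum.elim (b4 x y) (vb0 _))
      fun s => lv V (pl x y) (f s)) fun s => bn (E := E) V a b (K s : ℕ)) =
      (Set.range (b4 x y) ∪ Set.range fun s => lv V (pl x y) (f s)) ∪
        Set.range fun s => bn (E := E) V a b (K s : ℕ) := by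
    rw [Set.Sum.elim_range, hr1]
  rw [hr1] at h1s
  rw [hr2] at h2s
  have hI1 : ∀ g ∈ Il (pl x y), cP V g ∈ Submodule.span E (Set.range (b4 x y) ∪
      Set.range fun s => lv V (pl x y) (f s)) := fun g hg => span_lv V (pl x y) _ h1s g hg
  have hI2 : ∀ g : MvPolynomial σ E, cP V g ∈ Submodule.span E (Set.range (b4 x y) ∪
      (Set.range fun s => lv V (pl x y) (f s)) ∪
        Set.range fun s => bn (E := E) V a b (K s : ℕ)) := fun g =>
    span_bn V x y a b hab _
      (fun g hg => Submodule.span_mono Set.subset_union_left (hI1 g hg))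
      (fun k hk => h2s ⟨k, Nat.lt_succ_of_le hk⟩) g
  obtain ⟨t, f', rr, hrr⟩ := complete0 _ h2 Fin.elim0 (kv x y) (span_kv x y a b hab)
  have e1 : Submodule.span E (Set.range (b4 x y)) ⊔ IC V (Il (pl x y)) =
      Submodule.span E (Set.range (Sum.elim (Sum.elim (b4 x y) (vb0 _))
        fun s => lv V (pl x y) (f s))) := by
    rw [hr1]
    refine le_antisymm (sup_le (Submodule.span_mono Set.subset_union_left)
      (ex2_IC V _ _ hI1)) ?_
    rw [Submodule.span_union]
    refine sup_le_sup_left ?_ _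
    rw [Submodule.span_le]
    rintro _ ⟨s, rfl⟩
    exact ex2_mem_IC V _ _ (lv_mem (pl x y) (f s))
  have e2 : Submodule.span E (Set.range (b4 x y)) ⊔ IC (E := E) V ⊤ =
      Submodule.span E (Set.range (Sum.elim (Sum.elim (Sum.elim (b4 x y) (vb0 _))
        fun s => lv V (pl x y) (f s)) fun s => bn (E := E) V a b (K s : ℕ))) := by
    rw [hr2]
    refine le_antisymm (sup_le (Submodule.span_mono (Set.subset_union_left.trans
      Set.subset_union_left)) (ex2_IC V _ _ fun g _ => hI2 g)) ?_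
    rw [Submodule.span_union, Submodule.span_union, sup_assoc]
    refine sup_le_sup_left (sup_le ?_ ?_) _
    · rw [Submodule.span_le]
      rintro _ ⟨s, rfl⟩
      exact ex2_mem_IC V _ _ Submodule.mem_top
    · rw [Submodule.span_le]
      rintro _ ⟨s, rfl⟩
      exact ex2_mem_IC V _ _ Submodule.mem_top
  have c1 : Module.finrank E ↥(Submodule.span E (Set.range (b4 x y)) ⊔ IC V (Il (pl x y))) =
      4 + b' := by
    rw [e1, finrank_span_eq_card h1]
    simp
  have c2 : Module.finrank E ↥(Submodule.span E (Set.range (b4 x y)) ⊔ IC (E := E) V ⊤) =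
      4 + b' + r := by
    rw [e2, finrank_span_eq_card h2]
    simp
  refine ⟨b', r, t, f, fun s => (K s : ℕ), f', rr, fun s => Nat.lt_succ_iff.1 (K s).2,
    fun s s' h => hK (Fin.ext h), hrr, hI1, c1, c2, ?_⟩
  have h3 := Fintype.card_congr rr
  simp only [Fintype.card_sum, Fintype.card_prod, Fintype.card_fin] at h3
  omega

end Pool.Agent.Helper49.LN
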