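import Pool.Agent.Helper49.LN.DetLine
import Pool.Agent.Helper49.LN.Exist2

/-!
# LN: a line which moves in many dimensions is bounded
-/

set_option autoImplicit false

namespace Pool.Agent.Helper49.LN

open scoped BigOperators
open MvPolynomial
open Pool.Agent.Helper8.LG (Bdd)

/-- the numbers: `card σ + b' + 1 ≤ r (r - 1) / 2` -/
theorem k2_num (s c T r b' : ℕ) (hr : T ≤ r) (hb : 4 + b' + r ≤ 2 * s + c)
    (hT : 6 * s + 2 * c ≤ T * (T + 1) + 6) : s + b' + 1 ≤ r * (r - 1) / 2 := by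
  have h1 : T * (T + 1) ≤ r * (r + 1) := Nat.mul_le_mul hr (Nat.succ_le_succ hr)
  have h2 := tri_nat r
  have h3 : (6 * s + 2 * c) ≤ r * (r + 1) + 6 := hT.trans (Nat.add_le_add_right h1 6)
  have h4 : r * (r + 1) / 2 * 2 = r * (r + 1) := by
    have h5 : Even (r * (r + 1)) := Nat.even_mul_succ_self r
    exact Nat.div_mul_cancel h5.two_dvd
  omega

theorem k2' {E σ κ : Type*} [Field E] [Fintype σ] [DecidableEq σ] [Fintype κ] [DecidableEq κ]
    {n : ℕ} (D : Sym σ (n + 1) → Derivation ℤ E E) (g : Sym σ (n + 1) → κ → E) (x y : σ → E)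
    (a b : σ) (hab : pl x y a b ≠ 0) (T : ℕ)
    (hm : Module.finrank E ↥(Submodule.span E (Set.range (b4 x y)) ⊔
        IC (fv D x y g) (Il (pl x y))) + T ≤
      Module.finrank E ↥(Submodule.span E (Set.range (b4 x y)) ⊔ IC (E := E) (fv D x y g) ⊤))
    (hT : 6 * Fintype.card σ + 2 * Fintype.card κ ≤ T * (T + 1) + 6) :
    ∃ G : E, G ≠ 0 ∧ ∀ (O : ValuationSubring E) (Δ : E), Bdd D Δ O →
      (∀ J k, Δ * g J k ∈ O) →
      ∀ k l, Δ ^ (2 * Fintype.card σ + Fintype.card κ) * (G * pl x y k l) ∈ O := by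
  obtain ⟨b', r, t, f, K, f', rr, hK, -, hdt, hI, e1, e2, e3⟩ :=
    ex_line (fv D x y g) x y a b hab
  rw [e1, e2] at hm
  have hnum : Fintype.card σ + b' + 1 ≤ r * (r - 1) / 2 :=
    k2_num (Fintype.card σ) (Fintype.card κ) T r b' (by omega) (by omega) hT
  refine ⟨dt rr (vv (b4 x y) (vb0 _) (fun s => lv (fv D x y g) (pl x y) (f s))
    (fun s => bn (E := E) (fv D x y g) a b (K s)) Fin.elim0 fun s => kv x y (f' s)) /
      pl x y a b ^ (Fintype.card σ + b' + 1), div_ne_zero hdt (pow_ne_zero _ hab), ?_⟩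
  intro O Δ hD hg k l
  obtain ⟨m, j, h⟩ := exists_loc O x y a b hab
  have hG : LocG O Δ D x m g g 0 := by
    refine ⟨hD, fun J => ?_, hg, fun k => zero_mem O⟩
    rw [smul_zero, add_zero]
  obtain ⟨N, hN, e⟩ := g3_det hG h a b hab f K hK f' rr hI
  have hcard : Fintype.card ((σ ⊕ σ) ⊕ κ) = 2 * Fintype.card σ + Fintype.card κ := by
    rw [Fintype.card_sum, Fintype.card_sum]
    ring
  rw [hcard] at e
  obtain ⟨M, hM⟩ := Nat.exists_eq_add_of_le hnum
  rw [hM] at e
  have hδ : pl (xt x m) (yt x y m j) a b ≠ 0 := by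
    intro h0
    apply hab
    rw [h.pl_eq, h0, mul_zero]
  have hρ := h.hρ
  have h3 : Δ ^ (2 * Fintype.card σ + Fintype.card κ) *
      (dt rr (vv (b4 x y) (vb0 _) (fun s => lv (fv D x y g) (pl x y) (f s))
        (fun s => bn (E := E) (fv D x y g) a b (K s)) Fin.elim0 fun s => kv x y (f' s)) /
        pl x y a b ^ (Fintype.card σ + b' + 1) * pl x y k l) =
      pl (xt x m) (yt x y m j) a b ^ M * N * pl (xt x m) (yt x y m j) k l := by
    rw [h.pl_eq a b, h.pl_eq k l]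
    generalize pl (xt x m) (yt x y m j) a b = δ at e hδ ⊢
    generalize pl x y m j = ρ at e hρ ⊢
    generalize pl (xt x m) (yt x y m j) k l = w
    generalize dt rr (vv (b4 x y) (vb0 _) (fun s => lv (fv D x y g) (pl x y) (f s))
      (fun s => bn (E := E) (fv D x y g) a b (K s)) Fin.elim0 fun s => kv x y (f' s)) = d at e ⊢
    generalize Fintype.card σ + b' = q at e ⊢
    calc Δ ^ (2 * Fintype.card σ + Fintype.card κ) * (d / (ρ * δ) ^ (q + 1) * (ρ * w)) =
          (Δ ^ (2 * Fintype.card σ + Fintype.card κ) * d) * (ρ * w) / (ρ * δ) ^ (q + 1) := by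
          ring
      _ = (ρ ^ q * δ ^ (q + 1 + M) * N) * (ρ * w) / (ρ * δ) ^ (q + 1) := by rw [e]
      _ = δ ^ M * N * w := by
          have h4 : (ρ * δ) ^ (q + 1) ≠ 0 := pow_ne_zero _ (mul_ne_zero hρ hδ)
          rw [div_eq_iff h4, mul_pow, pow_add δ (q + 1) M, pow_succ ρ q]
          ring
  rw [h3]
  exact mul_mem (mul_mem (pow_mem (h.pl_mem a b) M) hN) (h.pl_mem k l)

end Pool.Agent.Helper49.LN
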