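import Pool.Agent.Helper49.LN.Exist2
import Pool.Agent.Helper74.LN.Lam

/-!
# LN: from the flag to `Moves`
-/

set_option autoImplicit false

namespace Pool.Agent.Helper49.LN

open scoped BigOperators
open MvPolynomial
open Pool.Agent.Helper74.LN (Lam jc thr w4 Jsp Asp Moves)

variable {E : Type*} [Field E] {σ : Type*} [Fintype σ] [DecidableEq σ] {n : ℕ}

/-- (tm0) -/
theorem lam_eq_cP {M : Type*} [AddCommGroup M] [Module E M] {q : ℕ} (V : Sym σ q → M) :
    Lam (E := E) V = cP V := by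
  refine LinearMap.ext fun g => ?_
  rw [Pool.Agent.Helper74.LN.lam_apply, cP_apply]
  rfl

/-- `cP` and linear maps -/
theorem cP_comp {M N : Type*} [AddCommGroup M] [Module E M] [AddCommGroup N] [Module E N] {q : ℕ}
    (f : M →ₗ[E] N) (V : Sym σ q → M) (g : MvPolynomial σ E) :
    f (cP V g) = cP (fun J => f (V J)) g := by
  rw [cP_apply, cP_apply, map_sum]
  simp only [map_smul]

/-- the columns of an ideal under a linear map -/
theorem IC_map {M N : Type*} [AddCommGroup M] [Module E M] [AddCommGroup N] [Module E N] {q : ℕ}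
    (f : M →ₗ[E] N) (V : Sym σ q → M) (I : Ideal (MvPolynomial σ E)) :
    (IC V I).map f = IC (fun J => f (V J)) I := by
  unfold IC
  rw [← Submodule.map_comp]
  congr 1
  exact LinearMap.ext fun g => cP_comp f V g

/-- all columns -/
theorem IC_top {M : Type*} [AddCommGroup M] [Module E M] {q : ℕ} (V : Sym σ q → M) :
    IC (E := E) V ⊤ = Submodule.span E (Set.range V) := by
  rw [← Pool.Agent.Helper74.LN.lam_range, lam_eq_cP, LinearMap.range_eq_map]
  rfl

omit [Fintype σ] [DecidableEq σ] in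
theorem thr_eq (x y : σ → E) (j l m : σ) : thr ![x, y] j l m = Lf (pl x y) (j, l, m) := by
  unfold thr Lf
  rw [smul_eq_C_mul, smul_eq_C_mul, smul_eq_C_mul]
  rfl

/-- the columns of the forms vanishing on the line -/
theorem span_jc {M : Type*} [AddCommGroup M] [Module E M] {q : ℕ} (V : Sym σ q → M)
    (x y : σ → E) :
    Submodule.span E (Set.range (jc V ![x, y])) = IC V (Il (pl x y)) := by
  apply le_antisymm
  · rw [Submodule.span_le]
    rintro _ ⟨p, rfl⟩
    unfold jc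
    rw [thr_eq, lam_eq_cP]
    exact ⟨_, (Il (pl x y)).mul_mem_left _ (Lf_mem (pl x y) _), rfl⟩
  · rintro _ ⟨g, hg, rfl⟩
    rw [← lam_eq_cP]
    refine Pool.Agent.Helper74.LN.lam_ideal V _ (Set.range (Lf (pl x y))) ?_ g hg
    rintro _ ⟨p, rfl⟩ m
    refine Submodule.subset_span ⟨(m, p), ?_⟩
    unfold jc
    rw [thr_eq]

/-- the bijection of the rows of two points -/
def rows2 (σ : Type*) : σ ⊕ σ ≃ Fin 2 × σ where
  toFun := Sum.elim (fun l => (0, l)) fun l => (1, l)
  invFun p := if p.1 = 0 then Sum.inl p.2 else Sum.inr p.2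
  left_inv := by
    rintro (l | l)
    · rfl
    · rfl
  right_inv := by
    rintro ⟨i, l⟩
    fin_cases i
    · rfl
    · rfl

section rows

variable {τ : Type*}

/-- the linear equivalence of the rows -/
noncomputable def rowsE (E σ τ : Type*) [Field E] :
    ((Fin 2 × σ) ⊕ τ → E) ≃ₗ[E] ((σ ⊕ σ) ⊕ τ → E) :=
  LinearEquiv.funCongrLeft E E (Equiv.sumCongr (rows2 σ) (Equiv.refl τ))

omit [Fintype σ] [DecidableEq σ] in
theorem rowsE_apply (v : (Fin 2 × σ) ⊕ τ → E) :
    rowsE E σ τ v = Sum.elim (Sum.elim (fun l => v (Sum.inl (0, l))) fun l => v (Sum.inl (1, l)))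
      fun j => v (Sum.inr j) := by
  funext r
  rcases r with (l | l) | j
  · rfl
  · rfl
  · rfl

omit [Fintype σ] [DecidableEq σ] in
theorem rowsE_mu (D : Sym σ (n + 1) → Derivation ℤ E E) (θ : τ → Sym σ (n + 1) → E) (x y : σ → E)
    (J : Sym σ (n + 1)) :
    rowsE E σ τ (Pool.Agent.Helper74.LN.mu D θ ![x, y] J) = fv D x y (fun J j => θ j J) J := by
  rw [rowsE_apply]
  rfl

omit [Fintype σ] [DecidableEq σ] in
theorem rowsE_w4 (x y : σ → E) :
    Set.range (fun p => rowsE E σ τ (w4 ![x, y] p)) = Set.range (b4 x y) := by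
  have h : ∀ p : Fin 2 × Fin 2, rowsE E σ τ (w4 ![x, y] p) =
      tr (if p.1 = 0 then ![x, y] p.2 else 0) (if p.1 = 1 then ![x, y] p.2 else 0) 0 := by
    rintro ⟨e, f⟩
    rw [rowsE_apply]
    unfold tr w4
    fin_cases e
    · funext r
      rcases r with (l | l) | j
      · rfl
      · rfl
      · rfl
    · funext r
      rcases r with (l | l) | j
      · rfl
      · rfl
      · rfl
  ext v
  constructor
  · rintro ⟨⟨e, f⟩, rfl⟩
    simp only
    rw [h]
    fin_cases e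
    · fin_cases f
      · exact ⟨1, rfl⟩
      · exact ⟨3, rfl⟩
    · fin_cases f
      · exact ⟨0, rfl⟩
      · exact ⟨2, rfl⟩
  · rintro ⟨i, rfl⟩
    fin_cases i
    · exact ⟨(1, 0), (h _).trans rfl⟩
    · exact ⟨(0, 0), (h _).trans rfl⟩
    · exact ⟨(1, 1), (h _).trans rfl⟩
    · exact ⟨(0, 1), (h _).trans rfl⟩

/-- (tm1) for the space of the forms vanishing on the line -/
theorem Jsp_map (D : Sym σ (n + 1) → Derivation ℤ E E) (θ : τ → Sym σ (n + 1) → E)
    (x y : σ → E) :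
    (Jsp D θ ![x, y]).map (rowsE E σ τ : ((Fin 2 × σ) ⊕ τ → E) →ₗ[E] ((σ ⊕ σ) ⊕ τ → E)) =
      Submodule.span E (Set.range (b4 x y)) ⊔ IC (fv D x y fun J j => θ j J) (Il (pl x y)) := by
  unfold Jsp
  rw [Submodule.map_sup, span_jc, IC_map, Submodule.map_span, ← Set.range_comp]
  have e : (fun J => (rowsE E σ τ : ((Fin 2 × σ) ⊕ τ → E) →ₗ[E] ((σ ⊕ σ) ⊕ τ → E))
      (Pool.Agent.Helper74.LN.mu D θ ![x, y] J)) = fv D x y fun J j => θ j J :=
    funext fun J => rowsE_mu D θ x y J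
  rw [e, ← rowsE_w4]
  rfl

/-- (tm1) for the space of all forms -/
theorem Asp_map (D : Sym σ (n + 1) → Derivation ℤ E E) (θ : τ → Sym σ (n + 1) → E)
    (x y : σ → E) :
    (Asp D θ ![x, y]).map (rowsE E σ τ : ((Fin 2 × σ) ⊕ τ → E) →ₗ[E] ((σ ⊕ σ) ⊕ τ → E)) =
      Submodule.span E (Set.range (b4 x y)) ⊔ IC (E := E) (fv D x y fun J j => θ j J) ⊤ := by
  unfold Asp
  rw [Submodule.map_sup, ← IC_top, IC_map, Submodule.map_span, ← Set.range_comp]
  have e : (fun J => (rowsE E σ τ : ((Fin 2 × σ) ⊕ τ → E) →ₗ[E] ((σ ⊕ σ) ⊕ τ → E))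
      (Pool.Agent.Helper74.LN.mu D θ ![x, y] J)) = fv D x y fun J j => θ j J :=
    funext fun J => rowsE_mu D θ x y J
  rw [e, ← rowsE_w4]
  rfl

/-- (tm1) -/
theorem moves_iff [Fintype τ] (T : ℕ) (D : Sym σ (n + 1) → Derivation ℤ E E)
    (θ : τ → Sym σ (n + 1) → E) (x y : σ → E) :
    Moves T D θ ![x, y] ↔
      Module.finrank E ↥(Submodule.span E (Set.range (b4 x y)) ⊔
          IC (fv D x y fun J j => θ j J) (Il (pl x y))) + T ≤
        Module.finrank E ↥(Submodule.span E (Set.range (b4 x y)) ⊔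
          IC (E := E) (fv D x y fun J j => θ j J) ⊤) := by
  unfold Moves
  rw [← Jsp_map, ← Asp_map, LinearEquiv.finrank_map_eq, LinearEquiv.finrank_map_eq]

/-- the projection which forgets the rows `z` -/
def forget (E σ z τ : Type*) [Field E] :
    ((σ ⊕ σ) ⊕ (z ⊕ τ) → E) →ₗ[E] ((σ ⊕ σ) ⊕ τ → E) :=
  LinearMap.funLeft E E (Sum.map id Sum.inr)

omit [Fintype σ] [DecidableEq σ] in
theorem forget_tr {z : Type*} (u v : σ → E) (w : z ⊕ τ → E) :
    forget E σ z τ (tr u v w) = tr u v fun j => w (Sum.inr j) := by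
  funext r
  rcases r with (l | l) | j
  · rfl
  · rfl
  · rfl

omit [Fintype σ] [DecidableEq σ] in
theorem forget_fv {z : Type*} (D : Sym σ (n + 1) → Derivation ℤ E E) (x y : σ → E)
    (g : Sym σ (n + 1) → z ⊕ τ → E) (J : Sym σ (n + 1)) :
    forget E σ z τ (fv D x y g J) = fv D x y (fun J j => g J (Sum.inr j)) J := by
  funext r
  rcases r with (l | l) | j
  · rfl
  · rfl
  · rfl

omit [Fintype σ] [DecidableEq σ] in
theorem forget_ker {z : Type*} [Fintype z] [Fintype τ] :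
    Module.finrank E (LinearMap.ker (forget E σ z τ)) ≤ Fintype.card z := by
  have h : LinearMap.ker (forget E σ z τ) ≤
      LinearMap.range (LinearMap.pi fun r : (σ ⊕ σ) ⊕ (z ⊕ τ) =>
        Sum.elim (fun _ => 0) (Sum.elim (fun i => LinearMap.proj i) fun _ => 0) r :
        (z → E) →ₗ[E] ((σ ⊕ σ) ⊕ (z ⊕ τ) → E)) := by
    intro v hv
    rw [LinearMap.mem_ker] at hv
    refine ⟨fun i => v (Sum.inr (Sum.inl i)), ?_⟩
    funext r
    rcases r with l | i | j
    · exact (congrFun hv (Sum.inl l)).symm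
    · rfl
    · exact (congrFun hv (Sum.inr j)).symm
  refine (Submodule.finrank_mono h).trans ((LinearMap.finrank_range_le _).trans ?_)
  rw [Module.finrank_fintype_fun_eq_card]

omit [Fintype σ] [DecidableEq σ] in
/-- the images of the base of the flag and of the fourth vector -/
theorem forget_b3 {z : Type*} (x y : σ → E) (ε : z ⊕ τ → E) (hε : ∀ j, ε (Sum.inr j) = 0) :
    (Submodule.span E (Set.range (b3 x y ε)) ⊔ Submodule.span E {tr y 0 0}).map
      (forget E σ z τ) = Submodule.span E (Set.range (b4 (κ := τ) x y)) := by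
  rw [← Submodule.span_union, Submodule.map_span]
  congr 1
  have e0 : forget E σ z τ (tr 0 x 0) = tr 0 x 0 := forget_tr _ _ _
  have e1 : forget E σ z τ (tr x 0 ε) = tr x 0 0 := by
    rw [forget_tr]
    congr 1
    funext j
    exact hε j
  have e2 : forget E σ z τ (tr 0 y 0) = tr 0 y 0 := forget_tr _ _ _
  have e3 : forget E σ z τ (tr y 0 0) = tr y 0 0 := forget_tr _ _ _
  ext v
  constructor
  · rintro ⟨_, ⟨i, rfl⟩ | rfl, rfl⟩
    · fin_cases i
      · exact ⟨0, e0.symm⟩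
      · exact ⟨1, e1.symm⟩
      · exact ⟨2, e2.symm⟩
    · exact ⟨3, e3.symm⟩
  · rintro ⟨i, rfl⟩
    fin_cases i
    · exact ⟨_, Or.inl ⟨0, rfl⟩, e0⟩
    · exact ⟨_, Or.inl ⟨1, rfl⟩, e1⟩
    · exact ⟨_, Or.inl ⟨2, rfl⟩, e2⟩
    · exact ⟨_, Or.inr rfl, e3⟩

/-- (tm2) **From the flag to the moving line.** -/
theorem moves_of_flag {z : Type*} [Fintype z] [Fintype τ] (T : ℕ)
    (D : Sym σ (n + 1) → Derivation ℤ E E) (θ : τ → Sym σ (n + 1) → E) (x y : σ → E)
    (g : Sym σ (n + 1) → z ⊕ τ → E) (hg : ∀ J j, g J (Sum.inr j) = θ j J) (ε : z ⊕ τ → E)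
    (hε : ∀ j, ε (Sum.inr j) = 0)
    (h : Module.finrank E ↥(Submodule.span E (Set.range (b3 x y ε)) ⊔
        IC (fv D x y g) (Il (pl x y))) + (T + Fintype.card z + 1) ≤
      Module.finrank E ↥(Submodule.span E (Set.range (b3 x y ε)) ⊔
        IC (E := E) (fv D x y g) ⊤)) :
    Moves T D θ ![x, y] := by
  rw [moves_iff]
  have key : ∀ I : Ideal (MvPolynomial σ E),
      ((Submodule.span E (Set.range (b3 x y ε)) ⊔ IC (fv D x y g) I) ⊔
        Submodule.span E {tr y 0 0}).map (forget E σ z τ) =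
      Submodule.span E (Set.range (b4 x y)) ⊔ IC (fv D x y fun J j => θ j J) I := by
    intro I
    rw [sup_assoc, sup_comm (IC _ I), ← sup_assoc, Submodule.map_sup, forget_b3 x y ε hε, IC_map]
    congr 2
    funext J
    rw [forget_fv]
    congr 1
    funext J j
    exact hg J j
  have h1 := mv2 (tr y 0 0 : (σ ⊕ σ) ⊕ (z ⊕ τ) → E)
    (Submodule.span E (Set.range (b3 x y ε)) ⊔ IC (fv D x y g) (Il (pl x y)))
    (Submodule.span E (Set.range (b3 x y ε)) ⊔ IC (E := E) (fv D x y g) ⊤)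
  have h2 := mv3 (forget E σ z τ) (Fintype.card z) forget_ker
    ((Submodule.span E (Set.range (b3 x y ε)) ⊔ IC (E := E) (fv D x y g) ⊤) ⊔
      Submodule.span E {tr y 0 0})
  have h3 := Submodule.finrank_map_le (forget E σ z τ)
    ((Submodule.span E (Set.range (b3 x y ε)) ⊔ IC (fv D x y g) (Il (pl x y))) ⊔
      Submodule.span E {tr y 0 0})
  rw [key] at h2 h3
  omega

end rows

end Pool.Agent.Helper49.LN
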