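import Pool.Agent.Helper49.LN.Line

/-!
# LN: the families of columns
-/

set_option autoImplicit false

namespace Pool.Agent.Helper49.LN

open scoped BigOperators
open MvPolynomial

variable {E : Type*} [Field E] {σ : Type*} [Fintype σ] [DecidableEq σ]
  {M : Type*} [AddCommGroup M] [Module E M] {n : ℕ}

/-- the columns of the 2-blocks: `(X^I + X^J) (X_l - x_l X_(i₀))` for two indices `l` -/
noncomputable def bl (V : Sym σ (n + 1) → M) (x : σ → E) (i₀ : σ)
    (β : (Sym σ n × Sym σ n) × (σ × σ)) (s : Fin 2) : M :=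
  cP V ((mo E (β.1.1 : Multiset σ) + mo E (β.1.2 : Multiset σ)) *
    hf x i₀ (if s = 0 then β.2.1 else β.2.2))

/-- the columns of `X^I (X_l - x_l X_(i₀))` -/
noncomputable def sg (V : Sym σ (n + 1) → M) (x : σ → E) (i₀ : σ) (p : Sym σ n × σ) : M :=
  cP V (mo E (p.1 : Multiset σ) * hf x i₀ p.2)

/-- the columns of `X^I L`, `L` a linear form vanishing on the line -/
noncomputable def lv (V : Sym σ (n + 1) → M) (P : σ → σ → E) (p : Sym σ n × σ × σ × σ) : M :=
  cP V (mo E (p.1 : Multiset σ) * Lf P p.2)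

/-- the columns of `X_a^(n-k) X_b^k (x_a X_b - x_b X_a)` -/
noncomputable def fn (V : Sym σ (n + 1) → M) (x : σ → E) (a b : σ) (k : ℕ) : M :=
  cP V (X a ^ (n - k) * X b ^ k * hf x a b)

/-- the columns of `X_a^(n-k) X_b^k` -/
noncomputable def bn (V : Sym σ n → M) (a b : σ) (k : ℕ) : M :=
  cP V ((X a : MvPolynomial σ E) ^ (n - k) * X b ^ k)

/-- the column of `X_i^n` -/
noncomputable def la (V : Sym σ n → M) (i : σ) : M := cP V ((X i : MvPolynomial σ E) ^ n)

/-- the empty family -/
def vb0 (M : Type*) : Fin 0 × Fin 2 → M := fun p => p.1.elim0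

/-- the columns of the polynomials of an ideal -/
noncomputable def IC {M : Type*} [AddCommGroup M] [Module E M] {q : ℕ} (V : Sym σ q → M)
    (I : Ideal (MvPolynomial σ E)) : Submodule E M := (I.restrictScalars E).map (cP V)

end Pool.Agent.Helper49.LN
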