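import Pool.Agent.Helper49.LN.Cols
import Pool.Agent.Helper49.LN.Fam

/-!
# LN: bounds and transformation of the columns
-/

set_option autoImplicit false

namespace Pool.Agent.Helper49.LN

open scoped BigOperators
open MvPolynomial
open Pool.Agent.Helper8.LG (Bdd)

variable {E : Type*} [Field E] {σ : Type*} {κ : Type*} {n : ℕ}

/-- The local situation for the rows `κ`: `g = g' + (D x_m / x_m) ε`, `g'` and `ε` bounded. -/
structure LocG (O : ValuationSubring E) (Δ : E) (D : Sym σ (n + 1) → Derivation ℤ E E)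
    (x : σ → E) (m : σ) (g g' : Sym σ (n + 1) → κ → E) (ε : κ → E) : Prop where
  bdd : Bdd D Δ O
  eq : ∀ J, g J = g' J + (D J (x m) / x m) • ε
  mem : ∀ J k, Δ * g' J k ∈ O
  eps : ∀ k, ε k ∈ O

section

variable {O : ValuationSubring E} {Δ : E} {D : Sym σ (n + 1) → Derivation ℤ E E}
  {x y : σ → E} {m j : σ} {g g' : Sym σ (n + 1) → κ → E} {ε : κ → E}

theorem pv_bdd (hG : LocG O Δ D x m g g' ε) (hx : ∀ l, xt x m l ∈ O) (J : Sym σ (n + 1))
    (r : σ ⊕ κ) : Δ * pv D (xt x m) g' J r ∈ O := by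
  rcases r with l | k
  · exact hG.bdd.2 J _ (hx l)
  · exact hG.mem J k

theorem pe_bdd (hG : LocG O Δ D x m g g' ε) (hx : ∀ l, xt x m l ∈ O) (r : σ ⊕ κ) :
    Δ * pe (xt x m) ε r ∈ O := by
  rcases r with l | k
  · exact mul_mem hG.bdd.1 (hx l)
  · exact mul_mem hG.bdd.1 (hG.eps k)

theorem fv_bdd (hG : LocG O Δ D x m g g' ε) (h : Loc O x y m j) (J : Sym σ (n + 1))
    (r : (σ ⊕ σ) ⊕ κ) : Δ * fv D (xt x m) (yt x y m j) g' J r ∈ O := by
  rcases r with (l | l) | k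
  · exact hG.bdd.2 J _ (h.hx l)
  · exact hG.bdd.2 J _ (h.hy l)
  · exact hG.mem J k

theorem tr_bdd (hΔ : Δ ∈ O) {u v : σ → E} {w : κ → E} (hu : ∀ l, u l ∈ O) (hv : ∀ l, v l ∈ O)
    (hw : ∀ k, w k ∈ O) (r : (σ ⊕ σ) ⊕ κ) : Δ * tr u v w r ∈ O := by
  rcases r with (l | l) | k
  · exact mul_mem hΔ (hu l)
  · exact mul_mem hΔ (hv l)
  · exact mul_mem hΔ (hw k)

theorem zero_bdd {R : Type*} (O : ValuationSubring E) (l : R) : (0 : R → E) l ∈ O := zero_mem O

theorem b3_bdd (hΔ : Δ ∈ O) (h : Loc O x y m j) (hε : ∀ k, ε k ∈ O) (t : Fin 3)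
    (r : (σ ⊕ σ) ⊕ κ) : Δ * b3 (xt x m) (yt x y m j) ε t r ∈ O := by
  fin_cases t
  · exact tr_bdd hΔ (zero_bdd O) h.hx (zero_bdd O) r
  · exact tr_bdd hΔ h.hx (zero_bdd O) hε r
  · exact tr_bdd hΔ (zero_bdd O) h.hy (zero_bdd O) r

theorem b4_bdd (hΔ : Δ ∈ O) (h : Loc O x y m j) (t : Fin 4)
    (r : (σ ⊕ σ) ⊕ κ) : Δ * b4 (xt x m) (yt x y m j) t r ∈ O := by
  fin_cases t
  · exact tr_bdd hΔ (zero_bdd O) h.hx (zero_bdd O) r
  · exact tr_bdd hΔ h.hx (zero_bdd O) (zero_bdd O) r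
  · exact tr_bdd hΔ (zero_bdd O) h.hy (zero_bdd O) r
  · exact tr_bdd hΔ h.hy (zero_bdd O) (zero_bdd O) r

theorem single_bdd {R : Type*} [DecidableEq R] (O : ValuationSubring E) (i : R) {a : E}
    (ha : a ∈ O) (l : R) : (Pi.single i a : R → E) l ∈ O := by
  rw [Pi.single_apply]
  split_ifs
  · exact ha
  · exact zero_mem O

theorem kv_bdd [DecidableEq σ] [DecidableEq κ] (hΔ : Δ ∈ O) (h : Loc O x y m j)
    (t : (σ × σ) ⊕ κ) (r : (σ ⊕ σ) ⊕ κ) : Δ * kv (xt x m) (yt x y m j) t r ∈ O := by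
  rcases t with ⟨l, k⟩ | i
  · exact tr_bdd hΔ (single_bdd O _ (h.hx k)) (single_bdd O _ (h.hy k)) (zero_bdd O) r
  · exact tr_bdd hΔ (zero_bdd O) (zero_bdd O) (single_bdd O _ (one_mem O)) r

section fin

variable [Fintype σ] [DecidableEq σ]

/-- transformation of the columns of polynomials, flag -/
theorem cPf_trans (hG : LocG O Δ D x m g g' ε) (h : Loc O x y m j) (f : MvPolynomial σ E) :
    cP (fv D x y g) f - gf (x m) (y m) (mu x y m j) (cP (fv D (xt x m) (yt x y m j) g') f) ∈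
      Submodule.span E (Set.range (b3 x y ε)) := by
  refine cP_trans _ _ _ _ (fun J => ?_) f
  refine Submodule.span_mono ?_ (fv_trans D x y m j h g g' ε hG.eq J)
  intro v hv
  simp only [Set.mem_insert_iff, Set.mem_singleton_iff] at hv
  rcases hv with rfl | rfl | rfl
  · exact ⟨1, rfl⟩
  · exact ⟨0, rfl⟩
  · exact ⟨2, rfl⟩

/-- transformation of the columns of polynomials, line -/
theorem cPl_trans (hG : LocG O Δ D x m g g' 0) (h : Loc O x y m j) (f : MvPolynomial σ E) :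
    cP (fv D x y g) f - gf (x m) (y m) (mu x y m j) (cP (fv D (xt x m) (yt x y m j) g') f) ∈
      Submodule.span E (Set.range (b4 (κ := κ) x y)) := by
  refine cP_trans _ _ _ _ (fun J => ?_) f
  refine Submodule.span_mono ?_ (fv_trans D x y m j h g g' 0 hG.eq J)
  intro v hv
  simp only [Set.mem_insert_iff, Set.mem_singleton_iff] at hv
  rcases hv with rfl | rfl | rfl
  · exact ⟨1, rfl⟩
  · exact ⟨0, rfl⟩
  · exact ⟨2, rfl⟩

/-- transformation of the columns of polynomials, point -/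
theorem cPp_trans (hG : LocG O Δ D x m g g' ε) (hm : x m ≠ 0) (f : MvPolynomial σ E) :
    cP (pv D x g) f - gp (x m) (cP (pv D (xt x m) g') f) ∈
      Submodule.span E (Set.range fun _ : Fin 1 => pe x ε) := by
  refine cP_trans _ _ _ _ (fun J => ?_) f
  rw [pv_trans D x m hm g g' ε hG.eq J]
  exact Submodule.smul_mem _ _ (Submodule.subset_span ⟨0, rfl⟩)

theorem cPf_bdd (hG : LocG O Δ D x m g g' ε) (h : Loc O x y m j) (f : MvPolynomial σ E)
    (hf : IntP O f) (r : (σ ⊕ σ) ⊕ κ) : Δ * cP (fv D (xt x m) (yt x y m j) g') f r ∈ O :=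
  cP_bdd O Δ _ (fv_bdd hG h) f hf r

theorem cPp_bdd (hG : LocG O Δ D x m g g' ε) (hx : ∀ l, xt x m l ∈ O) (f : MvPolynomial σ E)
    (hf : IntP O f) (r : σ ⊕ κ) : Δ * cP (pv D (xt x m) g') f r ∈ O :=
  cP_bdd O Δ _ (pv_bdd hG hx) f hf r

end fin

theorem Lf_int [DecidableEq σ] (P : σ → σ → E) (hP : ∀ k l, P k l ∈ O) (s : σ × σ × σ) :
    IntP O (Lf P s) :=
  (((IntP.X O _).smul (hP _ _)).sub ((IntP.X O _).smul (hP _ _))).add
    ((IntP.X O _).smul (hP _ _))

theorem hf_int [DecidableEq σ] (z : σ → E) (hz : ∀ l, z l ∈ O) (a b : σ) : IntP O (hf z a b) :=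
  ((IntP.X O _).smul (hz _)).sub ((IntP.X O _).smul (hz _))

/-- `x_a X_b - x_b X_a` at the point `x / x_m` -/
theorem hf_xt (hm : x m ≠ 0) (a b : σ) : hf x a b = x m • hf (xt x m) a b := by
  unfold hf xt
  rw [smul_sub, smul_smul, smul_smul, mul_div_cancel₀ _ hm, mul_div_cancel₀ _ hm]

theorem Il_loc (h : Loc O x y m j) : Il (pl x y) = Il (pl (xt x m) (yt x y m j)) :=
  Il_smul _ h.hρ _ _ fun k l => h.pl_eq k l

/-- **Binary monomials modulo the ideal of the line.** -/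
theorem fanI [DecidableEq σ] (h : Loc O x y m j) (a b : σ) (hab : pl x y a b ≠ 0) (N : ℕ)
    {T : Type*} [Fintype T] (K : T → ℕ) (hK : ∀ t, K t ≤ N) :
    ∃ (A : Fin (N + 1) → T → E) (G : Fin (N + 1) → MvPolynomial σ E),
      PB O A (pl (xt x m) (yt x y m j) a b ^ (Fintype.card T * (Fintype.card T - 1) / 2)) ∧
      (∀ i, IntP O (G i)) ∧
      ∀ t, (X a ^ (N - K t) * X b ^ K t : MvPolynomial σ E) - ∑ i, A i t • G i ∈
        Il (pl x y) := by
  set I := Il (pl x y) with hI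
  have hab' : pl (xt x m) (yt x y m j) a b ≠ 0 := by
    intro h0
    apply hab
    rw [h.pl_eq, h0, mul_zero]
  have hX : ∀ c, (Ideal.Quotient.mk I) (X c) = xt x m c • (Ideal.Quotient.mk I) (X m) +
      yt x y m j c • (Ideal.Quotient.mk I) (X j - xt x m j • X m) := by
    intro c
    have h1 := X_mod_std (xt x m) (yt x y m j) m j h.xt_m h.yt_m h.yt_j c
    rw [← Il_loc h, ← hI] at h1
    have h2 := (Ideal.Quotient.eq (I := I)).2 h1
    rw [h2]
    rfl
  obtain ⟨s₁, s₂, s₃, s₄, A, h₁, h₂, h₃, h₄, hA, hA2⟩ := fan O (Ideal.Quotient.mk I (X m))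
    (Ideal.Quotient.mk I (X j - xt x m j • X m)) (xt x m a) (yt x y m j a) (xt x m b)
    (yt x y m j b) (h.hx a) (h.hy a) (h.hx b) (h.hy b) (by
      intro h0
      apply hab'
      unfold pl
      rw [← h0]
      ring) N K hK
  have hV : IntP O (X j - xt x m j • X m : MvPolynomial σ E) :=
    (IntP.X O _).sub ((IntP.X O _).smul (h.hx j))
  refine ⟨A, fun i => (s₁ • X m + s₂ • (X j - xt x m j • X m)) ^ (N - (i : ℕ)) *
    (s₃ • X m + s₄ • (X j - xt x m j • X m)) ^ (i : ℕ), ?_, ?_, ?_⟩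
  · have h5 : pl (xt x m) (yt x y m j) a b = xt x m a * yt x y m j b -
        yt x y m j a * xt x m b := by
      unfold pl
      ring
    rw [h5]
    exact hA
  · intro i
    exact ((((IntP.X O _).smul h₁).add (hV.smul h₂)).pow _).mul
      ((((IntP.X O _).smul h₃).add (hV.smul h₄)).pow _)
  · intro t
    rw [← Ideal.Quotient.eq, map_mul, map_pow, map_pow, hX a, hX b, hA2 t, map_sum]
    refine Finset.sum_congr rfl fun i _ => ?_
    rfl

end

end Pool.Agent.Helper49.LN
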