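import Mathlib

/-!
# LN: the numerics of the dichotomy

`K = N + 1` variables, `z` logarithmic rows (`0` or `1`), `c` corrections, degree `q`;
`i` blocks, `t` single columns, `r` (rho) binary columns of the flag, `bb` columns vanishing on the
line. Exponents: `G1`: `(K + i + t - q, -t(t+1)/2)`, `G2`: `(2 + r - q, K - 1 + bb - r(r+1)/2)`.
Either `G1` alone bounds the point, or there is a line (`2 ≤ t`) and either it moves in at least
`T` dimensions (`T + z ≤ r`) or a product `G1^a1 G2^a2` bounds the point.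
-/

set_option autoImplicit false

namespace Pool.Agent.Helper49.LN

theorem ten_le (a t u : ℕ) (ha : 1 ≤ a) (h : 2 * a + 2 ≤ t) (hu : t * (t + 1) = 2 * u) :
    10 * a ≤ u := by
  have h1 : (2 * a + 2) * (2 * a + 2 + 1) ≤ t * (t + 1) :=
    Nat.mul_le_mul h (by omega)
  rw [hu] at h1
  rcases lt_or_ge a 3 with h2 | h2
  · interval_cases a <;> omega
  · have h3 : 3 * a ≤ a * a := Nat.mul_le_mul_right a h2
    have h4 : (2 * a + 2) * (2 * a + 2 + 1) = 4 * (a * a) + 10 * a + 6 := by ring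
    omega

theorem tri_ge (r v : ℕ) (hv : r * (r + 1) = 2 * v) : 9 * r ≤ v + 36 := by
  rcases le_or_gt r 8 with h | h
  · interval_cases r <;> omega
  · obtain ⟨s, rfl⟩ : ∃ s, r = 9 + s := ⟨r - 9, by omega⟩
    have h4 : (9 + s) * (9 + s + 1) = 90 + 19 * s + s * s := by ring
    rw [h4] at hv
    have h5 : s ≤ s * s := Nat.le_mul_self s
    omega

theorem b_lt (K z c q r bb v B e : ℕ) (h1 : 3 * K + z + c ≤ 2 * q)
    (hb : bb + r + 4 ≤ 2 * K + c + z) (hv : r * (r + 1) = 2 * v) (hB : K + bb = 1 + v + B)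
    (he : q = r + 2 + e) : B < 10 * e := by
  have h2 : r ≤ v := by
    rcases Nat.eq_zero_or_pos r with h | h
    · omega
    · have : r * 2 ≤ r * (r + 1) := Nat.mul_le_mul_left r (by omega)
      omega
  omega

theorem choice (K z c q T i t r bb : ℕ) (h1 : 3 * K + z + c ≤ 2 * q)
    (h2 : T + z + 2 ≤ q) (hit : 2 * i + t + 2 ≤ K + c + z) (_ht : t ≤ r)
    (hb : bb + r + 4 ≤ 2 * K + c + z) :
    K + i + t + 1 ≤ q ∨ (2 ≤ t ∧ T + z ≤ r) ∨
      (2 ≤ t ∧ ∃ a₁ a₂ : ℕ,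
        (a₁ : ℤ) * ((K : ℤ) + i + t - q) + a₂ * ((2 : ℤ) + r - q) ≤ -1 ∧
        (a₂ : ℤ) * ((K : ℤ) - 1 + bb - ((r * (r + 1) / 2 : ℕ) : ℤ)) ≤
          a₁ * ((t * (t + 1) / 2 : ℕ) : ℤ)) := by
  by_cases hA : K + i + t + 1 ≤ q
  · exact Or.inl hA
  right
  have ht2 : 2 ≤ t := by omega
  by_cases hr : T + z ≤ r
  · exact Or.inl ⟨ht2, hr⟩
  right
  refine ⟨ht2, ?_⟩
  obtain ⟨u, hu⟩ : ∃ u : ℕ, t * (t + 1) = 2 * u := (Nat.even_mul_succ_self t).two_dvd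
  obtain ⟨v, hv⟩ : ∃ v : ℕ, r * (r + 1) = 2 * v := (Nat.even_mul_succ_self r).two_dvd
  have hu' : t * (t + 1) / 2 = u := by omega
  have hv' : r * (r + 1) / 2 = v := by omega
  rw [hu', hv']
  have hrq : r + 3 ≤ q := by omega
  by_cases hB : K + bb ≤ 1 + v
  · refine ⟨0, 1, ?_, ?_⟩
    · rw [Nat.cast_zero, Nat.cast_one, zero_mul, zero_add, one_mul]
      omega
    · rw [Nat.cast_zero, Nat.cast_one, zero_mul, one_mul]
      omega
  obtain ⟨B, hBe⟩ : ∃ B : ℕ, K + bb = 1 + v + B := ⟨K + bb - 1 - v, by omega⟩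
  obtain ⟨a, ha⟩ : ∃ a : ℕ, K + i + t = q + a := ⟨K + i + t - q, by omega⟩
  obtain ⟨e, he⟩ : ∃ e : ℕ, q = r + 2 + e := ⟨q - r - 2, by omega⟩
  have ha2 : 2 * a + 2 ≤ t := by omega
  refine ⟨B, u, ?_, ?_⟩
  · have e1 : ((K : ℤ) + i + t - q) = a := by omega
    have e2 : ((2 : ℤ) + r - q) = -(e : ℤ) := by omega
    rw [e1, e2]
    have key : B * a < u * e := by
      have he1 : 1 ≤ e := by omega
      rcases Nat.eq_zero_or_pos a with h0 | h0
      · subst h0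
        rw [mul_zero]
        have hu3 : 1 ≤ u := by
          have : 2 * 1 ≤ t * (t + 1) := Nat.mul_le_mul ht2 (by omega)
          omega
        exact Nat.mul_pos hu3 he1
      have h10 : 10 * a ≤ u := ten_le a t u h0 ha2 hu
      have hBe' : B < 10 * e := b_lt K z c q r bb v B e h1 hb hv hBe he
      calc B * a < 10 * e * a := Nat.mul_lt_mul_of_pos_right hBe' h0
        _ = e * (10 * a) := by ring
        _ ≤ e * u := Nat.mul_le_mul_left e h10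
        _ = u * e := Nat.mul_comm _ _
    have key' : (B : ℤ) * a < u * e := by exact_mod_cast key
    have key2 : (B : ℤ) * a + u * -(e : ℤ) = B * a - u * e := by ring
    rw [key2]
    omega
  · have e3 : ((K : ℤ) - 1 + bb - (v : ℤ)) = B := by omega
    rw [e3, mul_comm]

/-- the exponents `B`, `C` of `G1`, `G2` and the exponent `m` of `P`; `kw ≤ k` is the number of
weighted `x`-rows (`kw = w + 1`), the main case is `kw = k` -/
theorem choice_num_w (k kw c q i t b r : ℕ) (hkw : kw ≤ k) (hk : 1 ≤ k)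
    (h10 : 2 * k + kw + c + 52 ≤ 10 * q ∨ kw = k)
    (hi : 2 * i + t + 2 ≤ kw + c)
    (hb : b + r + 4 ≤ kw + k + c) (hrq : r + 3 ≤ q) (hq : 3 * kw + c ≤ 2 * q) (ht : 2 ≤ t) :
    ∃ B C m s : ℕ, C + m = C * (k + b) ∧
      m + s = B * (t * (t + 1) / 2) + C * (r * (r + 1) / 2) ∧
      B * (kw + i + t) + C * (2 + r) + 1 ≤ q * (B + C) ∧
      ∀ k₁ k₂ : ℕ, k₁ ≤ k + c → k₂ ≤ 2 * k + c → B * k₁ + C * k₂ ≤ 5 * (k + c) ^ 3 := by
  obtain ⟨u, hu⟩ : ∃ u : ℕ, t * (t + 1) = 2 * u := (Nat.even_mul_succ_self t).two_dvd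
  obtain ⟨v, hv⟩ : ∃ v : ℕ, r * (r + 1) = 2 * v := (Nat.even_mul_succ_self r).two_dvd
  have hu' : t * (t + 1) / 2 = u := by omega
  have hv' : r * (r + 1) / 2 = v := by omega
  rw [hu', hv']
  have hkc : 1 ≤ k + c := by omega
  have hkc2 : k + c ≤ (k + c) ^ 3 := Nat.le_self_pow (by norm_num) _
  have hkc3 : (k + c) ^ 2 ≤ (k + c) ^ 3 := Nat.pow_le_pow_right hkc (by norm_num)
  by_cases hB : k + b ≤ 1 + v
  · refine ⟨0, 1, k + b - 1, v - (k + b - 1), by omega, by omega, by omega, ?_⟩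
    intro k₁ k₂ _ h2
    omega
  obtain ⟨B, hBe⟩ : ∃ B : ℕ, k + b = 1 + v + B := ⟨k + b - 1 - v, by omega⟩
  have hu1 : 1 ≤ u := by
    have : 2 * 1 ≤ t * (t + 1) := Nat.mul_le_mul ht (by omega)
    omega
  refine ⟨B, u, B * u + u * v, 0, ?_, by ring, ?_, ?_⟩
  · rw [hBe]
    ring
  · obtain ⟨e, he⟩ : ∃ e : ℕ, q = r + 2 + e := ⟨q - r - 2, by omega⟩
    have he1 : 1 ≤ e := by omega
    rcases le_or_gt (kw + i + t) q with hA | hA
    · obtain ⟨a, ha⟩ : ∃ a : ℕ, q = kw + i + t + a := ⟨q - (kw + i + t), by omega⟩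
      have e1 : q * (B + u) = B * (kw + i + t) + B * a + (u * (2 + r) + u * e) := by
        conv_lhs => rw [mul_add, mul_comm q B, mul_comm q u]
        conv_lhs => congr; rw [ha]; rfl; rw [he]
        ring
      have e2 : 1 ≤ u * e := Nat.mul_pos hu1 he1
      rw [e1]
      have := Nat.zero_le (B * a)
      omega
    · obtain ⟨a, ha⟩ : ∃ a : ℕ, kw + i + t = q + a := ⟨kw + i + t - q, by omega⟩
      have ha1 : 1 ≤ a := by omega
      have h1a : 10 * a ≤ u := ten_le a t u ha1 (by omega) hu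
      have hBe' : B < 10 * e := by
        rcases h10 with h10 | h10
        · have h2 := tri_ge r v hv
          omega
        · subst h10
          exact b_lt kw 0 c q r b v B e (by omega) (by omega) hv hBe he
      have key : B * a + 1 ≤ u * e := by
        calc B * a + 1 ≤ 10 * e * a := Nat.succ_le_of_lt (Nat.mul_lt_mul_of_pos_right hBe' ha1)
          _ = e * (10 * a) := by ring
          _ ≤ e * u := Nat.mul_le_mul_left e h1a
          _ = u * e := Nat.mul_comm _ _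
      rw [ha]
      have e1 : q * (B + u) = B * q + (u * (2 + r) + u * e) := by
        conv_lhs => rw [mul_add, mul_comm q B, mul_comm q u]
        conv_lhs => congr; rfl; rw [he]
        ring
      rw [e1, mul_add]
      omega
  · intro k₁ k₂ h1 h2
    have hB3 : B ≤ 3 * (k + c) := by omega
    have hu3 : 2 * u ≤ (k + c) * (k + c) := by
      rw [← hu]
      exact Nat.mul_le_mul (by omega) (by omega)
    have h4 : B * k₁ ≤ 3 * (k + c) * (k + c) := Nat.mul_le_mul hB3 h1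
    have h5 : 2 * u * k₂ ≤ (k + c) * (k + c) * (2 * (k + c)) :=
      Nat.mul_le_mul hu3 (by omega)
    have h6 : 3 * (k + c) * (k + c) = 3 * (k + c) ^ 2 := by ring
    have h7 : (k + c) * (k + c) * (2 * (k + c)) = 2 * (k + c) ^ 3 := by ring
    have h8 : 2 * u * k₂ = 2 * (u * k₂) := by ring
    omega

/-- The end of the dichotomy at one valuation ring, `kw ≤ k` weighted rows in `G1`; `B`, `C`, `m`
do not depend on the valuation ring. -/
theorem choice_pt_w {E : Type*} [Field E] (k kw c q i t b r : ℕ) (hkw : kw ≤ k) (hk : 1 ≤ k)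
    (h10 : 2 * k + kw + c + 52 ≤ 10 * q ∨ kw = k)
    (hi : 2 * i + t + 2 ≤ kw + c) (hb : b + r + 4 ≤ kw + k + c) (hrq : r + 3 ≤ q)
    (hq : 3 * kw + c ≤ 2 * q) (ht : 2 ≤ t) :
    ∃ B C m : ℕ,
      (∀ k₁ k₂ : ℕ, k₁ ≤ k + c → k₂ ≤ 2 * k + c → B * k₁ + C * k₂ ≤ 5 * (k + c) ^ 3) ∧
      ∀ (O : ValuationSubring E) (G₁ G₂ lam rho Δ P : E) (k₁ k₂ : ℕ), lam ≠ 0 → rho ≠ 0 →
        P ≠ 0 → P / rho ∈ O → lam⁻¹ ∈ O →
        (∃ w ∈ O, Δ ^ k₁ * G₁ * lam ^ q =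
          lam ^ (kw + i + t) * (P / rho) ^ (t * (t + 1) / 2) * w) →
        (∃ w ∈ O, Δ ^ k₂ * G₂ * lam ^ q * rho =
          lam ^ (2 + r) * rho ^ (k + b) * (P / rho) ^ (r * (r + 1) / 2) * w) →
        Δ ^ (B * k₁ + C * k₂) * (G₁ ^ B * G₂ ^ C / P ^ m) * lam ∈ O := by
  obtain ⟨B, C, m, s, e1, e2, e3, e4⟩ := choice_num_w k kw c q i t b r hkw hk h10 hi hb hrq hq ht
  refine ⟨B, C, m, e4, ?_⟩
  intro O G₁ G₂ lam rho Δ P k₁ k₂ hlam hrho hP hy hl ⟨w₁, hw₁, h₁⟩ ⟨w₂, hw₂, h₂⟩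
  obtain ⟨y, hy'⟩ : ∃ y : E, y = P / rho := ⟨_, rfl⟩
  have hPy : P = y * rho := by rw [hy', div_mul_cancel₀ _ hrho]
  have hy0 : y ≠ 0 := by
    rw [hy']
    exact div_ne_zero hP hrho
  rw [← hy'] at h₁ h₂ hy
  obtain ⟨M, hM⟩ : ∃ M : ℕ, q * (B + C) = M + (B * (kw + i + t) + C * (2 + r) + 1) :=
    ⟨q * (B + C) - (B * (kw + i + t) + C * (2 + r) + 1), by omega⟩
  have key : Δ ^ (B * k₁ + C * k₂) * (G₁ ^ B * G₂ ^ C / P ^ m) * lam =
      (lam⁻¹) ^ M * y ^ s * (w₁ ^ B * w₂ ^ C) := by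
    have hne : lam ^ (q * (B + C)) * rho ^ C * P ^ m ≠ 0 :=
      mul_ne_zero (mul_ne_zero (pow_ne_zero _ hlam) (pow_ne_zero _ hrho)) (pow_ne_zero _ hP)
    refine mul_right_cancel₀ hne ?_
    have hL : Δ ^ (B * k₁ + C * k₂) * (G₁ ^ B * G₂ ^ C / P ^ m) * lam *
        (lam ^ (q * (B + C)) * rho ^ C * P ^ m) =
        (Δ ^ k₁ * G₁ * lam ^ q) ^ B * (Δ ^ k₂ * G₂ * lam ^ q * rho) ^ C * lam := by
      rw [div_eq_mul_inv]
      have : (P ^ m)⁻¹ * P ^ m = 1 := inv_mul_cancel₀ (pow_ne_zero _ hP)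
      calc Δ ^ (B * k₁ + C * k₂) * (G₁ ^ B * G₂ ^ C * (P ^ m)⁻¹) * lam *
            (lam ^ (q * (B + C)) * rho ^ C * P ^ m) =
            Δ ^ (B * k₁ + C * k₂) * (G₁ ^ B * G₂ ^ C) * lam *
            (lam ^ (q * (B + C)) * rho ^ C) * ((P ^ m)⁻¹ * P ^ m) := by ring
        _ = _ := by
          rw [this, mul_one]
          ring
    have hR : (lam⁻¹) ^ M * y ^ s * (w₁ ^ B * w₂ ^ C) *
        (lam ^ (q * (B + C)) * rho ^ C * P ^ m) =
        lam ^ (B * (kw + i + t) + C * (2 + r) + 1) * rho ^ (C + m) * y ^ (m + s) *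
          (w₁ ^ B * w₂ ^ C) := by
      have h3 : (lam⁻¹) ^ M * lam ^ M = 1 := by
        rw [← mul_pow, inv_mul_cancel₀ hlam, one_pow]
      rw [hM, hPy]
      calc (lam⁻¹) ^ M * y ^ s * (w₁ ^ B * w₂ ^ C) *
            (lam ^ (M + (B * (kw + i + t) + C * (2 + r) + 1)) * rho ^ C * (y * rho) ^ m) =
            ((lam⁻¹) ^ M * lam ^ M) * (lam ^ (B * (kw + i + t) + C * (2 + r) + 1) *
              rho ^ (C + m) * y ^ (m + s) * (w₁ ^ B * w₂ ^ C)) := by ring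
        _ = _ := by rw [h3, one_mul]
    rw [hL, hR, h₁, h₂, e1, e2]
    ring
  rw [key]
  exact mul_mem (mul_mem (pow_mem hl M) (pow_mem hy s))
    (mul_mem (pow_mem hw₁ B) (pow_mem hw₂ C))

/-- The end of the dichotomy at one valuation ring; `B`, `C`, `m` do not depend on it; `w + 1` is
the number of weighted rows of `G₁`, `P = rho * δ`. -/
theorem choice_pt {E : Type*} [Field E] (w k z c q T i t r b : ℕ) (hw : w + 1 ≤ k) (hz : z ≤ 1)
    (hq : 3 * w + 3 + z + c ≤ 2 * q) (h10 : w + 1 = k ∨ 2 * k + w + c + z + 53 ≤ 10 * q)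
    (hT : T + z + 2 ≤ q) (hi : 2 * i + t + 2 ≤ w + 1 + z + c)
    (hb : b + r + 4 ≤ w + 1 + k + z + c) (hr : r < T + z) (ht : 2 ≤ t) :
    ∃ B C m : ℕ, B * (k + z + c) + C * (2 * k + z + c) ≤ 5 * (k + 1 + c) ^ 3 ∧
      ∀ (O : ValuationSubring E) (G₁ G₂ lam rho δ Δ P N₁ N₂ : E) (k₁ k₂ : ℕ), lam ≠ 0 →
        P ≠ 0 → P = rho * δ → δ ∈ O → lam⁻¹ ∈ O → N₁ ∈ O → N₂ ∈ O →
        Δ ^ k₁ * G₁ * lam ^ q = lam ^ (w + 1 + i + t) * δ ^ (t * (t + 1) / 2) * N₁ →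
        Δ ^ k₂ * G₂ * (lam ^ q * rho) =
          lam ^ (2 + r) * rho ^ (k + b) * δ ^ (r * (r + 1) / 2) * N₂ →
        Δ ^ (B * k₁ + C * k₂) * (G₁ ^ B * G₂ ^ C / P ^ m * lam) ∈ O := by
  obtain ⟨B, C, m, e1, e2⟩ := choice_pt_w (E := E) k (w + 1) (z + c) q i t b r hw (by omega)
    (by omega) (by omega) (by omega) (by omega) (by omega) ht
  refine ⟨B, C, m, ?_, ?_⟩
  · refine (e1 (k + z + c) (2 * k + z + c) (by omega) (by omega)).trans ?_
    exact Nat.mul_le_mul_left 5 (Nat.pow_le_pow_left (by omega) 3)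
  · intro O G₁ G₂ lam rho δ Δ P N₁ N₂ k₁ k₂ hlam hP hPd hδ hl hN₁ hN₂ h₁ h₂
    have hrho : rho ≠ 0 := by
      rintro rfl
      exact hP (by rw [hPd, zero_mul])
    have hd : P / rho = δ := by rw [hPd, mul_div_cancel_left₀ _ hrho]
    rw [← mul_assoc]
    refine e2 O G₁ G₂ lam rho Δ P k₁ k₂ hlam hrho hP (by rw [hd]; exact hδ) hl
      ⟨N₁, hN₁, by rw [hd]; exact h₁⟩ ⟨N₂, hN₂, ?_⟩
    rw [hd, ← h₂]
    ring

/-- the easy case: `G1` alone -/
theorem choice_easy {E : Type*} [Field E] (O : ValuationSubring E) (G lam Δ N : E)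
    (w i t q k₁ : ℕ) (h : w + 1 + i + t + 1 ≤ q) (hlam : lam ≠ 0) (hl : lam⁻¹ ∈ O) (hN : N ∈ O)
    (H : Δ ^ k₁ * G * lam ^ q = lam ^ (w + 1 + i + t) * N) : Δ ^ k₁ * (G * lam) ∈ O := by
  obtain ⟨M, hM⟩ : ∃ M : ℕ, q = M + (w + 1 + i + t + 1) := ⟨q - (w + 1 + i + t + 1), by omega⟩
  have key : Δ ^ k₁ * (G * lam) = (lam⁻¹) ^ M * N := by
    refine mul_right_cancel₀ (pow_ne_zero q hlam) ?_
    have h3 : (lam⁻¹) ^ M * lam ^ M = 1 := by
      rw [← mul_pow, inv_mul_cancel₀ hlam, one_pow]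
    calc Δ ^ k₁ * (G * lam) * lam ^ q = (Δ ^ k₁ * G * lam ^ q) * lam := by ring
      _ = lam ^ (w + 1 + i + t) * N * lam := by rw [H]
      _ = 1 * (lam ^ (w + 1 + i + t + 1) * N) := by ring
      _ = ((lam⁻¹) ^ M * lam ^ M) * (lam ^ (w + 1 + i + t + 1) * N) := by rw [h3]
      _ = (lam⁻¹) ^ M * N * lam ^ (M + (w + 1 + i + t + 1)) := by ring
      _ = (lam⁻¹) ^ M * N * lam ^ q := by rw [← hM]
  rw [key]
  exact mul_mem (pow_mem hl M) hN

end Pool.Agent.Helper49.LN
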