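import Pool.Agent.Helper49.LN.DetMain

/-!
# LN: the general determinant, left-nested index types
-/

set_option autoImplicit false

namespace Pool.Agent.Helper49.LN

open scoped BigOperators

theorem dt_reindex {E R T T' : Type*} [Field E] [Fintype T] [DecidableEq T] [Fintype T']
    [DecidableEq T'] (e : T' ≃ T) (r : T → R) (v : T → R → E) :
    dt (fun s => r (e s)) (fun t => v (e t)) = dt r v := by
  unfold dt
  rw [← Matrix.det_submatrix_equiv_self e (Matrix.of fun s t => v t (r s))]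
  rfl

/-- the index type of the columns -/
abbrev TT (T0 I T1 T2 T3 T4 : Type*) := ((((T0 ⊕ (I × Fin 2)) ⊕ T1) ⊕ T2) ⊕ T3) ⊕ T4

/-- the columns -/
def vv {V T0 I T1 T2 T3 T4 : Type*} (v0 : T0 → V) (vb : I × Fin 2 → V) (v1 : T1 → V)
    (v2 : T2 → V) (v3 : T3 → V) (v4 : T4 → V) : TT T0 I T1 T2 T3 T4 → V :=
  Sum.elim (Sum.elim (Sum.elim (Sum.elim (Sum.elim v0 vb) v1) v2) v3) v4

/-- change of nesting -/
def nest (T0 I T1 T2 T3 T4 : Type*) :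
    TT T0 I T1 T2 T3 T4 ≃ (T0 ⊕ ((I × Fin 2) ⊕ (T1 ⊕ (T2 ⊕ (T3 ⊕ T4))))) :=
  (Equiv.sumAssoc _ _ _).trans ((Equiv.sumAssoc _ _ _).trans
    ((Equiv.sumAssoc _ _ _).trans (Equiv.sumAssoc _ _ _)))

/-- **The general determinant**, left-nested. -/
theorem det_left {E : Type*} [Field E] {R : Type*} [Fintype R] [DecidableEq R]
    {T0 I T1 U2 T2 T3 T4 : Type*} [Fintype T0] [Fintype I]
    [Fintype T1] [Fintype U2] [Fintype T2] [Fintype T3] [Fintype T4]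
    [DecidableEq (TT T0 I T1 T2 T3 T4)]
    (O : ValuationSubring E) (Δ : E) (r : TT T0 I T1 T2 T3 T4 ≃ R)
    (Γ : (R → E) →ₗ[E] (R → E))
    (v0 w0 : T0 → R → E) (a0 : T0 → E) (rk : T0 → ℕ) (hrk : ∀ t, rk t ≤ 2)
    (h0 : ∀ t, v0 t - a0 t • Γ (w0 t) ∈ Submodule.span E (v0 '' {t' | rk t' < rk t}))
    (vb : I × Fin 2 → R → E) (wb : I × Option (Fin 2) → R → E) (y : I → Fin 2 → E)
    (hb : ∀ i s, vb (i, s) - Γ (wb (i, some s) - y i s • wb (i, none)) ∈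
      Submodule.span E (Set.range v0))
    (c : E) (hc : c ≠ 0) (hcO : c⁻¹ ∈ O) (hy : ∀ i s, c⁻¹ * y i s ∈ O)
    (v1 w1 : T1 → R → E) (a1 : T1 → E)
    (h1 : ∀ t, v1 t - a1 t • Γ (w1 t) ∈ Submodule.span E (Set.range v0))
    (v2 : T2 → R → E) (w2 : U2 → R → E) (A2 : U2 → T2 → E) (μ2 : E) (hA2 : PB O A2 μ2)
    (h2 : ∀ t, v2 t - Γ (∑ u, A2 u t • w2 u) ∈
      Submodule.span E (Set.range v0 ∪ Set.range vb ∪ Set.range v1))
    (v3 w3 : T3 → R → E) (a3 : T3 → E)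
    (h3 : ∀ t, v3 t - a3 t • Γ (w3 t) ∈
      Submodule.span E (Set.range v0 ∪ Set.range vb ∪ Set.range v1 ∪ Set.range v2))
    (v4 w4 : T4 → R → E) (a4 : T4 → E) (ha4 : ∀ t, a4 t ∈ O) (h4 : ∀ t, v4 t = a4 t • Γ (w4 t))
    (hw0 : ∀ t l, Δ * w0 t l ∈ O) (hwb : ∀ t l, Δ * wb t l ∈ O) (hw1 : ∀ t l, Δ * w1 t l ∈ O)
    (hw2 : ∀ t l, Δ * w2 t l ∈ O) (hw3 : ∀ t l, Δ * w3 t l ∈ O) (hw4 : ∀ t l, Δ * w4 t l ∈ O) :
    ∃ N ∈ O, Δ ^ Fintype.card R * dt r (vv v0 vb v1 v2 v3 v4) =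
      LinearMap.det Γ * ((∏ t, a0 t) * (c ^ Fintype.card I * ((∏ t, a1 t) *
        (μ2 * ∏ t, a3 t)))) * N := by
  classical
  obtain ⟨N, hN, e⟩ := det_main O Δ ((nest T0 I T1 T2 T3 T4).symm.trans r) Γ v0 w0 a0 rk hrk h0
    vb wb y hb c hc hcO hy v1 w1 a1 h1 v2 w2 A2 μ2 hA2 h2 v3 w3 a3 h3 v4 w4 a4 ha4 h4
    hw0 hwb hw1 hw2 hw3 hw4
  refine ⟨N, hN, ?_⟩
  rw [← e]
  congr 1
  have h5 := dt_reindex (nest T0 I T1 T2 T3 T4)
    (fun s => ((nest T0 I T1 T2 T3 T4).symm.trans r) s)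
    (Sum.elim v0 (Sum.elim vb (Sum.elim v1 (Sum.elim v2 (Sum.elim v3 v4)))))
  rw [← h5]
  have h6 : (fun s => ((nest T0 I T1 T2 T3 T4).symm.trans r) (nest T0 I T1 T2 T3 T4 s)) =
      fun s => r s := by
    funext s
    rw [Equiv.trans_apply, Equiv.symm_apply_apply]
  have h7 : (fun t => (Sum.elim v0 (Sum.elim vb (Sum.elim v1 (Sum.elim v2 (Sum.elim v3 v4)))) :
      _ → R → E) (nest T0 I T1 T2 T3 T4 t)) = vv v0 vb v1 v2 v3 v4 := by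
    funext t
    rcases t with ((((t | t) | t) | t) | t) | t <;> rfl
  rw [h6, h7]

end Pool.Agent.Helper49.LN
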