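import Pool.Agent.Helper49.LN.Loc
import Pool.Agent.Helper49.LN.DetLeft
import Pool.Agent.Helper49.LN.Fan

/-!
# LN: the columns of the determinants at one valuation ring
-/

set_option autoImplicit false

namespace Pool.Agent.Helper49.LN

open scoped BigOperators
open MvPolynomial
open Pool.Agent.Helper8.LG (Bdd)

variable {E : Type*} [Field E] {σ : Type*} {κ : Type*}

/-- the base of a flag: `(0, x; 0)`, `(x, 0; ε)`, `(0, y; 0)` -/
def b3 (x y : σ → E) (ε : κ → E) : Fin 3 → (σ ⊕ σ) ⊕ κ → E :=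
  ![tr 0 x 0, tr x 0 ε, tr 0 y 0]

/-- the base of a line: `(0, x; 0)`, `(x, 0; 0)`, `(0, y; 0)`, `(y, 0; 0)` -/
def b4 (x y : σ → E) : Fin 4 → (σ ⊕ σ) ⊕ κ → E :=
  ![tr 0 x 0, tr x 0 0, tr 0 y 0, tr y 0 0]

/-- ranks of the base columns -/
def r3 : Fin 3 → ℕ := ![0, 1, 1]

/-- ranks of the base columns -/
def r4 : Fin 4 → ℕ := ![0, 1, 1, 2]

/-- weights of the base columns -/
def a3 (c e : E) : Fin 3 → E := ![c / e, 1, 1]

/-- weights of the base columns -/
def a4 (c e : E) : Fin 4 → E := ![c / e, 1, 1, e / c]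

theorem prod_a3 (c e : E) : ∏ t, a3 c e t = c / e := by
  unfold a3
  simp [Fin.prod_univ_succ]

theorem prod_a4 (c e : E) (hc : c ≠ 0) (he : e ≠ 0) : ∏ t, a4 c e t = 1 := by
  unfold a4
  simp [Fin.prod_univ_succ]
  field_simp

section

variable {O : ValuationSubring E} {x y : σ → E} {m j : σ}

theorem b3_trans (h : Loc O x y m j) (ε : κ → E) (t : Fin 3) :
    b3 x y ε t - a3 (x m) (mu x y m j) t •
      gf (x m) (y m) (mu x y m j) (b3 (xt x m) (yt x y m j) ε t) ∈
      Submodule.span E (b3 x y ε '' {t' | r3 t' < r3 t}) := by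
  obtain ⟨c, hc⟩ : ∃ c, c = x m := ⟨_, rfl⟩
  obtain ⟨d, hd⟩ : ∃ d, d = y m := ⟨_, rfl⟩
  obtain ⟨e, he⟩ : ∃ e, e = mu x y m j := ⟨_, rfl⟩
  have hc0 : c ≠ 0 := hc ▸ h.xm
  have he0 : e ≠ 0 := he ▸ h.mu_ne
  have hx : ∀ l, x l = c * xt x m l := fun l => by rw [hc]; exact h.x_eq l
  have hy : ∀ l, y l = d * xt x m l + e * yt x y m j l := fun l => by
    rw [hd, he]
    exact h.y_eq l
  rw [← hc, ← hd, ← he]
  have h0 : b3 x y ε 0 ∈ Submodule.span E (b3 x y ε '' {t' | r3 t' < r3 1}) :=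
    Submodule.subset_span ⟨0, by simp [r3], rfl⟩
  fin_cases t
  · have h1 : b3 x y ε 0 - a3 c e 0 • gf c d e (b3 (xt x m) (yt x y m j) ε 0) = 0 := by
      show tr 0 x 0 - (c / e) • gf c d e (tr 0 (xt x m) 0) = 0
      rw [gf_apply]
      funext r
      rcases r with (l | l) | k
      · simp [tr]
      · simp only [tr, Pi.sub_apply, Pi.smul_apply, Sum.elim_inl, Sum.elim_inr, smul_eq_mul,
          Pi.zero_apply]
        rw [hx l]
        field_simp
        ring
      · simp [tr]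
    show b3 x y ε 0 - a3 c e 0 • gf c d e (b3 (xt x m) (yt x y m j) ε 0) ∈ _
    rw [h1]
    exact Submodule.zero_mem _
  · have h1 : b3 x y ε 1 - a3 c e 1 • gf c d e (b3 (xt x m) (yt x y m j) ε 1) =
        -(d / c) • b3 x y ε 0 := by
      show tr x 0 ε - (1 : E) • gf c d e (tr (xt x m) 0 ε) = -(d / c) • tr 0 x 0
      rw [gf_apply]
      funext r
      rcases r with (l | l) | k
      · simp only [tr, Pi.sub_apply, Pi.smul_apply, Sum.elim_inl, Sum.elim_inr, smul_eq_mul,
          Pi.zero_apply]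
        rw [hx l]
        ring
      · simp only [tr, Pi.sub_apply, Pi.smul_apply, Sum.elim_inl, Sum.elim_inr, smul_eq_mul,
          Pi.zero_apply]
        rw [hx l]
        field_simp
        ring
      · simp [tr]
    show b3 x y ε 1 - a3 c e 1 • gf c d e (b3 (xt x m) (yt x y m j) ε 1) ∈ _
    rw [h1]
    exact Submodule.smul_mem _ _ h0
  · have h1 : b3 x y ε 2 - a3 c e 2 • gf c d e (b3 (xt x m) (yt x y m j) ε 2) =
        (d / c) • b3 x y ε 0 := by
      show tr 0 y 0 - (1 : E) • gf c d e (tr 0 (yt x y m j) 0) = (d / c) • tr 0 x 0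
      rw [gf_apply]
      funext r
      rcases r with (l | l) | k
      · simp [tr]
      · simp only [tr, Pi.sub_apply, Pi.smul_apply, Sum.elim_inl, Sum.elim_inr, smul_eq_mul,
          Pi.zero_apply]
        rw [hx l, hy l]
        field_simp
        ring
      · simp [tr]
    show b3 x y ε 2 - a3 c e 2 • gf c d e (b3 (xt x m) (yt x y m j) ε 2) ∈ _
    rw [h1]
    exact Submodule.smul_mem _ _ h0

theorem b4_trans (h : Loc O x y m j) (t : Fin 4) :
    b4 (κ := κ) x y t - a4 (x m) (mu x y m j) t •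
      gf (x m) (y m) (mu x y m j) (b4 (xt x m) (yt x y m j) t) ∈
      Submodule.span E (b4 x y '' {t' | r4 t' < r4 t}) := by
  obtain ⟨c, hc⟩ : ∃ c, c = x m := ⟨_, rfl⟩
  obtain ⟨d, hd⟩ : ∃ d, d = y m := ⟨_, rfl⟩
  obtain ⟨e, he⟩ : ∃ e, e = mu x y m j := ⟨_, rfl⟩
  have hc0 : c ≠ 0 := hc ▸ h.xm
  have he0 : e ≠ 0 := he ▸ h.mu_ne
  have hx : ∀ l, x l = c * xt x m l := fun l => by rw [hc]; exact h.x_eq l
  have hy : ∀ l, y l = d * xt x m l + e * yt x y m j l := fun l => by
    rw [hd, he]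
    exact h.y_eq l
  rw [← hc, ← hd, ← he]
  have h0 : b4 (κ := κ) x y 0 ∈ Submodule.span E (b4 (κ := κ) x y '' {t' | r4 t' < r4 1}) :=
    Submodule.subset_span ⟨0, by simp [r4], rfl⟩
  have h03 : b4 (κ := κ) x y 0 ∈ Submodule.span E (b4 (κ := κ) x y '' {t' | r4 t' < r4 3}) :=
    Submodule.subset_span ⟨0, by simp [r4], rfl⟩
  have h13 : b4 (κ := κ) x y 1 ∈ Submodule.span E (b4 (κ := κ) x y '' {t' | r4 t' < r4 3}) :=
    Submodule.subset_span ⟨1, by simp [r4], rfl⟩
  have h23 : b4 (κ := κ) x y 2 ∈ Submodule.span E (b4 (κ := κ) x y '' {t' | r4 t' < r4 3}) :=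
    Submodule.subset_span ⟨2, by simp [r4], rfl⟩
  fin_cases t
  · have h1 : b4 (κ := κ) x y 0 - a4 c e 0 • gf c d e (b4 (xt x m) (yt x y m j) 0) = 0 := by
      show tr 0 x 0 - (c / e) • gf c d e (tr 0 (xt x m) 0) = 0
      rw [gf_apply]
      funext r
      rcases r with (l | l) | k
      · simp [tr]
      · simp only [tr, Pi.sub_apply, Pi.smul_apply, Sum.elim_inl, Sum.elim_inr, smul_eq_mul,
          Pi.zero_apply]
        rw [hx l]
        field_simp
        ring
      · simp [tr]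
    show b4 x y 0 - a4 c e 0 • gf c d e (b4 (xt x m) (yt x y m j) 0) ∈ _
    rw [h1]
    exact Submodule.zero_mem _
  · have h1 : b4 (κ := κ) x y 1 - a4 c e 1 • gf c d e (b4 (xt x m) (yt x y m j) 1) =
        -(d / c) • b4 x y 0 := by
      show tr x 0 0 - (1 : E) • gf c d e (tr (xt x m) 0 0) = -(d / c) • tr 0 x 0
      rw [gf_apply]
      funext r
      rcases r with (l | l) | k
      · simp only [tr, Pi.sub_apply, Pi.smul_apply, Sum.elim_inl, Sum.elim_inr, smul_eq_mul,
          Pi.zero_apply]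
        rw [hx l]
        ring
      · simp only [tr, Pi.sub_apply, Pi.smul_apply, Sum.elim_inl, Sum.elim_inr, smul_eq_mul,
          Pi.zero_apply]
        rw [hx l]
        field_simp
        ring
      · simp [tr]
    show b4 x y 1 - a4 c e 1 • gf c d e (b4 (xt x m) (yt x y m j) 1) ∈ _
    rw [h1]
    exact Submodule.smul_mem _ _ h0
  · have h1 : b4 (κ := κ) x y 2 - a4 c e 2 • gf c d e (b4 (xt x m) (yt x y m j) 2) =
        (d / c) • b4 x y 0 := by
      show tr 0 y 0 - (1 : E) • gf c d e (tr 0 (yt x y m j) 0) = (d / c) • tr 0 x 0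
      rw [gf_apply]
      funext r
      rcases r with (l | l) | k
      · simp [tr]
      · simp only [tr, Pi.sub_apply, Pi.smul_apply, Sum.elim_inl, Sum.elim_inr, smul_eq_mul,
          Pi.zero_apply]
        rw [hx l, hy l]
        field_simp
        ring
      · simp [tr]
    show b4 x y 2 - a4 c e 2 • gf c d e (b4 (xt x m) (yt x y m j) 2) ∈ _
    rw [h1]
    exact Submodule.smul_mem _ _ h0
  · have h1 : b4 (κ := κ) x y 3 - a4 c e 3 • gf c d e (b4 (xt x m) (yt x y m j) 3) =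
        (d / c) • b4 x y 1 + (d / c * (d / c)) • b4 x y 0 - (d / c) • b4 x y 2 := by
      show tr y 0 0 - (e / c) • gf c d e (tr (yt x y m j) 0 0) =
        (d / c) • tr x 0 0 + (d / c * (d / c)) • tr 0 x 0 - (d / c) • tr 0 y 0
      rw [gf_apply]
      funext r
      rcases r with (l | l) | k
      · simp only [tr, Pi.sub_apply, Pi.add_apply, Pi.smul_apply, Sum.elim_inl, Sum.elim_inr,
          smul_eq_mul, Pi.zero_apply]
        rw [hx l, hy l]
        field_simp
        ring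
      · simp only [tr, Pi.sub_apply, Pi.add_apply, Pi.smul_apply, Sum.elim_inl, Sum.elim_inr,
          smul_eq_mul, Pi.zero_apply]
        rw [hx l, hy l]
        field_simp
        ring
      · simp [tr]
    show b4 x y 3 - a4 c e 3 • gf c d e (b4 (xt x m) (yt x y m j) 3) ∈ _
    rw [h1]
    exact sub_mem (add_mem (Submodule.smul_mem _ _ h13) (Submodule.smul_mem _ _ h03))
      (Submodule.smul_mem _ _ h23)

/-- the constant columns `e_l ⊗ (x_k, y_k)` and the unit vectors of `κ` -/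
def kv [DecidableEq σ] [DecidableEq κ] (x y : σ → E) : (σ × σ) ⊕ κ → (σ ⊕ σ) ⊕ κ → E :=
  Sum.elim (fun lk => tr (Pi.single lk.1 (x lk.2)) (Pi.single lk.1 (y lk.2)) 0)
    fun i => tr 0 0 (Pi.single i 1)

theorem kv_trans [DecidableEq σ] [DecidableEq κ] (h : Loc O x y m j) (t : (σ × σ) ⊕ κ) :
    kv x y t = gf (x m) (y m) (mu x y m j) (kv (xt x m) (yt x y m j) t) := by
  rcases t with ⟨l, k⟩ | i
  · show tr (Pi.single l (x k)) (Pi.single l (y k)) 0 = gf (x m) (y m) (mu x y m j)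
      (tr (Pi.single l (xt x m k)) (Pi.single l (yt x y m j k)) 0)
    rw [gf_apply]
    funext r
    rcases r with (l' | l') | i
    · simp only [tr, Sum.elim_inl, Sum.elim_inr, Pi.single_apply]
      rw [h.x_eq k]
      split_ifs
      · rfl
      · ring
    · simp only [tr, Sum.elim_inl, Sum.elim_inr, Pi.single_apply]
      rw [h.y_eq k]
      split_ifs
      · rfl
      · ring
    · rfl
  · show tr 0 0 (Pi.single i 1) = gf (x m) (y m) (mu x y m j) (tr 0 0 (Pi.single i 1))
    rw [gf_apply]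
    funext r
    rcases r with (l' | l') | i'
    · simp [tr]
    · simp [tr]
    · rfl

end

end Pool.Agent.Helper49.LN
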