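import Pool.Agent.Helper49.LN.Bnd

/-!
# LN: the determinants of a line and of a flag at one valuation ring
-/

set_option autoImplicit false

namespace Pool.Agent.Helper49.LN

open scoped BigOperators
open MvPolynomial
open Pool.Agent.Helper8.LG (Bdd)

variable {E : Type*} [Field E] {σ : Type*} {κ : Type*} {n : ℕ}

section

variable {O : ValuationSubring E} {Δ : E} {D : Sym σ (n + 1) → Derivation ℤ E E}
  {x y : σ → E} {m j : σ} {g g' : Sym σ (n + 1) → κ → E} {ε : κ → E}

theorem lam_mul_mu (h : Loc O x y m j) : x m * mu x y m j = pl x y m j := by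
  unfold mu
  rw [mul_div_cancel₀ _ h.xm]

theorem x_div_mu (h : Loc O x y m j) : x m / mu x y m j = x m ^ 2 / pl x y m j := by
  unfold mu
  have h1 := h.xm
  have h2 := h.hρ
  field_simp

variable [Fintype σ] [DecidableEq σ]

theorem lv_smul {M : Type*} [AddCommGroup M] [Module E M] (V : Sym σ (n + 1) → M) (ρ : E)
    (P P' : σ → σ → E) (h : ∀ j l, P j l = ρ * P' j l) (p : Sym σ n × σ × σ × σ) :
    lv V P p = ρ • lv V P' p := by
  unfold lv
  rw [Lf_smul ρ P P' h, mul_smul_comm, map_smul]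

theorem lv_trans_f (hG : LocG O Δ D x m g g' ε) (h : Loc O x y m j) (p : Sym σ n × σ × σ × σ) :
    lv (fv D x y g) (pl x y) p - pl x y m j • gf (x m) (y m) (mu x y m j)
      (lv (fv D (xt x m) (yt x y m j) g') (pl (xt x m) (yt x y m j)) p) ∈
      Submodule.span E (Set.range (b3 x y ε)) := by
  rw [← map_smul, ← lv_smul _ _ _ _ (fun k l => h.pl_eq k l)]
  exact cPf_trans hG h _

theorem lv_trans_l (hG : LocG O Δ D x m g g' 0) (h : Loc O x y m j) (p : Sym σ n × σ × σ × σ) :
    lv (fv D x y g) (pl x y) p - pl x y m j • gf (x m) (y m) (mu x y m j)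
      (lv (fv D (xt x m) (yt x y m j) g') (pl (xt x m) (yt x y m j)) p) ∈
      Submodule.span E (Set.range (b4 (κ := κ) x y)) := by
  rw [← map_smul, ← lv_smul _ _ _ _ (fun k l => h.pl_eq k l)]
  exact cPl_trans hG h _

theorem lv_bdd (hG : LocG O Δ D x m g g' ε) (h : Loc O x y m j) (p : Sym σ n × σ × σ × σ)
    (r : (σ ⊕ σ) ⊕ κ) :
    Δ * lv (fv D (xt x m) (yt x y m j) g') (pl (xt x m) (yt x y m j)) p r ∈ O :=
  cPf_bdd hG h _ ((IntP.mo O _).mul (Lf_int _ (fun k l => h.pl_mem k l) _)) r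

variable [Fintype κ] [DecidableEq κ]

/-- **The determinant of a line at one valuation ring** -/
theorem g3_det (hG : LocG O Δ D x m g g' 0) (h : Loc O x y m j) (a b : σ)
    (hab : pl x y a b ≠ 0) {b' r t : ℕ} (f : Fin b' → Sym σ n × σ × σ × σ) (K : Fin r → ℕ)
    (hK : ∀ s, K s ≤ n + 1) (f' : Fin t → (σ × σ) ⊕ κ)
    (rr : TT (Fin 4) (Fin 0) (Fin b') (Fin r) (Fin 0) (Fin t) ≃ (σ ⊕ σ) ⊕ κ)
    (hI : ∀ p ∈ Il (pl x y), cP (fv D x y g) p ∈ Submodule.span E (Set.range (b4 x y) ∪
        Set.range fun s => lv (fv D x y g) (pl x y) (f s))) :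
    ∃ N ∈ O, Δ ^ Fintype.card ((σ ⊕ σ) ⊕ κ) * dt rr (vv (b4 x y) (vb0 _)
      (fun s => lv (fv D x y g) (pl x y) (f s)) (fun s => bn (E := E) (fv D x y g) a b (K s))
      Fin.elim0 fun s => kv x y (f' s)) =
      pl x y m j ^ (Fintype.card σ + b') *
        pl (xt x m) (yt x y m j) a b ^ (r * (r - 1) / 2) * N := by
  classical
  obtain ⟨A, G, hA, hGi, hAG⟩ := fanI h a b hab (n + 1) K hK
  rw [Fintype.card_fin] at hA
  have hv0 : Submodule.span E (Set.range (b4 (κ := κ) x y)) ≤ Submodule.span E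
      (Set.range (b4 (κ := κ) x y) ∪ Set.range (vb0 ((σ ⊕ σ) ⊕ κ → E)) ∪
        Set.range fun s => lv (fv D x y g) (pl x y) (f s)) :=
    Submodule.span_mono (fun v hv => Or.inl (Or.inl hv))
  obtain ⟨N, hN, e⟩ := det_left O Δ rr (gf (x m) (y m) (mu x y m j))
    (b4 x y) (b4 (xt x m) (yt x y m j)) (a4 (x m) (mu x y m j)) r4
    (by intro t; fin_cases t <;> simp [r4]) (b4_trans h)
    (vb0 _) (fun p => p.1.elim0) (fun i => i.elim0) (fun i => i.elim0) 1 one_ne_zero
    (by rw [inv_one]; exact one_mem O) (fun i => i.elim0)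
    (fun s => lv (fv D x y g) (pl x y) (f s))
    (fun s => lv (fv D (xt x m) (yt x y m j) g') (pl (xt x m) (yt x y m j)) (f s))
    (fun _ => pl x y m j) (fun s => lv_trans_l hG h (f s))
    (fun s => bn (E := E) (fv D x y g) a b (K s))
    (fun i => cP (fv D (xt x m) (yt x y m j) g') (G i)) A _ hA
    (by
      intro s
      have h1 : cP (fv D x y g) (X a ^ (n + 1 - K s) * X b ^ K s : MvPolynomial σ E) -
          gf (x m) (y m) (mu x y m j) (∑ u, A u s • cP (fv D (xt x m) (yt x y m j) g') (G u)) =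
          cP (fv D x y g) ((X a ^ (n + 1 - K s) * X b ^ K s : MvPolynomial σ E) -
            ∑ i, A i s • G i) + (cP (fv D x y g) (∑ i, A i s • G i) -
            gf (x m) (y m) (mu x y m j) (cP (fv D (xt x m) (yt x y m j) g')
              (∑ i, A i s • G i))) := by
        rw [map_sub]
        simp only [map_sum, map_smul]
        abel
      show cP (fv D x y g) (X a ^ (n + 1 - K s) * X b ^ K s : MvPolynomial σ E) - _ ∈ _
      rw [h1]
      refine add_mem ?_ (hv0 (cPl_trans hG h _))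
      refine Submodule.span_mono ?_ (hI _ (hAG s))
      rintro v (hv | hv)
      · exact Or.inl (Or.inl hv)
      · exact Or.inr hv)
    Fin.elim0 (fun i => i.elim0) (fun i => i.elim0) (fun i => i.elim0)
    (fun s => kv x y (f' s)) (fun s => kv (xt x m) (yt x y m j) (f' s)) (fun _ => 1)
    (fun _ => one_mem O) (fun s => by rw [one_smul]; exact kv_trans h (f' s))
    (fun t l => b4_bdd hG.bdd.1 h t l) (fun p => p.1.elim0)
    (fun s l => lv_bdd hG h (f s) l) (fun i l => cPf_bdd hG h _ (hGi i) l)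
    (fun i => i.elim0) (fun s l => kv_bdd hG.bdd.1 h (f' s) l)
  refine ⟨N, hN, ?_⟩
  rw [e, det_gf, lam_mul_mu h, prod_a4 _ _ h.xm h.mu_ne, Finset.prod_const, Finset.card_univ,
    Fintype.card_fin, Fintype.card_fin, pow_zero, pow_add]
  simp only [Finset.univ_eq_empty, Finset.prod_empty]
  ring

theorem tri_nat (r : ℕ) : r + r * (r - 1) / 2 = r * (r + 1) / 2 := by
  rcases r with _ | r
  · rfl
  · have h1 : (r + 1) * (r + 1 + 1) = 2 * (r + 1) + (r + 1) * (r + 1 - 1) := by
      rw [Nat.add_sub_cancel]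
      ring
    rw [h1, Nat.mul_add_div (by norm_num)]

omit [Fintype κ] [DecidableEq κ] [Fintype σ] in
/-- the fan of the forms vanishing at the point, modulo the ideal of the line -/
theorem fanJ (h : Loc O x y m j) (a b : σ) (hab : pl x y a b ≠ 0) (N : ℕ)
    {T : Type*} [Fintype T] (K : T → ℕ) (hK : ∀ t, K t ≤ N) :
    ∃ (A : Fin (N + 1) → T → E) (G : Fin (N + 1) → MvPolynomial σ E),
      PB O A (x m ^ Fintype.card T * pl (xt x m) (yt x y m j) a b ^
        (Fintype.card T * (Fintype.card T + 1) / 2)) ∧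
      (∀ i, IntP O (G i)) ∧
      ∀ t, (X a ^ (N - K t) * X b ^ K t * hf x a b : MvPolynomial σ E) - ∑ i, A i t • G i ∈
        Il (pl x y) := by
  obtain ⟨A, G, hA, hG, hAG⟩ := fanI h a b hab N K hK
  have hV : IntP O (X j - xt x m j • X m : MvPolynomial σ E) :=
    (IntP.X O _).sub ((IntP.X O _).smul (h.hx j))
  refine ⟨fun u t => (x m * pl (xt x m) (yt x y m j) a b) * A u t,
    fun i => G i * (X j - xt x m j • X m), ?_, fun i => (hG i).mul hV, ?_⟩
  · have h1 := hA.mul (fun _ : T => x m * pl (xt x m) (yt x y m j) a b)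
    rw [Finset.prod_const, Finset.card_univ, mul_pow, mul_assoc, ← pow_add, tri_nat] at h1
    exact h1
  · intro t
    have h1 := hf_mod_std (xt x m) (yt x y m j) m j h.xt_m h.yt_m h.yt_j a b
    rw [← Il_loc h] at h1
    have h2 : (X a ^ (N - K t) * X b ^ K t * hf x a b : MvPolynomial σ E) -
        ∑ i, (x m * pl (xt x m) (yt x y m j) a b * A i t) • (G i * (X j - xt x m j • X m)) =
        (X a ^ (N - K t) * X b ^ K t - ∑ i, A i t • G i) * hf x a b +
        (x m • ∑ i, A i t • G i) * (hf (xt x m) a b - pl (xt x m) (yt x y m j) a b •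
          (X j - xt x m j • X m)) := by
      have h3 : ∑ i, (x m * pl (xt x m) (yt x y m j) a b * A i t) •
          (G i * (X j - xt x m j • X m)) = (x m * pl (xt x m) (yt x y m j) a b) •
          ((∑ i, A i t • G i) * (X j - xt x m j • X m)) := by
        rw [Finset.sum_mul, Finset.smul_sum]
        refine Finset.sum_congr rfl fun i _ => ?_
        rw [mul_smul, smul_mul_assoc]
      rw [h3, hf_xt h.xm a b]
      generalize (∑ i, A i t • G i) = S
      simp only [smul_eq_C_mul, map_mul]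
      ring
    rw [h2]
    exact add_mem (Ideal.mul_mem_right _ _ (hAG t)) (Ideal.mul_mem_left _ _ h1)

/-- **The determinant of a flag at one valuation ring** -/
theorem g2_det (hG : LocG O Δ D x m g g' ε) (h : Loc O x y m j) (i₀ a : σ) (hx : x i₀ = 1)
    (ha : pl x y i₀ a ≠ 0) {b' r t : ℕ} (f : Fin b' → Sym σ n × σ × σ × σ) (K : Fin r → ℕ)
    (hK : ∀ s, K s ≤ n) (f' : Fin t → (σ × σ) ⊕ κ)
    (rr : TT (Fin 3) (Fin 0) (Fin b') (Fin r) (Fin 1) (Fin t) ≃ (σ ⊕ σ) ⊕ κ)
    (hI : ∀ p ∈ Il (pl x y), cP (fv D x y g) p ∈ Submodule.span E (Set.range (b3 x y ε) ∪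
        Set.range fun s => lv (fv D x y g) (pl x y) (f s)))
    (hJ : ∀ p ∈ Ipt x, cP (fv D x y g) p ∈ Submodule.span E (Set.range (b3 x y ε) ∪
        (Set.range fun s => lv (fv D x y g) (pl x y) (f s)) ∪
        Set.range fun s => fn (fv D x y g) x i₀ a (K s))) :
    ∃ N ∈ O, Δ ^ Fintype.card ((σ ⊕ σ) ⊕ κ) * dt rr (vv (b3 x y ε) (vb0 _)
      (fun s => lv (fv D x y g) (pl x y) (f s)) (fun s => fn (fv D x y g) x i₀ a (K s))
      (fun _ => la (E := E) (fv D x y g) i₀) fun s => kv x y (f' s)) *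
        (x m ^ (n + 1) * pl x y m j) =
      x m ^ (2 + r) * pl x y m j ^ (Fintype.card σ + b') *
        pl (xt x m) (yt x y m j) i₀ a ^ (r * (r + 1) / 2) * N := by
  classical
  obtain ⟨A, G, hA, hGi, hAG⟩ := fanJ h i₀ a ha n K hK
  rw [Fintype.card_fin] at hA
  have hv0 : Submodule.span E (Set.range (b3 x y ε)) ≤ Submodule.span E
      (Set.range (b3 x y ε) ∪ Set.range (vb0 ((σ ⊕ σ) ⊕ κ → E)) ∪
        Set.range fun s => lv (fv D x y g) (pl x y) (f s)) :=
    Submodule.span_mono (fun v hv => Or.inl (Or.inl hv))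
  have hv1 : Submodule.span E (Set.range (b3 x y ε)) ≤ Submodule.span E
      (Set.range (b3 x y ε) ∪ Set.range (vb0 ((σ ⊕ σ) ⊕ κ → E)) ∪
        (Set.range fun s => lv (fv D x y g) (pl x y) (f s)) ∪
        Set.range fun s => fn (fv D x y g) x i₀ a (K s)) :=
    Submodule.span_mono (fun v hv => Or.inl (Or.inl (Or.inl hv)))
  obtain ⟨N, hN, e⟩ := det_left O Δ rr (gf (x m) (y m) (mu x y m j))
    (b3 x y ε) (b3 (xt x m) (yt x y m j) ε) (a3 (x m) (mu x y m j)) r3
    (by intro t; fin_cases t <;> simp [r3]) (b3_trans h ε)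
    (vb0 _) (fun p => p.1.elim0) (fun i => i.elim0) (fun i => i.elim0) 1 one_ne_zero
    (by rw [inv_one]; exact one_mem O) (fun i => i.elim0)
    (fun s => lv (fv D x y g) (pl x y) (f s))
    (fun s => lv (fv D (xt x m) (yt x y m j) g') (pl (xt x m) (yt x y m j)) (f s))
    (fun _ => pl x y m j) (fun s => lv_trans_f hG h (f s))
    (fun s => fn (fv D x y g) x i₀ a (K s))
    (fun i => cP (fv D (xt x m) (yt x y m j) g') (G i)) A _ hA
    (by
      intro s
      have h1 : cP (fv D x y g) (X i₀ ^ (n - K s) * X a ^ K s * hf x i₀ a : MvPolynomial σ E) -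
          gf (x m) (y m) (mu x y m j) (∑ u, A u s • cP (fv D (xt x m) (yt x y m j) g') (G u)) =
          cP (fv D x y g) ((X i₀ ^ (n - K s) * X a ^ K s * hf x i₀ a : MvPolynomial σ E) -
            ∑ i, A i s • G i) + (cP (fv D x y g) (∑ i, A i s • G i) -
            gf (x m) (y m) (mu x y m j) (cP (fv D (xt x m) (yt x y m j) g')
              (∑ i, A i s • G i))) := by
        rw [map_sub]
        simp only [map_sum, map_smul]
        abel
      show cP (fv D x y g) (X i₀ ^ (n - K s) * X a ^ K s * hf x i₀ a : MvPolynomial σ E) - _ ∈ _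
      rw [h1]
      refine add_mem ?_ (hv0 (cPf_trans hG h _))
      refine Submodule.span_mono ?_ (hI _ (hAG s))
      rintro v (hv | hv)
      · exact Or.inl (Or.inl hv)
      · exact Or.inr hv)
    (fun _ => la (E := E) (fv D x y g) i₀)
    (fun _ => la (E := E) (fv D (xt x m) (yt x y m j) g') m) (fun _ => (x m ^ (n + 1))⁻¹)
    (by
      intro _
      have h1 : la (E := E) (fv D x y g) i₀ - (x m ^ (n + 1))⁻¹ • gf (x m) (y m) (mu x y m j)
          (la (E := E) (fv D (xt x m) (yt x y m j) g') m) =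
          cP (fv D x y g) ((X i₀ : MvPolynomial σ E) ^ (n + 1) -
            (x m ^ (n + 1))⁻¹ • X m ^ (n + 1)) +
          (cP (fv D x y g) ((x m ^ (n + 1))⁻¹ • (X m : MvPolynomial σ E) ^ (n + 1)) -
            gf (x m) (y m) (mu x y m j) (cP (fv D (xt x m) (yt x y m j) g')
              ((x m ^ (n + 1))⁻¹ • (X m : MvPolynomial σ E) ^ (n + 1)))) := by
        unfold la
        rw [map_sub]
        simp only [map_smul]
        abel
      rw [h1]
      refine add_mem ?_ (hv1 (cPf_trans hG h _))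
      refine Submodule.span_mono ?_ (hJ _ (pow_mod x i₀ m hx h.xm (n + 1)))
      rintro v ((hv | hv) | hv)
      · exact Or.inl (Or.inl (Or.inl hv))
      · exact Or.inl (Or.inr hv)
      · exact Or.inr hv)
    (fun s => kv x y (f' s)) (fun s => kv (xt x m) (yt x y m j) (f' s)) (fun _ => 1)
    (fun _ => one_mem O) (fun s => by rw [one_smul]; exact kv_trans h (f' s))
    (fun t l => b3_bdd hG.bdd.1 h hG.eps t l) (fun p => p.1.elim0)
    (fun s l => lv_bdd hG h (f s) l) (fun i l => cPf_bdd hG h _ (hGi i) l)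
    (fun _ l => cPf_bdd hG h _ ((IntP.X O m).pow _) l)
    (fun s l => kv_bdd hG.bdd.1 h (f' s) l)
  refine ⟨N, hN, ?_⟩
  rw [e, det_gf, lam_mul_mu h, prod_a3, x_div_mu h, Finset.prod_const, Finset.card_univ,
    Fintype.card_fin, Fintype.card_fin, pow_zero, Finset.prod_const, Finset.card_univ,
    Fintype.card_fin, pow_one]
  have h1 := h.xm
  have h2 := h.hρ
  have h3 : x m ^ (n + 1) ≠ 0 := pow_ne_zero _ h1
  rw [pow_add, pow_add]
  field_simp
  ring

end

end Pool.Agent.Helper49.LN
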