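import Pool.Agent.Helper49.LN.Expand

/-!
# LN: the general determinant at one valuation ring

Columns: `v0` (base), `vb` (2-blocks), `v1` (weights), `v2` (fan), `v3` (last), `v4` (constants).
-/

set_option autoImplicit false

namespace Pool.Agent.Helper49.LN

open scoped BigOperators

section

variable {E : Type*} [Field E] {V : Type*} [AddCommGroup V] [Module E V]

theorem sum_blk_inl {U₁ U₂ T₁ T₂ : Type*} [Fintype U₁] [Fintype U₂] (A₁ : U₁ → T₁ → E)
    (A₂ : U₂ → T₂ → E) (W₁ : U₁ → V) (W₂ : U₂ → V) (t : T₁) :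
    ∑ u, blk A₁ A₂ u (Sum.inl t) • Sum.elim W₁ W₂ u = ∑ u, A₁ u t • W₁ u := by
  rw [Fintype.sum_sum_type]
  have h1 : ∑ u : U₂, blk A₁ A₂ (Sum.inr u) (Sum.inl t) • Sum.elim W₁ W₂ (Sum.inr u) = 0 :=
    Finset.sum_eq_zero fun u _ => zero_smul E _
  rw [h1, add_zero]
  rfl

theorem sum_blk_inr {U₁ U₂ T₁ T₂ : Type*} [Fintype U₁] [Fintype U₂] (A₁ : U₁ → T₁ → E)
    (A₂ : U₂ → T₂ → E) (W₁ : U₁ → V) (W₂ : U₂ → V) (t : T₂) :
    ∑ u, blk A₁ A₂ u (Sum.inr t) • Sum.elim W₁ W₂ u = ∑ u, A₂ u t • W₂ u := by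
  rw [Fintype.sum_sum_type]
  have h1 : ∑ u : U₁, blk A₁ A₂ (Sum.inl u) (Sum.inr t) • Sum.elim W₁ W₂ (Sum.inl u) = 0 :=
    Finset.sum_eq_zero fun u _ => zero_smul E _
  rw [h1, zero_add]
  rfl

theorem sum_diag {T : Type*} [Fintype T] [DecidableEq T] (a : T → E) (W : T → V) (t : T) :
    ∑ u, (if u = t then a t else 0) • W u = a t • W t := by
  rw [Finset.sum_eq_single t]
  · rw [if_pos rfl]
  · intro u _ h
    rw [if_neg h, zero_smul]
  · intro h
    exact absurd (Finset.mem_univ t) h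

theorem sum_blks {I U T : Type*} [Fintype I] [DecidableEq I] [Fintype U] (A : I → U → T → E)
    (W : I × U → V) (t : I × T) :
    ∑ u, blks A u t • W u = ∑ u, A t.1 u t.2 • W (t.1, u) := by
  rw [Fintype.sum_prod_type, Finset.sum_eq_single t.1]
  · refine Finset.sum_congr rfl fun u _ => ?_
    unfold blks
    rw [if_pos rfl]
  · intro i _ h
    refine Finset.sum_eq_zero fun u _ => ?_
    unfold blks
    rw [if_neg h, zero_smul]
  · intro h
    exact absurd (Finset.mem_univ _) h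

end

/-- the expansion, with the spans of the given columns -/
theorem det_expand' {E : Type*} [Field E] {R T U : Type*} [Fintype T] [DecidableEq T] [Fintype R]
    [DecidableEq R] [Fintype U] (O : ValuationSubring E) (Δ μ : E)
    (r : T ≃ R) (Γ : (R → E) →ₗ[E] (R → E)) (W : U → R → E) (hW : ∀ u l, Δ * W u l ∈ O)
    (A : U → T → E) (hA : PB O A μ) (v : T → R → E) (rk : T → ℕ)
    (hv : ∀ t, v t - Γ (∑ u, A u t • W u) ∈ Submodule.span E (v '' {t' | rk t' < rk t})) :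
    ∃ N ∈ O, Δ ^ Fintype.card T * dt r v = LinearMap.det Γ * μ * N := by
  obtain ⟨N, hN, e⟩ := dt_expand O Δ μ r W hW A hA
  refine ⟨N, hN, ?_⟩
  have h1 : dt r (fun t => Γ (∑ u, A u t • W u)) = dt r v := by
    refine dt_tri r (fun t => Γ (∑ u, A u t • W u)) v rk fun t => ?_
    have h2 := Submodule.neg_mem _ (hv t)
    rwa [neg_sub] at h2
  rw [← h1, dt_map r Γ (fun t => ∑ u, A u t • W u)]
  calc Δ ^ Fintype.card T * (LinearMap.det Γ * dt r fun t => ∑ u, A u t • W u) =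
        LinearMap.det Γ * (Δ ^ Fintype.card T * dt r fun t => ∑ u, A u t • W u) := by ring
    _ = _ := by rw [e]; ring

/-- **The general determinant.** -/
theorem det_main {E : Type*} [Field E] {R : Type*} [Fintype R] [DecidableEq R]
    {T0 I T1 U2 T2 T3 T4 : Type*} [Fintype T0] [DecidableEq T0] [Fintype I] [DecidableEq I]
    [Fintype T1] [DecidableEq T1] [Fintype U2] [Fintype T2] [DecidableEq T2] [Fintype T3]
    [DecidableEq T3] [Fintype T4] [DecidableEq T4]
    [DecidableEq (T0 ⊕ ((I × Fin 2) ⊕ (T1 ⊕ (T2 ⊕ (T3 ⊕ T4)))))]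
    (O : ValuationSubring E) (Δ : E)
    (r : (T0 ⊕ ((I × Fin 2) ⊕ (T1 ⊕ (T2 ⊕ (T3 ⊕ T4))))) ≃ R)
    (Γ : (R → E) →ₗ[E] (R → E))
    (v0 w0 : T0 → R → E) (a0 : T0 → E) (rk : T0 → ℕ) (hrk : ∀ t, rk t ≤ 2)
    (h0 : ∀ t, v0 t - a0 t • Γ (w0 t) ∈ Submodule.span E (v0 '' {t' | rk t' < rk t}))
    (vb : I × Fin 2 → R → E) (wb : I × Option (Fin 2) → R → E) (y : I → Fin 2 → E)
    (hb : ∀ i s, vb (i, s) - Γ (wb (i, some s) - y i s • wb (i, none)) ∈
      Submodule.span E (Set.range v0))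
    (c : E) (hc : c ≠ 0) (hcO : c⁻¹ ∈ O) (hy : ∀ i s, c⁻¹ * y i s ∈ O)
    (v1 w1 : T1 → R → E) (a1 : T1 → E)
    (h1 : ∀ t, v1 t - a1 t • Γ (w1 t) ∈ Submodule.span E (Set.range v0))
    (v2 : T2 → R → E) (w2 : U2 → R → E) (A2 : U2 → T2 → E) (μ2 : E) (hA2 : PB O A2 μ2)
    (h2 : ∀ t, v2 t - Γ (∑ u, A2 u t • w2 u) ∈
      Submodule.span E (Set.range v0 ∪ Set.range vb ∪ Set.range v1))
    (v3 w3 : T3 → R → E) (a3 : T3 → E)
    (h3 : ∀ t, v3 t - a3 t • Γ (w3 t) ∈
      Submodule.span E (Set.range v0 ∪ Set.range vb ∪ Set.range v1 ∪ Set.range v2))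
    (v4 w4 : T4 → R → E) (a4 : T4 → E) (ha4 : ∀ t, a4 t ∈ O) (h4 : ∀ t, v4 t = a4 t • Γ (w4 t))
    (hw0 : ∀ t l, Δ * w0 t l ∈ O) (hwb : ∀ t l, Δ * wb t l ∈ O) (hw1 : ∀ t l, Δ * w1 t l ∈ O)
    (hw2 : ∀ t l, Δ * w2 t l ∈ O) (hw3 : ∀ t l, Δ * w3 t l ∈ O) (hw4 : ∀ t l, Δ * w4 t l ∈ O) :
    ∃ N ∈ O, Δ ^ Fintype.card R *
        dt r (Sum.elim v0 (Sum.elim vb (Sum.elim v1 (Sum.elim v2 (Sum.elim v3 v4))))) =
      LinearMap.det Γ * ((∏ t, a0 t) * (c ^ Fintype.card I * ((∏ t, a1 t) *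
        (μ2 * ∏ t, a3 t)))) * N := by
  classical
  have hcard : Fintype.card (T0 ⊕ ((I × Fin 2) ⊕ (T1 ⊕ (T2 ⊕ (T3 ⊕ T4))))) = Fintype.card R :=
    Fintype.card_congr r
  rw [← hcard]
  obtain ⟨Ab, hAb⟩ : ∃ Ab : I → Option (Fin 2) → Fin 2 → E,
      Ab = fun i u t => u.elim (-y i t) fun s => if s = t then 1 else 0 := ⟨_, rfl⟩
  have hPB : PB O (blk (fun u t : T0 => if u = t then a0 t else 0) (blk (blks Ab)
      (blk (fun u t : T1 => if u = t then a1 t else 0) (blk A2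
        (blk (fun u t : T3 => if u = t then a3 t else 0)
          (fun u t : T4 => if u = t then a4 t else 0))))))
      ((∏ t, a0 t) * ((∏ _i : I, c) * ((∏ t, a1 t) * (μ2 * ((∏ t, a3 t) * ∏ t, a4 t))))) := by
    refine (PB.diag O a0).blk (PB.blk (PB.blks fun i => ?_) ((PB.diag O a1).blk
      (hA2.blk ((PB.diag O a3).blk (PB.diag O a4)))))
    rw [hAb]
    exact PB.pair O c hc hcO (y i) (hy i)
  obtain ⟨N, hN, e⟩ := det_expand' O Δ _ r Γ
    (Sum.elim w0 (Sum.elim wb (Sum.elim w1 (Sum.elim w2 (Sum.elim w3 w4)))))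
    (by
      rintro (u | u | u | u | u | u) l
      · exact hw0 u l
      · exact hwb u l
      · exact hw1 u l
      · exact hw2 u l
      · exact hw3 u l
      · exact hw4 u l)
    _ hPB (Sum.elim v0 (Sum.elim vb (Sum.elim v1 (Sum.elim v2 (Sum.elim v3 v4)))))
    (Sum.elim rk (Sum.elim (fun _ => 3) (Sum.elim (fun _ => 3) (Sum.elim (fun _ => 4)
      (Sum.elim (fun _ => 5) fun _ => 6)))))
    (by
      -- spans of the lower columns
      obtain ⟨vv, hvv⟩ : ∃ vv, vv = Sum.elim v0 (Sum.elim vb (Sum.elim v1 (Sum.elim v2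
        (Sum.elim v3 v4)))) := ⟨_, rfl⟩
      obtain ⟨rr, hrr⟩ : ∃ rr : (T0 ⊕ ((I × Fin 2) ⊕ (T1 ⊕ (T2 ⊕ (T3 ⊕ T4))))) → ℕ,
        rr = Sum.elim rk (Sum.elim (fun _ => 3) (Sum.elim (fun _ => 3) (Sum.elim (fun _ => 4)
          (Sum.elim (fun _ => 5) fun _ => 6)))) := ⟨_, rfl⟩
      rw [← hvv, ← hrr]
      have m0 : ∀ (k : ℕ), 2 < k → ∀ t : T0, v0 t ∈ vv '' {t' | rr t' < k} := by
        intro k hk t
        refine ⟨Sum.inl t, ?_, by rw [hvv]; rfl⟩
        rw [Set.mem_setOf_eq, hrr]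
        exact (hrk t).trans_lt hk
      have mb : ∀ (k : ℕ), 3 < k → ∀ t, vb t ∈ vv '' {t' | rr t' < k} := by
        intro k hk t
        refine ⟨Sum.inr (Sum.inl t), ?_, by rw [hvv]; rfl⟩
        rw [Set.mem_setOf_eq, hrr]
        exact hk
      have m1 : ∀ (k : ℕ), 3 < k → ∀ t, v1 t ∈ vv '' {t' | rr t' < k} := by
        intro k hk t
        refine ⟨Sum.inr (Sum.inr (Sum.inl t)), ?_, by rw [hvv]; rfl⟩
        rw [Set.mem_setOf_eq, hrr]
        exact hk
      have m2 : ∀ (k : ℕ), 4 < k → ∀ t, v2 t ∈ vv '' {t' | rr t' < k} := by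
        intro k hk t
        refine ⟨Sum.inr (Sum.inr (Sum.inr (Sum.inl t))), ?_, by rw [hvv]; rfl⟩
        rw [Set.mem_setOf_eq, hrr]
        exact hk
      rintro (t | ⟨i, s⟩ | t | t | t | t)
      · rw [sum_blk_inl, sum_diag, map_smul, hvv]
        refine Submodule.span_mono ?_ (h0 t)
        rintro _ ⟨t', ht', rfl⟩
        refine ⟨Sum.inl t', ?_, rfl⟩
        rw [Set.mem_setOf_eq, hrr]
        exact ht'
      · rw [sum_blk_inr, sum_blk_inl, sum_blks, hAb]
        have e1 : (∑ u : Option (Fin 2), ((u.elim (-y i s) fun s' => if s' = s then (1 : E) else 0) •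
            wb (i, u))) = wb (i, some s) - y i s • wb (i, none) := by
          rw [Fintype.sum_option]
          simp only [Option.elim]
          rw [Finset.sum_eq_single s]
          · rw [if_pos rfl, one_smul, neg_smul]
            abel
          · intro u _ h
            rw [if_neg h, zero_smul]
          · intro h
            exact absurd (Finset.mem_univ s) h
        simp only at e1 ⊢
        rw [e1]
        have e2 := hb i s
        rw [hvv]
        refine Submodule.span_mono ?_ e2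
        rintro _ ⟨t', rfl⟩
        rw [← hvv]
        refine m0 _ ?_ t'
        rw [hrr]
        exact Nat.lt_succ_self 2
      · rw [sum_blk_inr, sum_blk_inr, sum_blk_inl, sum_diag, map_smul, hvv]
        refine Submodule.span_mono ?_ (h1 t)
        rintro _ ⟨t', rfl⟩
        rw [← hvv]
        refine m0 _ ?_ t'
        rw [hrr]
        exact Nat.lt_succ_self 2
      · rw [sum_blk_inr, sum_blk_inr, sum_blk_inr, sum_blk_inl, hvv]
        refine Submodule.span_mono ?_ (h2 t)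
        rw [← hvv]
        rintro _ ((⟨t', rfl⟩ | ⟨t', rfl⟩) | ⟨t', rfl⟩)
        · refine m0 _ ?_ t'
          rw [hrr]
          exact Nat.lt_of_succ_lt (Nat.lt_succ_self 3)
        · refine mb _ ?_ t'
          rw [hrr]
          exact Nat.lt_succ_self 3
        · refine m1 _ ?_ t'
          rw [hrr]
          exact Nat.lt_succ_self 3
      · rw [sum_blk_inr, sum_blk_inr, sum_blk_inr, sum_blk_inr, sum_blk_inl, sum_diag, map_smul,
          hvv]
        refine Submodule.span_mono ?_ (h3 t)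
        rw [← hvv]
        rintro _ (((⟨t', rfl⟩ | ⟨t', rfl⟩) | ⟨t', rfl⟩) | ⟨t', rfl⟩)
        · refine m0 _ ?_ t'
          rw [hrr]
          show 2 < 5
          norm_num
        · refine mb _ ?_ t'
          rw [hrr]
          show 3 < 5
          norm_num
        · refine m1 _ ?_ t'
          rw [hrr]
          show 3 < 5
          norm_num
        · refine m2 _ ?_ t'
          rw [hrr]
          show 4 < 5
          norm_num
      · rw [sum_blk_inr, sum_blk_inr, sum_blk_inr, sum_blk_inr, sum_blk_inr, sum_diag, map_smul,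
          hvv]
        have e1 : Sum.elim v0 (Sum.elim vb (Sum.elim v1 (Sum.elim v2 (Sum.elim v3 v4))))
            (Sum.inr (Sum.inr (Sum.inr (Sum.inr (Sum.inr t))))) = a4 t • Γ (w4 t) := h4 t
        rw [e1, sub_self]
        exact Submodule.zero_mem _)
  refine ⟨(∏ t, a4 t) * N, mul_mem (prod_mem fun t _ => ha4 t) hN, ?_⟩
  rw [e, Finset.prod_const, Finset.card_univ]
  ring

end Pool.Agent.Helper49.LN
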