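import Pool.Agent.Helper49.LN.DetLine

/-!
# LN: the determinants of a point at one valuation ring
-/

set_option autoImplicit false

namespace Pool.Agent.Helper49.LN

open scoped BigOperators
open MvPolynomial
open Pool.Agent.Helper8.LG (Bdd)

variable {E : Type*} [Field E] {σ : Type*} {κ : Type*} {n : ℕ}

/-- the unit vectors of a point -/
def uv [DecidableEq σ] [DecidableEq κ] (r : σ ⊕ κ) : σ ⊕ κ → E := Pi.single r 1

/-- weights of the unit vectors -/
def au (c : E) : σ ⊕ κ → E := Sum.elim (fun _ => c⁻¹) fun _ => 1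

theorem uv_trans [DecidableEq σ] [DecidableEq κ] (c : E) (hc : c ≠ 0) (r : σ ⊕ κ) :
    (uv r : σ ⊕ κ → E) = au c r • gp c (uv r) := by
  rcases r with l | k
  · funext s
    rcases s with l' | k'
    · show (Pi.single (Sum.inl l) 1 : σ ⊕ κ → E) (Sum.inl l') =
        c⁻¹ * (c * (Pi.single (Sum.inl l) 1 : σ ⊕ κ → E) (Sum.inl l'))
      rw [inv_mul_cancel_left₀ hc]
    · show (Pi.single (Sum.inl l) 1 : σ ⊕ κ → E) (Sum.inr k') =
        c⁻¹ * (1 * (Pi.single (Sum.inl l) 1 : σ ⊕ κ → E) (Sum.inr k'))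
      rw [Pi.single_apply, if_neg (by simp)]
      ring
  · funext s
    rcases s with l' | k'
    · show (Pi.single (Sum.inr k) 1 : σ ⊕ κ → E) (Sum.inl l') =
        1 * (c * (Pi.single (Sum.inr k) 1 : σ ⊕ κ → E) (Sum.inl l'))
      rw [Pi.single_apply, if_neg (by simp)]
      ring
    · show (Pi.single (Sum.inr k) 1 : σ ⊕ κ → E) (Sum.inr k') =
        1 * (1 * (Pi.single (Sum.inr k) 1 : σ ⊕ κ → E) (Sum.inr k'))
      ring

section

variable {O : ValuationSubring E} {Δ : E} {D : Sym σ (n + 1) → Derivation ℤ E E}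
  {x y : σ → E} {m j : σ} {g g' : Sym σ (n + 1) → κ → E} {ε : κ → E}

theorem uv_bdd [DecidableEq σ] [DecidableEq κ] (hΔ : Δ ∈ O) (r l : σ ⊕ κ) :
    Δ * (uv r : σ ⊕ κ → E) l ∈ O := mul_mem hΔ (single_bdd O _ (one_mem O) l)

theorem au_mem (hx : ∀ l, xt x m l ∈ O) {i₀ : σ} (hi : x i₀ = 1) (r : σ ⊕ κ) :
    au (x m) r ∈ O := by
  rcases r with l | k
  · have h1 := hx i₀
    unfold xt at h1
    rw [hi, one_div] at h1
    exact h1
  · exact one_mem O

variable [Fintype σ] [DecidableEq σ]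

/-- the bounded columns of the blocks -/
noncomputable def wb (V : Sym σ (n + 1) → σ ⊕ κ → E) (i₀ : σ)
    (β : (Sym σ n × Sym σ n) × (σ × σ)) (s : Option (Fin 2)) : σ ⊕ κ → E :=
  cP V ((mo E (β.1.1 : Multiset σ) + mo E (β.1.2 : Multiset σ)) *
    s.elim (X i₀) fun s => X (if s = 0 then β.2.1 else β.2.2))

theorem bl_trans (hG : LocG O Δ D x m g g' ε) (hm : x m ≠ 0) {i₀ : σ} (hx : x i₀ = 1)
    (β : (Sym σ n × Sym σ n) × (σ × σ)) (s : Fin 2) :
    bl (pv D x g) x i₀ β s - gp (x m) (wb (pv D (xt x m) g') i₀ β (some s) -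
      x (if s = 0 then β.2.1 else β.2.2) • wb (pv D (xt x m) g') i₀ β none) ∈
      Submodule.span E (Set.range fun _ : Fin 1 => pe x ε) := by
  have h1 : wb (pv D (xt x m) g') i₀ β (some s) -
      x (if s = 0 then β.2.1 else β.2.2) • wb (pv D (xt x m) g') i₀ β none =
      cP (pv D (xt x m) g') ((mo E (β.1.1 : Multiset σ) + mo E (β.1.2 : Multiset σ)) *
        hf x i₀ (if s = 0 then β.2.1 else β.2.2)) := by
    unfold wb hf
    rw [hx, one_smul, mul_sub, map_sub, mul_smul_comm, map_smul]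
    rfl
  rw [h1]
  exact cPp_trans hG hm _

theorem wb_bdd (hG : LocG O Δ D x m g g' ε) (hx : ∀ l, xt x m l ∈ O) (i₀ : σ)
    (β : (Sym σ n × Sym σ n) × (σ × σ)) (s : Option (Fin 2)) (r : σ ⊕ κ) :
    Δ * wb (pv D (xt x m) g') i₀ β s r ∈ O := by
  refine cPp_bdd hG hx _ (((IntP.mo O _).add (IntP.mo O _)).mul ?_) r
  rcases s with _ | s
  · exact IntP.X O _
  · exact IntP.X O _

theorem sg_trans (hG : LocG O Δ D x m g g' ε) (hm : x m ≠ 0) (i₀ : σ) (p : Sym σ n × σ) :
    sg (pv D x g) x i₀ p - x m • gp (x m) (sg (pv D (xt x m) g') (xt x m) i₀ p) ∈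
      Submodule.span E (Set.range fun _ : Fin 1 => pe x ε) := by
  have h1 : x m • gp (x m) (sg (pv D (xt x m) g') (xt x m) i₀ p) =
      gp (x m) (cP (pv D (xt x m) g') (mo E (p.1 : Multiset σ) * hf x i₀ p.2)) := by
    unfold sg
    rw [hf_xt hm, mul_smul_comm, map_smul, map_smul]
  rw [h1]
  exact cPp_trans hG hm _

theorem sg_bdd (hG : LocG O Δ D x m g g' ε) (hx : ∀ l, xt x m l ∈ O) (i₀ : σ)
    (p : Sym σ n × σ) (r : σ ⊕ κ) :
    Δ * sg (pv D (xt x m) g') (xt x m) i₀ p r ∈ O :=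
  cPp_bdd hG hx _ ((IntP.mo O _).mul (hf_int _ hx _ _)) r

theorem la_trans (hG : LocG O Δ D x m g g' ε) (hm : x m ≠ 0) {i₀ : σ} (hx : x i₀ = 1)
    (S S' : Submodule E (σ ⊕ κ → E))
    (hS : Submodule.span E (Set.range fun _ : Fin 1 => pe x ε) ≤ S)
    (hJ : ∀ p ∈ Ipt x, cP (pv D x g) p ∈ S') (hS' : S' ≤ S) :
    la (E := E) (pv D x g) i₀ - (x m ^ (n + 1))⁻¹ •
      gp (x m) (la (E := E) (pv D (xt x m) g') m) ∈ S := by
  have h1 : la (E := E) (pv D x g) i₀ - (x m ^ (n + 1))⁻¹ •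
      gp (x m) (la (E := E) (pv D (xt x m) g') m) =
      cP (pv D x g) ((X i₀ : MvPolynomial σ E) ^ (n + 1) -
        (x m ^ (n + 1))⁻¹ • X m ^ (n + 1)) +
      (cP (pv D x g) ((x m ^ (n + 1))⁻¹ • (X m : MvPolynomial σ E) ^ (n + 1)) -
        gp (x m) (cP (pv D (xt x m) g')
          ((x m ^ (n + 1))⁻¹ • (X m : MvPolynomial σ E) ^ (n + 1)))) := by
    unfold la
    rw [map_sub]
    simp only [map_smul]
    abel
  rw [h1]
  exact add_mem (hS' (hJ _ (pow_mod x i₀ m hx hm (n + 1)))) (hS (cPp_trans hG hm _))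

variable [Fintype κ] [DecidableEq κ]

/-- **The determinant of a point at one valuation ring**, simple version -/
theorem g1_det (hG : LocG O Δ D x m g g' ε) (hm : x m ≠ 0) (hxm : ∀ l, xt x m l ∈ O) {i₀ : σ}
    (hx : x i₀ = 1) {i t p u : ℕ} (β : Fin i → (Sym σ n × Sym σ n) × (σ × σ))
    (f : Fin t → Sym σ n × σ) (e : Fin p → σ) (f' : Fin u → σ ⊕ κ)
    (rr : TT (Fin 1) (Fin i) (Fin t) (Fin 0) (Fin 1 ⊕ Fin p) (Fin u) ≃ σ ⊕ κ)
    (hJ : ∀ p ∈ Ipt x, cP (pv D x g) p ∈ Submodule.span E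
        ((Set.range fun _ : Fin 1 => pe x ε) ∪
        (Set.range fun p : Fin i × Fin 2 => bl (pv D x g) x i₀ (β p.1) p.2) ∪
        Set.range fun s => sg (pv D x g) x i₀ (f s))) :
    ∃ N ∈ O, Δ ^ Fintype.card (σ ⊕ κ) * dt rr (vv (fun _ => pe x ε)
      (fun p => bl (pv D x g) x i₀ (β p.1) p.2) (fun s => sg (pv D x g) x i₀ (f s)) Fin.elim0
      (Sum.elim (fun _ => la (E := E) (pv D x g) i₀) fun s => uv (Sum.inl (e s)))
      fun s => uv (f' s)) * x m ^ (n + 1 + p) =
      x m ^ (Fintype.card σ + i + t) * N := by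
  classical
  have hxi : (x m)⁻¹ ∈ O := by
    have h1 := hxm i₀
    unfold xt at h1
    rw [hx, one_div] at h1
    exact h1
  obtain ⟨N, hN, eq⟩ := det_left (T2 := Fin 0) (U2 := Fin 0) O Δ rr (gp (x m))
    (fun _ => pe x ε) (fun _ => pe (xt x m) ε) (fun _ => 1) (fun _ => 0) (fun _ => by omega)
    (fun _ => by
      rw [one_smul, ← pe_trans x m hm ε, sub_self]
      exact Submodule.zero_mem _)
    (fun p => bl (pv D x g) x i₀ (β p.1) p.2)
    (fun p => wb (pv D (xt x m) g') i₀ (β p.1) p.2)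
    (fun k s => x (if s = 0 then (β k).2.1 else (β k).2.2))
    (fun k s => bl_trans hG hm hx (β k) s) (x m) hm hxi
    (fun k s => by
      have h1 := hxm (if s = 0 then (β k).2.1 else (β k).2.2)
      unfold xt at h1
      rwa [div_eq_inv_mul] at h1)
    (fun s => sg (pv D x g) x i₀ (f s))
    (fun s => sg (pv D (xt x m) g') (xt x m) i₀ (f s)) (fun _ => x m)
    (fun s => sg_trans hG hm i₀ (f s))
    Fin.elim0 Fin.elim0 (fun _ s => s.elim0) 1
    (by
      intro g _
      refine ⟨1, one_mem O, ?_⟩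
      simp) (fun s => s.elim0)
    (Sum.elim (fun _ => la (E := E) (pv D x g) i₀) fun s => uv (Sum.inl (e s)))
    (Sum.elim (fun _ => la (E := E) (pv D (xt x m) g') m) fun s => uv (Sum.inl (e s)))
    (Sum.elim (fun _ => (x m ^ (n + 1))⁻¹) fun _ => (x m)⁻¹)
    (by
      rintro (s | s)
      · exact la_trans hG hm hx _ _
          (Submodule.span_mono (fun v hv => Or.inl (Or.inl (Or.inl hv)))) hJ
          (Submodule.span_mono (by
            rintro v ((hv | hv) | hv)
            · exact Or.inl (Or.inl (Or.inl hv))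
            · exact Or.inl (Or.inl (Or.inr hv))
            · exact Or.inl (Or.inr hv)))
      · show uv (Sum.inl (e s)) - (x m)⁻¹ • gp (x m) (uv (Sum.inl (e s))) ∈ _
        have h1 := uv_trans (κ := κ) (x m) hm (Sum.inl (e s))
        have h2 : au (κ := κ) (x m) (Sum.inl (e s)) = (x m)⁻¹ := rfl
        rw [h2] at h1
        rw [← h1, sub_self]
        exact Submodule.zero_mem _)
    (fun s => uv (f' s)) (fun s => uv (f' s)) (fun s => au (x m) (f' s))
    (fun s => au_mem hxm hx (f' s)) (fun s => uv_trans (x m) hm (f' s))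
    (fun _ l => pe_bdd hG hxm l) (fun p l => wb_bdd hG hxm i₀ (β p.1) p.2 l)
    (fun s l => sg_bdd hG hxm i₀ (f s) l) (fun s => s.elim0)
    (by
      rintro (s | s) l
      · exact cPp_bdd hG hxm _ ((IntP.X O m).pow _) l
      · exact uv_bdd hG.bdd.1 _ l)
    (fun s l => uv_bdd hG.bdd.1 (f' s) l)
  refine ⟨N, hN, ?_⟩
  rw [eq, det_gp]
  simp only [Finset.prod_const, Finset.card_univ, Fintype.card_fin, one_pow, one_mul, pow_one,
    Fintype.prod_sum_type, Sum.elim_inl, Sum.elim_inr]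
  have h3 : x m ^ (n + 1) ≠ 0 := pow_ne_zero _ hm
  have h4 : x m ^ p ≠ 0 := pow_ne_zero _ hm
  rw [inv_pow, pow_add (x m) (n + 1) p, pow_add, pow_add]
  generalize hA1 : x m ^ (n + 1) = A1 at *
  generalize hA2 : x m ^ p = A2 at *
  field_simp
  ring

/-- **The determinant of a point at one valuation ring**, with the fan -/
theorem g1_fan (hG : LocG O Δ D x m g g' ε) (h : Loc O x y m j) {i₀ a : σ} (hx : x i₀ = 1)
    (ha : pl x y i₀ a ≠ 0) {i r p u : ℕ} (β : Fin i → (Sym σ n × Sym σ n) × (σ × σ))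
    (K : Fin r → ℕ) (hK : ∀ s, K s ≤ n) (e : Fin p → σ) (f' : Fin u → σ ⊕ κ)
    (rr : TT (Fin 1) (Fin i) (Fin 0) (Fin r) (Fin 1 ⊕ Fin p) (Fin u) ≃ σ ⊕ κ)
    (hI : ∀ p ∈ Il (pl x y), cP (pv D x g) p ∈ Submodule.span E
        ((Set.range fun _ : Fin 1 => pe x ε) ∪
        Set.range fun p : Fin i × Fin 2 => bl (pv D x g) x i₀ (β p.1) p.2))
    (hJ : ∀ p ∈ Ipt x, cP (pv D x g) p ∈ Submodule.span E
        ((Set.range fun _ : Fin 1 => pe x ε) ∪
        (Set.range fun p : Fin i × Fin 2 => bl (pv D x g) x i₀ (β p.1) p.2) ∪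
        Set.range fun s => fn (pv D x g) x i₀ a (K s))) :
    ∃ N ∈ O, Δ ^ Fintype.card (σ ⊕ κ) * dt rr (vv (fun _ => pe x ε)
      (fun p => bl (pv D x g) x i₀ (β p.1) p.2) Fin.elim0 (fun s => fn (pv D x g) x i₀ a (K s))
      (Sum.elim (fun _ => la (E := E) (pv D x g) i₀) fun s => uv (Sum.inl (e s)))
      fun s => uv (f' s)) * x m ^ (n + 1 + p) =
      x m ^ (Fintype.card σ + i + r) *
        pl (xt x m) (yt x y m j) i₀ a ^ (r * (r + 1) / 2) * N := by
  classical
  have hm := h.xm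
  have hxm := h.hx
  have hxi : (x m)⁻¹ ∈ O := by
    have h1 := hxm i₀
    unfold xt at h1
    rw [hx, one_div] at h1
    exact h1
  obtain ⟨A, G, hA, hGi, hAG⟩ := fanJ h i₀ a ha n K hK
  rw [Fintype.card_fin] at hA
  obtain ⟨N, hN, eq⟩ := det_left O Δ rr (gp (x m))
    (fun _ => pe x ε) (fun _ => pe (xt x m) ε) (fun _ => 1) (fun _ => 0) (fun _ => by omega)
    (fun _ => by
      rw [one_smul, ← pe_trans x m hm ε, sub_self]
      exact Submodule.zero_mem _)
    (fun p => bl (pv D x g) x i₀ (β p.1) p.2)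
    (fun p => wb (pv D (xt x m) g') i₀ (β p.1) p.2)
    (fun k s => x (if s = 0 then (β k).2.1 else (β k).2.2))
    (fun k s => bl_trans hG hm hx (β k) s) (x m) hm hxi
    (fun k s => by
      have h1 := hxm (if s = 0 then (β k).2.1 else (β k).2.2)
      unfold xt at h1
      rwa [div_eq_inv_mul] at h1)
    Fin.elim0 Fin.elim0 (fun _ => 1) (fun s => s.elim0)
    (fun s => fn (pv D x g) x i₀ a (K s))
    (fun i => cP (pv D (xt x m) g') (G i)) A _ hA
    (by
      intro s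
      have h1 : cP (pv D x g) (X i₀ ^ (n - K s) * X a ^ K s * hf x i₀ a : MvPolynomial σ E) -
          gp (x m) (∑ u, A u s • cP (pv D (xt x m) g') (G u)) =
          cP (pv D x g) ((X i₀ ^ (n - K s) * X a ^ K s * hf x i₀ a : MvPolynomial σ E) -
            ∑ i, A i s • G i) + (cP (pv D x g) (∑ i, A i s • G i) -
            gp (x m) (cP (pv D (xt x m) g') (∑ i, A i s • G i))) := by
        rw [map_sub]
        simp only [map_sum, map_smul]
        abel
      show cP (pv D x g) (X i₀ ^ (n - K s) * X a ^ K s * hf x i₀ a : MvPolynomial σ E) - _ ∈ _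
      rw [h1]
      refine add_mem ?_ (Submodule.span_mono (fun v hv => Or.inl (Or.inl hv))
        (cPp_trans hG hm _))
      exact Submodule.span_mono (fun v hv => Or.inl hv) (hI _ (hAG s)))
    (Sum.elim (fun _ => la (E := E) (pv D x g) i₀) fun s => uv (Sum.inl (e s)))
    (Sum.elim (fun _ => la (E := E) (pv D (xt x m) g') m) fun s => uv (Sum.inl (e s)))
    (Sum.elim (fun _ => (x m ^ (n + 1))⁻¹) fun _ => (x m)⁻¹)
    (by
      rintro (s | s)
      · exact la_trans hG hm hx _ _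
          (Submodule.span_mono (fun v hv => Or.inl (Or.inl (Or.inl hv)))) hJ
          (Submodule.span_mono (by
            rintro v ((hv | hv) | hv)
            · exact Or.inl (Or.inl (Or.inl hv))
            · exact Or.inl (Or.inl (Or.inr hv))
            · exact Or.inr hv))
      · show uv (Sum.inl (e s)) - (x m)⁻¹ • gp (x m) (uv (Sum.inl (e s))) ∈ _
        have h1 := uv_trans (κ := κ) (x m) hm (Sum.inl (e s))
        have h2 : au (κ := κ) (x m) (Sum.inl (e s)) = (x m)⁻¹ := rfl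
        rw [h2] at h1
        rw [← h1, sub_self]
        exact Submodule.zero_mem _)
    (fun s => uv (f' s)) (fun s => uv (f' s)) (fun s => au (x m) (f' s))
    (fun s => au_mem hxm hx (f' s)) (fun s => uv_trans (x m) hm (f' s))
    (fun _ l => pe_bdd hG hxm l) (fun p l => wb_bdd hG hxm i₀ (β p.1) p.2 l)
    (fun s => s.elim0) (fun i l => cPp_bdd hG hxm _ (hGi i) l)
    (by
      rintro (s | s) l
      · exact cPp_bdd hG hxm _ ((IntP.X O m).pow _) l
      · exact uv_bdd hG.bdd.1 _ l)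
    (fun s l => uv_bdd hG.bdd.1 (f' s) l)
  refine ⟨N, hN, ?_⟩
  rw [eq, det_gp]
  simp only [Finset.prod_const, Finset.card_univ, Fintype.card_fin, one_pow, one_mul, pow_one,
    Finset.univ_eq_empty, Finset.prod_empty, Fintype.prod_sum_type, Sum.elim_inl, Sum.elim_inr]
  have h3 : x m ^ (n + 1) ≠ 0 := pow_ne_zero _ hm
  have h4 : x m ^ p ≠ 0 := pow_ne_zero _ hm
  rw [inv_pow, pow_add (x m) (n + 1) p, pow_add, pow_add]
  generalize hA1 : x m ^ (n + 1) = A1 at *
  generalize hA2 : x m ^ p = A2 at *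
  field_simp
  ring

end

end Pool.Agent.Helper49.LN
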