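import Mathlib

/-!
# LN: dimensions
-/

set_option autoImplicit false

namespace Pool.Agent.Helper49.LN

section

variable {E V W : Type*} [Field E] [AddCommGroup V] [Module E V] [FiniteDimensional E V]
  [AddCommGroup W] [Module E W] [FiniteDimensional E W]

omit [FiniteDimensional E W] in
/-- a linear map loses more dimension on the larger subspace -/
theorem mv1 (f : V →ₗ[E] W) (A B : Submodule E V) (hAB : A ≤ B) :
    Module.finrank E (B.map f) + Module.finrank E A ≤
      Module.finrank E B + Module.finrank E (A.map f) := by
  have h1 := LinearMap.finrank_range_add_finrank_ker (f.domRestrict A)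
  have h2 := LinearMap.finrank_range_add_finrank_ker (f.domRestrict B)
  have h3 : Module.finrank E (LinearMap.ker (f.domRestrict A)) ≤
      Module.finrank E (LinearMap.ker (f.domRestrict B)) := by
    let g : LinearMap.ker (f.domRestrict A) →ₗ[E] LinearMap.ker (f.domRestrict B) :=
      ((Submodule.inclusion hAB).comp (LinearMap.ker (f.domRestrict A)).subtype).codRestrict
        (LinearMap.ker (f.domRestrict B)) fun x => by
          have h4 := x.2
          rw [LinearMap.mem_ker] at h4 ⊢
          exact h4
    refine LinearMap.finrank_le_finrank_of_injective (f := g) ?_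
    intro x y h
    have h4 : ((g x : B) : V) = ((g y : B) : V) := by rw [h]
    exact Subtype.ext (Subtype.ext h4)
  rw [LinearMap.range_domRestrict] at h1 h2
  omega

omit [FiniteDimensional E W] in
/-- a linear map with a small kernel loses little dimension -/
theorem mv3 (f : V →ₗ[E] W) (s : ℕ) (hs : Module.finrank E (LinearMap.ker f) ≤ s)
    (C : Submodule E V) : Module.finrank E C ≤ Module.finrank E (C.map f) + s := by
  have h1 := mv1 f C ⊤ le_top
  have h2 := LinearMap.finrank_range_add_finrank_ker f
  rw [Submodule.map_top, finrank_top] at h1
  omega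

/-- adding a vector -/
theorem finrank_sup_span_singleton_le (A : Submodule E V) (Y : V) :
    Module.finrank E (A ⊔ Submodule.span E {Y} : Submodule E V) ≤ Module.finrank E A + 1 := by
  have h1 := Submodule.finrank_sup_add_finrank_inf_eq A (Submodule.span E {Y})
  have h2 : Module.finrank E (Submodule.span E {Y}) ≤ 1 := by
    by_cases hY : Y = 0
    · rw [hY, Submodule.span_zero_singleton, finrank_bot]
      exact Nat.zero_le 1
    · rw [finrank_span_singleton hY]
  omega

theorem mv2 (Y : V) (A C : Submodule E V) :
    Module.finrank E C + Module.finrank E (A ⊔ Submodule.span E {Y} : Submodule E V) ≤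
      Module.finrank E (C ⊔ Submodule.span E {Y} : Submodule E V) + Module.finrank E A + 1 := by
  have h1 := finrank_sup_span_singleton_le A Y
  have h2 : Module.finrank E C ≤
      Module.finrank E (C ⊔ Submodule.span E {Y} : Submodule E V) :=
    Submodule.finrank_mono le_sup_left
  omega

/-- a vector outside -/
theorem mv4 (A C : Submodule E V) (hAC : A ≤ C) (v : V) (hv : v ∈ C) (hv' : v ∉ A) :
    Module.finrank E A + 1 ≤ Module.finrank E C := by
  refine Submodule.finrank_lt_finrank_of_lt (lt_of_le_of_ne hAC ?_)
  intro h
  apply hv'
  rw [h]
  exact hv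

end

/-- dimension of the span of an independent family -/
theorem mv5 {E V A B : Type*} [Field E] [AddCommGroup V] [Module E V] [Fintype A] [Fintype B]
    (v : A → V) (w : B → V) (h : LinearIndependent E (Sum.elim v w)) :
    Module.finrank E (Submodule.span E (Set.range (Sum.elim v w))) =
        Fintype.card A + Fintype.card B ∧
      Module.finrank E (Submodule.span E (Set.range v)) = Fintype.card A := by
  refine ⟨?_, ?_⟩
  · rw [finrank_span_eq_card h, Fintype.card_sum]
  · have h1 : LinearIndependent E v := h.comp Sum.inl Sum.inl_injective
    rw [finrank_span_eq_card h1]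

end Pool.Agent.Helper49.LN
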