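import Mathlib

/-!
# LN: selection of bases
-/

set_option autoImplicit false

namespace Pool.Agent.Helper49.LN

open scoped BigOperators

/-- a maximal family of blocks -/
theorem max_blk {E V A B K : Type*} [Field E] [AddCommGroup V] [Module E V]
    [FiniteDimensional E V] [Fintype K] [Nonempty K] (v : A → V) (hv : LinearIndependent E v)
    (u : B → K → V) :
    ∃ (m : ℕ) (β : Fin m → B),
      LinearIndependent E (Sum.elim v fun p : Fin m × K => u (β p.1) p.2) ∧
      ∀ b : B, ∃ c : K → E, c ≠ 0 ∧ ∑ k, c k • u b k ∈
        Submodule.span E (Set.range (Sum.elim v fun p : Fin m × K => u (β p.1) p.2)) := by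
  classical
  -- the possible numbers of blocks
  have hb : ∀ m : ℕ, (∃ β : Fin m → B,
      LinearIndependent E (Sum.elim v fun p : Fin m × K => u (β p.1) p.2)) →
      m ≤ Module.finrank E V := by
    rintro m ⟨β, hβ⟩
    have h1 : LinearIndependent E fun p : Fin m × K => u (β p.1) p.2 := by
      have h2 := hβ.comp Sum.inr Sum.inr_injective
      exact h2
    have h2 := h1.fintype_card_le_finrank
    rw [Fintype.card_prod, Fintype.card_fin] at h2
    have h3 : 0 < Fintype.card K := Fintype.card_pos
    exact le_trans (Nat.le_mul_of_pos_right m h3) h2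
  have h0 : ∃ β : Fin 0 → B,
      LinearIndependent E (Sum.elim v fun p : Fin 0 × K => u (β p.1) p.2) := by
    refine ⟨Fin.elim0, ?_⟩
    have h1 : LinearIndependent E fun p : Fin 0 × K => u ((Fin.elim0 : Fin 0 → B) p.1) p.2 :=
      linearIndependent_empty_type
    refine hv.sum_type h1 ?_
    have h2 : Set.range (fun p : Fin 0 × K => u ((Fin.elim0 : Fin 0 → B) p.1) p.2) = ∅ :=
      Set.range_eq_empty _
    rw [h2, Submodule.span_empty]
    exact disjoint_bot_right
  set P : ℕ → Prop := fun m => ∃ β : Fin m → B,
      LinearIndependent E (Sum.elim v fun p : Fin m × K => u (β p.1) p.2) with hP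
  have hm := Nat.findGreatest_spec (P := P) (Nat.zero_le (Module.finrank E V)) h0
  have hmax : ¬ P (Nat.findGreatest P (Module.finrank E V) + 1) := by
    intro h
    have h1 := hb _ h
    have h2 := Nat.le_findGreatest (P := P) h1 h
    omega
  generalize Nat.findGreatest P (Module.finrank E V) = m at hm hmax
  obtain ⟨β, hβ⟩ := hm
  refine ⟨m, β, hβ, fun b => ?_⟩
  by_contra hcon
  push Not at hcon
  apply hmax
  have hc : ∀ c : K → E, ∑ k, c k • u b k ∈
      Submodule.span E (Set.range (Sum.elim v fun p : Fin m × K => u (β p.1) p.2)) → c = 0 := by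
    intro c h1
    by_contra h2
    exact hcon c h2 h1
  have h1 : LinearIndependent E (u b) := by
    rw [Fintype.linearIndependent_iff]
    intro c hc0 k
    have h2 := hc c (by rw [hc0]; exact Submodule.zero_mem _)
    rw [h2]
    rfl
  have h2 : Disjoint
      (Submodule.span E (Set.range (Sum.elim v fun p : Fin m × K => u (β p.1) p.2)))
      (Submodule.span E (Set.range (u b))) := by
    rw [Submodule.disjoint_def]
    intro x hx hx2
    obtain ⟨c, rfl⟩ := (Submodule.mem_span_range_iff_exists_fun E).1 hx2
    have h3 := hc c hx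
    rw [h3]
    simp
  have h3 := hβ.sum_type h1 h2
  refine ⟨Fin.snoc β b, ?_⟩
  let f : A ⊕ (Fin (m + 1) × K) → (A ⊕ (Fin m × K)) ⊕ K := fun x => match x with
    | Sum.inl a => Sum.inl (Sum.inl a)
    | Sum.inr p => Fin.lastCases (motive := fun _ => (A ⊕ (Fin m × K)) ⊕ K) (Sum.inr p.2)
        (fun s => Sum.inl (Sum.inr (s, p.2))) p.1
  have hf1 : ∀ k, f (Sum.inr (Fin.last m, k)) = Sum.inr k := fun k => by
    simp only [f, Fin.lastCases_last]
  have hf2 : ∀ s k, f (Sum.inr (Fin.castSucc s, k)) = Sum.inl (Sum.inr (s, k)) := fun s k => by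
    simp only [f, Fin.lastCases_castSucc]
  have hf : Function.Injective f := by
    rintro (a | ⟨s, k⟩) (a' | ⟨s', k'⟩) h
    · have h4 : (Sum.inl (Sum.inl a) : (A ⊕ (Fin m × K)) ⊕ K) = Sum.inl (Sum.inl a') := h
      rw [Sum.inl.inj (Sum.inl.inj h4)]
    · exfalso
      induction s' using Fin.lastCases with
      | last =>
        rw [hf1] at h
        have h4 : (Sum.inl (Sum.inl a) : (A ⊕ (Fin m × K)) ⊕ K) = Sum.inr k' := h
        exact Sum.inl_ne_inr h4
      | cast s' =>
        rw [hf2] at h
        have h4 : (Sum.inl (Sum.inl a) : (A ⊕ (Fin m × K)) ⊕ K) = Sum.inl (Sum.inr (s', k')) := h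
        exact Sum.inl_ne_inr (Sum.inl.inj h4)
    · exfalso
      induction s using Fin.lastCases with
      | last =>
        rw [hf1] at h
        have h4 : (Sum.inr k : (A ⊕ (Fin m × K)) ⊕ K) = Sum.inl (Sum.inl a') := h
        exact Sum.inr_ne_inl h4
      | cast s =>
        rw [hf2] at h
        have h4 : (Sum.inl (Sum.inr (s, k)) : (A ⊕ (Fin m × K)) ⊕ K) = Sum.inl (Sum.inl a') := h
        exact Sum.inr_ne_inl (Sum.inl.inj h4)
    · induction s using Fin.lastCases with
      | last =>
        induction s' using Fin.lastCases with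
        | last =>
          rw [hf1, hf1] at h
          rw [Sum.inr.inj h]
        | cast s' =>
          rw [hf1, hf2] at h
          exact absurd h Sum.inr_ne_inl
      | cast s =>
        induction s' using Fin.lastCases with
        | last =>
          rw [hf1, hf2] at h
          exact absurd h Sum.inl_ne_inr
        | cast s' =>
          rw [hf2, hf2] at h
          have h4 := Sum.inr.inj (Sum.inl.inj h)
          rw [Prod.mk.injEq] at h4
          rw [h4.1, h4.2]
  have h4 := h3.comp f hf
  have h5 : (Sum.elim v fun p : Fin (m + 1) × K =>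
      u ((Fin.snoc β b : Fin (m + 1) → B) p.1) p.2) =
      (Sum.elim (Sum.elim v fun p : Fin m × K => u (β p.1) p.2) (u b)) ∘ f := by
    funext x
    rcases x with a | ⟨s, k⟩
    · rfl
    · induction s using Fin.lastCases with
      | last =>
        rw [Function.comp_apply, hf1, Sum.elim_inr, Sum.elim_inr, Fin.snoc_last]
      | cast s =>
        rw [Function.comp_apply, hf2, Sum.elim_inr, Sum.elim_inl, Sum.elim_inr,
          Fin.snoc_castSucc]
  rw [h5]
  exact h4

/-- extend an independent family by members of another family to a basis of the common span -/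
theorem sel {E V A B : Type*} [Field E] [AddCommGroup V] [Module E V] [FiniteDimensional E V]
    (v : A → V) (hv : LinearIndependent E v) (w : B → V) :
    ∃ (m : ℕ) (β : Fin m → B), Function.Injective β ∧
      LinearIndependent E (Sum.elim v fun s => w (β s)) ∧
      ∀ b, w b ∈ Submodule.span E (Set.range (Sum.elim v fun s => w (β s))) := by
  obtain ⟨m, β, h1, h2⟩ := max_blk (K := Unit) v hv (fun b _ => w b)
  have h3 : LinearIndependent E (Sum.elim v fun s => w (β s)) := by
    have h4 := h1.comp (Sum.map id fun s : Fin m => (s, ()))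
      (Sum.map_injective.2 ⟨Function.injective_id, fun s t h => (Prod.mk.inj h).1⟩)
    have h5 : (Sum.elim v fun s => w (β s)) =
        (Sum.elim v fun p : Fin m × Unit => w (β p.1)) ∘ (Sum.map id fun s : Fin m => (s, ())) := by
      funext x
      rcases x with a | s
      · rfl
      · rfl
    rw [h5]
    exact h4
  have h6 : Set.range (Sum.elim v fun p : Fin m × Unit => w (β p.1)) =
      Set.range (Sum.elim v fun s => w (β s)) := by
    rw [Set.Sum.elim_range, Set.Sum.elim_range]
    congr 1
    ext x
    constructor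
    · rintro ⟨p, rfl⟩
      exact ⟨p.1, rfl⟩
    · rintro ⟨s, rfl⟩
      exact ⟨(s, ()), rfl⟩
  refine ⟨m, β, ?_, h3, fun b => ?_⟩
  · have h4 := (h3.comp Sum.inr Sum.inr_injective).injective
    intro s t hst
    apply h4
    simp only [Function.comp_apply, Sum.elim_inr, hst]
  · obtain ⟨c, hc0, hc⟩ := h2 b
    rw [h6] at hc
    have h7 : c () ≠ 0 := by
      intro h8
      apply hc0
      funext x
      exact h8
    rw [Fintype.sum_unique] at hc
    have h8 := (Submodule.smul_mem_iff _ h7).1 hc
    exact h8

/-- a maximal family of 2-blocks -/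
theorem max_blocks {E V A B : Type*} [Field E] [AddCommGroup V] [Module E V]
    [FiniteDimensional E V] (v : A → V) (hv : LinearIndependent E v) (u : B → Fin 2 → V) :
    ∃ (m : ℕ) (β : Fin m → B),
      LinearIndependent E (Sum.elim v fun p : Fin m × Fin 2 => u (β p.1) p.2) ∧
      ∀ b : B, ∃ s t : E, (s ≠ 0 ∨ t ≠ 0) ∧ s • u b 0 + t • u b 1 ∈
        Submodule.span E (Set.range (Sum.elim v fun p : Fin m × Fin 2 => u (β p.1) p.2)) := by
  obtain ⟨m, β, h1, h2⟩ := max_blk v hv u
  refine ⟨m, β, h1, fun b => ?_⟩
  obtain ⟨c, hc0, hc⟩ := h2 b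
  refine ⟨c 0, c 1, ?_, ?_⟩
  · by_contra h3
    push Not at h3
    apply hc0
    funext i
    fin_cases i
    · exact h3.1
    · exact h3.2
  · rwa [Fin.sum_univ_two] at hc

/-- an independent family which spans everything has the right number of members -/
theorem card_of_basis {E R T : Type*} [Field E] [Fintype R] [DecidableEq R] [Fintype T]
    (v : T → R → E) (hv : LinearIndependent E v) (hs : Submodule.span E (Set.range v) = ⊤) :
    Nonempty (T ≃ R) := by
  have h1 := Module.finrank_eq_card_basis (Module.Basis.mk hv (le_of_eq hs.symm))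
  rw [Module.finrank_fintype_fun_eq_card] at h1
  exact Fintype.card_eq.1 h1.symm

/-- the determinant of a basis does not vanish -/
theorem det_ne {E R T : Type*} [Field E] [Fintype R] [DecidableEq R] [Fintype T] [DecidableEq T]
    (v : T → R → E) (hv : LinearIndependent E v) (r : T ≃ R) :
    Matrix.det (Matrix.of fun s t => v t (r s)) ≠ 0 := by
  have h1 : LinearIndependent E fun t => (LinearEquiv.funCongrLeft E E r) (v t) :=
    hv.map' (LinearEquiv.funCongrLeft E E r).toLinearMap (LinearEquiv.ker _)
  have h2 : (Matrix.of fun s t => v t (r s)).col = fun t => (LinearEquiv.funCongrLeft E E r) (v t) := by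
    funext t
    rfl
  rw [← h2, Matrix.linearIndependent_cols_iff_isUnit, Matrix.isUnit_iff_isUnit_det] at h1
  exact h1.ne_zero

end Pool.Agent.Helper49.LN
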