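import Mathlib

/-!
# LN: if no further 2-block exists, all columns come from one line

Application: `b I l = column of X^I (X_l - x_l X_(i₀))` modulo `W`. The hypothesis says that all the
blocks `(X^I + X^J)(X_l - ..), (X^I + X^J)(X_l' - ..)` are dependent modulo `W`.
-/

set_option autoImplicit false

namespace Pool.Agent.Helper49.LN

open scoped BigOperators

section stuckQ

variable {E Q A σ : Type*} [Field E] [CharZero E] [AddCommGroup Q] [Module E Q]

private theorem rank_one (B : A → σ → Q)
    (h : ∀ (i j : A) (l l' : σ), ∃ s t : E, (s ≠ 0 ∨ t ≠ 0) ∧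
      s • (B i l + B j l) + t • (B i l' + B j l') = 0)
    (i : A) (l : σ) (hl : B i l ≠ 0) : ∃ α : σ → E, α l = 1 ∧ ∀ m, B i m = α m • B i l := by
  classical
  have h1 : ∀ m, ∃ a : E, B i m = a • B i l := by
    intro m
    obtain ⟨s, t, hst, h0⟩ := h i i l m
    have h2 : s • B i l + t • B i m = 0 := by
      have h3 : (2 : E) • (s • B i l + t • B i m) = 0 := by
        rw [← h0, ← two_smul E (B i l), ← two_smul E (B i m), smul_add, smul_comm (2 : E) s,
          smul_comm (2 : E) t]
      exact (smul_eq_zero.1 h3).resolve_left two_ne_zero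
    have ht : t ≠ 0 := by
      rintro rfl
      rw [zero_smul, add_zero] at h2
      rcases smul_eq_zero.1 h2 with h3 | h3
      · rcases hst with h4 | h4
        · exact h4 h3
        · exact h4 rfl
      · exact hl h3
    refine ⟨-(t⁻¹ * s), ?_⟩
    have h3 : t • B i m = -(s • B i l) := by
      rw [add_comm] at h2
      exact eq_neg_of_add_eq_zero_left h2
    calc B i m = t⁻¹ • (t • B i m) := by rw [smul_smul, inv_mul_cancel₀ ht, one_smul]
      _ = -(t⁻¹ * s) • B i l := by rw [h3, smul_neg, smul_smul, neg_smul]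
  choose α hα using h1
  refine ⟨Function.update α l 1, Function.update_self _ _ _, fun m => ?_⟩
  by_cases hm : m = l
  · subst hm
    rw [Function.update_self, one_smul]
  · rw [Function.update_of_ne hm]
    exact hα m

omit [CharZero E] in
private theorem prop_of_indep (B : A → σ → Q)
    (h : ∀ (i j : A) (l l' : σ), ∃ s t : E, (s ≠ 0 ∨ t ≠ 0) ∧
      s • (B i l + B j l) + t • (B i l' + B j l') = 0)
    (i j : A) (u v : Q) (α β : σ → E) (hα : ∀ m, B i m = α m • u) (hβ : ∀ m, B j m = β m • v)
    (huv : ∀ s t : E, s • u + t • v = 0 → s = 0 ∧ t = 0) (m m' : σ) :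
    α m * β m' = α m' * β m := by
  obtain ⟨s, t, hst, h0⟩ := h i j m m'
  have h1 : (s * α m + t * α m') • u + (s * β m + t * β m') • v = 0 := by
    rw [← h0, hα m, hα m', hβ m, hβ m']
    module
  obtain ⟨h2, h3⟩ := huv _ _ h1
  rcases hst with hs | ht
  · have h4 : s * (α m * β m' - α m' * β m) = 0 := by linear_combination β m' * h2 - α m' * h3
    have h5 := (mul_eq_zero.1 h4).resolve_left hs
    linear_combination h5
  · have h4 : t * (α m * β m' - α m' * β m) = 0 := by linear_combination α m * h3 - β m * h2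
    have h5 := (mul_eq_zero.1 h4).resolve_left ht
    linear_combination h5

private theorem stuckQ [Fintype σ] (B : A → σ → Q) (i₀ : σ) (hb : ∀ i, B i i₀ = 0)
    (h : ∀ (i j : A) (l l' : σ), ∃ s t : E, (s ≠ 0 ∨ t ≠ 0) ∧
      s • (B i l + B j l) + t • (B i l' + B j l') = 0)
    (hne : ∃ (i : A) (l : σ) (j : A) (l' : σ), ∀ s t : E, s • B i l + t • B j l' = 0 →
      s = 0 ∧ t = 0) :
    ∃ y : σ → E, y i₀ = 0 ∧ y ≠ 0 ∧ ∀ c : σ → E, ∑ l, c l * y l = 0 →
      ∀ i, ∑ l, c l • B i l = 0 := by
  obtain ⟨i, l, j, l', huv⟩ := hne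
  have hu : B i l ≠ 0 := by
    intro h0
    have := (huv 1 0 (by rw [h0, smul_zero, zero_smul, add_zero])).1
    exact one_ne_zero this
  have hv : B j l' ≠ 0 := by
    intro h0
    have := (huv 0 1 (by rw [h0, smul_zero, zero_smul, add_zero])).2
    exact one_ne_zero this
  obtain ⟨α, hα1, hα⟩ := rank_one B h i l hu
  obtain ⟨β, hβ1, hβ⟩ := rank_one B h j l' hv
  have hαβ := prop_of_indep B h i j _ _ α β hα hβ huv
  -- β = β l • α
  have hβα : ∀ m, β m = α m * β l := by
    intro m
    have := hαβ l m
    rw [hα1, one_mul] at this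
    exact this
  have hβl : β l ≠ 0 := by
    intro h0
    have := hβα l'
    rw [hβ1, h0, mul_zero] at this
    exact one_ne_zero this
  refine ⟨α, ?_, ?_, ?_⟩
  · have := hα i₀
    rw [hb] at this
    exact (smul_eq_zero.1 this.symm).resolve_right hu
  · intro h0
    have := congrFun h0 l
    rw [hα1] at this
    exact one_ne_zero this
  · intro c hc k
    by_cases hk : ∀ m, B k m = 0
    · exact Finset.sum_eq_zero fun m _ => by rw [hk m, smul_zero]
    · push Not at hk
      obtain ⟨n, hn⟩ := hk
      obtain ⟨γ, hγ1, hγ⟩ := rank_one B h k n hn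
      have key : ∃ g : E, ∀ m, γ m = α m * g := by
        by_cases h1 : ∀ s t : E, s • B i l + t • B k n = 0 → s = 0 ∧ t = 0
        · refine ⟨γ l, fun m => ?_⟩
          have := prop_of_indep B h i k _ _ α γ hα hγ h1 l m
          rw [hα1, one_mul] at this
          exact this
        · have h2 : ∀ s t : E, s • B j l' + t • B k n = 0 → s = 0 ∧ t = 0 := by
            push Not at h1
            obtain ⟨s₁, t₁, e1, hne1⟩ := h1
            intro s t e2
            -- B k n is a multiple of B i l
            have ht₁ : t₁ ≠ 0 := by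
              intro h0
              rw [h0, zero_smul, add_zero] at e1
              have := (smul_eq_zero.1 e1).resolve_right hu
              exact hne1 this h0
            have e3 : (t * s₁) • B i l + -(t₁ * s) • B j l' = 0 := by
              have : (t * s₁) • B i l + -(t₁ * s) • B j l' =
                  t • (s₁ • B i l + t₁ • B k n) - t₁ • (s • B j l' + t • B k n) := by module
              rw [this, e1, e2, smul_zero, smul_zero, sub_zero]
            obtain ⟨e4, e5⟩ := huv _ _ e3
            have hs : s = 0 := by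
              rw [neg_eq_zero] at e5
              exact (mul_eq_zero.1 e5).resolve_left ht₁
            refine ⟨hs, ?_⟩
            rw [hs, zero_smul, zero_add] at e2
            exact (smul_eq_zero.1 e2).resolve_right hn
          refine ⟨β l * γ l', fun m => ?_⟩
          have := prop_of_indep B h j k _ _ β γ hβ hγ h2 l' m
          rw [hβ1, one_mul] at this
          rw [this, hβα m, mul_assoc]
      obtain ⟨g, hg⟩ := key
      calc ∑ m, c m • B k m = ∑ m, (c m * α m) • (g • B k n) := by
            refine Finset.sum_congr rfl fun m _ => ?_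
            rw [hγ m, hg m, smul_smul, smul_smul, mul_assoc]
        _ = (∑ m, c m * α m) • (g • B k n) := by rw [Finset.sum_smul]
        _ = 0 := by rw [hc, zero_smul]

end stuckQ

theorem stuck {E V A σ : Type*} [Field E] [CharZero E] [AddCommGroup V] [Module E V] [Fintype σ]
    [DecidableEq σ] (W : Submodule E V) (b : A → σ → V) (i₀ : σ) (hb : ∀ i, b i i₀ = 0)
    (h : ∀ (i j : A) (l l' : σ), ∃ s t : E, (s ≠ 0 ∨ t ≠ 0) ∧
      s • (b i l + b j l) + t • (b i l' + b j l') ∈ W)
    (hne : ∃ (i : A) (l : σ) (j : A) (l' : σ), ∀ s t : E, s • b i l + t • b j l' ∈ W →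
      s = 0 ∧ t = 0) :
    ∃ y : σ → E, y i₀ = 0 ∧ y ≠ 0 ∧ ∀ c : σ → E, ∑ l, c l * y l = 0 →
      ∀ i, ∑ l, c l • b i l ∈ W := by
  have h0 : ∀ x : V, W.mkQ x = 0 ↔ x ∈ W := fun x => by
    rw [Submodule.mkQ_apply, Submodule.Quotient.mk_eq_zero]
  obtain ⟨y, hy0, hy1, hy2⟩ := stuckQ (E := E) (fun i l => W.mkQ (b i l)) i₀
    (fun i => by rw [hb, map_zero])
    (fun i j l l' => by
      obtain ⟨s, t, hst, hW⟩ := h i j l l'
      refine ⟨s, t, hst, ?_⟩
      rw [← map_add, ← map_add, ← map_smul, ← map_smul, ← map_add]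
      exact (h0 _).2 hW)
    (by
      obtain ⟨i, l, j, l', hne⟩ := hne
      refine ⟨i, l, j, l', fun s t hst => hne s t ?_⟩
      rw [← map_smul, ← map_smul, ← map_add] at hst
      exact (h0 _).1 hst)
  refine ⟨y, hy0, hy1, fun c hc i => ?_⟩
  have := hy2 c hc i
  simp only [← map_smul, ← map_sum] at this
  exact (h0 _).1 this

end Pool.Agent.Helper49.LN
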