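import Pool.Agent.Helper49.LN.Span
import Pool.Agent.Helper49.LN.Sel
import Pool.Agent.Helper49.LN.Move
import Pool.Agent.Helper49.LN.Stuck

/-!
# LN: choice of the columns
-/

set_option autoImplicit false

namespace Pool.Agent.Helper49.LN

open scoped BigOperators
open MvPolynomial

variable {E : Type*} [Field E] {σ : Type*} [Fintype σ] [DecidableEq σ] {κ : Type*} [Fintype κ]
  [DecidableEq κ] {n : ℕ}

/-- completion to a basis, with a last vector detected by a functional -/
theorem complete1 {R A B : Type*} [Fintype R] [DecidableEq R] [Fintype A] [DecidableEq A]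
    (v : A → R → E) (hv : LinearIndependent E v) (lam : (R → E) →ₗ[E] E) (hl : ∀ a, lam (v a) = 0)
    (u : R → E) (hu : lam u ≠ 0) (w : B → R → E) (hw : Submodule.span E (Set.range w) = ⊤) :
    ∃ (t : ℕ) (f : Fin t → B) (r : ((A ⊕ Fin 1) ⊕ Fin t) ≃ R),
      dt r (Sum.elim (Sum.elim v fun _ : Fin 1 => u) fun s => w (f s)) ≠ 0 := by
  have hu0 : u ≠ 0 := by
    intro h
    apply hu
    rw [h, map_zero]
  have h1 : LinearIndependent E (Sum.elim v fun _ : Fin 1 => u) := by
    refine hv.sum_type (LinearIndependent.of_subsingleton (0 : Fin 1) hu0) ?_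
    rw [Submodule.disjoint_def]
    intro x hx hx2
    have h2 : Submodule.span E (Set.range v) ≤ LinearMap.ker lam := by
      rw [Submodule.span_le]
      rintro _ ⟨a, rfl⟩
      exact hl a
    have h3 : lam x = 0 := h2 hx
    have h4 : Set.range (fun _ : Fin 1 => u) = {u} := Set.range_const
    rw [h4] at hx2
    obtain ⟨c, rfl⟩ := Submodule.mem_span_singleton.1 hx2
    rw [map_smul, smul_eq_mul] at h3
    rcases mul_eq_zero.1 h3 with h5 | h5
    · rw [h5, zero_smul]
    · exact absurd h5 hu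
  obtain ⟨t, f, -, h2, h3⟩ := sel _ h1 w
  have h4 : Submodule.span E (Set.range (Sum.elim (Sum.elim v fun _ : Fin 1 => u)
      fun s => w (f s))) = ⊤ := by
    rw [eq_top_iff, ← hw, Submodule.span_le]
    rintro _ ⟨b, rfl⟩
    exact h3 b
  obtain ⟨r⟩ := card_of_basis _ h2 h4
  exact ⟨t, f, r, det_ne _ h2 r⟩

/-- completion to a basis, without a last vector -/
theorem complete0 {R A B : Type*} [Fintype R] [DecidableEq R] [Fintype A] [DecidableEq A]
    (v : A → R → E) (hv : LinearIndependent E v) (u : Fin 0 → R → E)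
    (w : B → R → E) (hw : Submodule.span E (Set.range w) = ⊤) :
    ∃ (t : ℕ) (f : Fin t → B) (r : ((A ⊕ Fin 0) ⊕ Fin t) ≃ R),
      dt r (Sum.elim (Sum.elim v u) fun s => w (f s)) ≠ 0 := by
  have h1 : LinearIndependent E (Sum.elim v u) := by
    refine hv.sum_type linearIndependent_empty_type ?_
    rw [Set.range_eq_empty u, Submodule.span_empty]
    exact disjoint_bot_right
  obtain ⟨t, f, -, h2, h3⟩ := sel _ h1 w
  have h4 : Submodule.span E (Set.range (Sum.elim (Sum.elim v u) fun s => w (f s))) = ⊤ := by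
    rw [eq_top_iff, ← hw, Submodule.span_le]
    rintro _ ⟨b, rfl⟩
    exact h3 b
  obtain ⟨r⟩ := card_of_basis _ h2 h4
  exact ⟨t, f, r, det_ne _ h2 r⟩

omit [Fintype σ] [DecidableEq σ] in
theorem hf_self (x : σ → E) (i : σ) : hf x i i = 0 := sub_self _

omit [Fintype σ] [DecidableEq σ] in
/-- `L` in terms of the `X_l - x_l X_(i₀)` -/
theorem Lf_base (x y : σ → E) (i₀ : σ) (hx : x i₀ = 1) (s : σ × σ × σ) :
    Lf (pl x y) s = pl x y s.1 s.2.1 • hf x i₀ s.2.2 - pl x y s.1 s.2.2 • hf x i₀ s.2.1 +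
      pl x y s.2.1 s.2.2 • hf x i₀ s.1 := by
  obtain ⟨j, l, m⟩ := s
  have h1 : pl x y j l * x m - pl x y j m * x l + pl x y l m * x j = 0 := by
    unfold pl
    ring
  have h2 : pl x y j l • hf x i₀ m - pl x y j m • hf x i₀ l + pl x y l m • hf x i₀ j =
      Lf (pl x y) (j, l, m) - (pl x y j l * x m - pl x y j m * x l + pl x y l m * x j) •
        (X i₀ : MvPolynomial σ E) := by
    unfold Lf hf
    rw [hx]
    simp only [one_smul, smul_sub, smul_smul, sub_smul, add_smul]
    abel
  simp only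
  rw [h2, h1, zero_smul, sub_zero]

omit [Fintype κ] [DecidableEq κ] in
/-- a combination of three members of a family -/
theorem sum_three {M : Type*} [AddCommGroup M] [Module E M] (p q r : E) (j l m : σ) (F : σ → M) :
    ∑ k, (p • (Pi.single m 1 : σ → E) - q • (Pi.single l 1 : σ → E) +
      r • (Pi.single j 1 : σ → E)) k • F k = p • F m - q • F l + r • F j := by
  simp only [Pi.add_apply, Pi.sub_apply, Pi.smul_apply, smul_eq_mul, add_smul, sub_smul,
    Finset.sum_add_distrib, Finset.sum_sub_distrib]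
  have e : ∀ (q : E) (i : σ), ∑ k, (q * (Pi.single i 1 : σ → E) k) • F k = q • F i := by
    intro q i
    rw [Finset.sum_eq_single i, Pi.single_eq_same, mul_one]
    · intro k _ hk
      rw [Pi.single_eq_of_ne hk, mul_zero, zero_smul]
    · intro h
      exact absurd (Finset.mem_univ _) h
  rw [e, e, e]

/-- **Point**: blocks and singles; if there are two singles, there is a line. -/
theorem ex_point {M : Type*} [AddCommGroup M] [Module E M] [FiniteDimensional E M] [CharZero E]
    (V : Sym σ (n + 1) → M) (e₀ : M) (he₀ : e₀ ≠ 0) (x : σ → E) (i₀ : σ) (hx : x i₀ = 1) :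
    ∃ (i t : ℕ) (β : Fin i → (Sym σ n × Sym σ n) × (σ × σ)) (f : Fin t → Sym σ n × σ),
      LinearIndependent E (Sum.elim (Sum.elim (fun _ : Fin 1 => e₀)
        (fun p : Fin i × Fin 2 => bl V x i₀ (β p.1) p.2)) (fun s => sg V x i₀ (f s))) ∧
      (∀ g ∈ Ipt x, cP V g ∈ Submodule.span E (Set.range (Sum.elim
        (Sum.elim (fun _ : Fin 1 => e₀) (fun p : Fin i × Fin 2 => bl V x i₀ (β p.1) p.2))
        (fun s => sg V x i₀ (f s))))) ∧
      (2 ≤ t → ∃ (y : σ → E) (a : σ), pl x y i₀ a ≠ 0 ∧ ∀ g ∈ Il (pl x y),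
        cP V g ∈ Submodule.span E (Set.range (Sum.elim (fun _ : Fin 1 => e₀)
          (fun p : Fin i × Fin 2 => bl V x i₀ (β p.1) p.2)))) := by
  have h1 : LinearIndependent E (fun _ : Fin 1 => e₀) :=
    LinearIndependent.of_subsingleton (0 : Fin 1) he₀
  obtain ⟨i, β, h2, h3⟩ := max_blocks _ h1 (bl V x i₀)
  obtain ⟨t, f, -, h4, h5⟩ := sel _ h2 (sg V x i₀)
  refine ⟨i, t, β, f, h4, fun g hg => span_sg V x i₀ hx _ h5 g hg, fun ht => ?_⟩
  obtain ⟨W, hW⟩ : ∃ W, W = Submodule.span E (Set.range (Sum.elim (fun _ : Fin 1 => e₀)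
    (fun p : Fin i × Fin 2 => bl V x i₀ (β p.1) p.2))) := ⟨_, rfl⟩
  rw [← hW] at h3 ⊢
  obtain ⟨y, hy0, hy, hyW⟩ := stuck W (fun (I : Sym σ n) l => sg V x i₀ (I, l)) i₀
    (fun I => by
      simp only [sg]
      rw [hf_self, mul_zero, map_zero])
    (fun I J l l' => by
      obtain ⟨s, r, h6, h7⟩ := h3 ((I, J), (l, l'))
      refine ⟨s, r, h6, ?_⟩
      have e : ∀ k, sg V x i₀ (I, k) + sg V x i₀ (J, k) =
          cP V ((mo E (I : Multiset σ) + mo E (J : Multiset σ)) * hf x i₀ k) := by
        intro k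
        simp only [sg]
        rw [add_mul, map_add]
      rw [e, e]
      have e1 : bl V x i₀ ((I, J), (l, l')) 0 =
          cP V ((mo E (I : Multiset σ) + mo E (J : Multiset σ)) * hf x i₀ l) := rfl
      have e2 : bl V x i₀ ((I, J), (l, l')) 1 =
          cP V ((mo E (I : Multiset σ) + mo E (J : Multiset σ)) * hf x i₀ l') := rfl
      rw [← e1, ← e2]
      exact h7)
    (by
      refine ⟨(f ⟨0, by omega⟩).1, (f ⟨0, by omega⟩).2, (f ⟨1, by omega⟩).1, (f ⟨1, by omega⟩).2,
        fun s r hsr => ?_⟩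
      simp only [Prod.mk.eta] at hsr
      -- independence modulo `W`
      have h6 : Disjoint (Submodule.span E (Set.range (Sum.elim (fun _ : Fin 1 => e₀)
          (fun p : Fin i × Fin 2 => bl V x i₀ (β p.1) p.2))))
          (Submodule.span E (Set.range fun k => sg V x i₀ (f k))) := by
        have h7 := h4.disjoint_span_image (s := Set.range Sum.inl) (t := Set.range Sum.inr)
          Set.isCompl_range_inl_range_inr.disjoint
        rw [← Set.range_comp, ← Set.range_comp] at h7
        exact h7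
      rw [← hW] at h6
      have h8 : LinearIndependent E fun k => sg V x i₀ (f k) := h4.comp Sum.inr Sum.inr_injective
      have h9 : s • sg V x i₀ (f ⟨0, by omega⟩) + r • sg V x i₀ (f ⟨1, by omega⟩) ∈
          Submodule.span E (Set.range fun k => sg V x i₀ (f k)) :=
        add_mem (Submodule.smul_mem _ _ (Submodule.subset_span ⟨_, rfl⟩))
          (Submodule.smul_mem _ _ (Submodule.subset_span ⟨_, rfl⟩))
      have h10 := (Submodule.disjoint_def.1 h6) _ hsr h9
      rw [Fintype.linearIndependent_iff] at h8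
      have h11 := h8 (Pi.single ⟨0, by omega⟩ s + Pi.single ⟨1, by omega⟩ r) (by
        simp only [Pi.add_apply, add_smul, Finset.sum_add_distrib]
        rw [Finset.sum_eq_single (⟨0, by omega⟩ : Fin t), Finset.sum_eq_single
          (⟨1, by omega⟩ : Fin t), Pi.single_eq_same, Pi.single_eq_same, h10]
        · intro b _ hb
          rw [Pi.single_eq_of_ne hb, zero_smul]
        · intro hb
          exact absurd (Finset.mem_univ _) hb
        · intro b _ hb
          rw [Pi.single_eq_of_ne hb, zero_smul]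
        · intro hb
          exact absurd (Finset.mem_univ _) hb)
      have hne : (⟨0, by omega⟩ : Fin t) ≠ ⟨1, by omega⟩ := by
        intro h
        have := congrArg Fin.val h
        simp at this
      have h12 := h11 ⟨0, by omega⟩
      have h13 := h11 ⟨1, by omega⟩
      rw [Pi.add_apply, Pi.single_eq_same, Pi.single_eq_of_ne hne, add_zero] at h12
      rw [Pi.add_apply, Pi.single_eq_same, Pi.single_eq_of_ne hne.symm, zero_add] at h13
      exact ⟨h12, h13⟩)
  obtain ⟨a, ha⟩ : ∃ a, y a ≠ 0 := by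
    by_contra hcon
    push Not at hcon
    exact hy (funext hcon)
  refine ⟨y, a, ?_, fun g hg => span_lv V (pl x y) W (fun p => ?_) g hg⟩
  · unfold pl
    rw [hx, hy0, mul_zero, sub_zero, one_mul]
    exact ha
  · obtain ⟨I, s⟩ := p
    obtain ⟨j, l, m⟩ := s
    obtain ⟨c, hc⟩ : ∃ c : σ → E, c = pl x y j l • Pi.single m 1 - pl x y j m • Pi.single l 1 +
      pl x y l m • Pi.single j 1 := ⟨_, rfl⟩
    have h6 := hyW c (by
      have h7 := sum_three (pl x y j l) (pl x y j m) (pl x y l m) j l m y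
      rw [← hc] at h7
      simp only [smul_eq_mul] at h7
      rw [h7]
      unfold pl
      ring) I
    rw [hc, sum_three (pl x y j l) (pl x y j m) (pl x y l m) j l m
      (fun l => sg V x i₀ (I, l))] at h6
    have h8 : lv V (pl x y) (I, j, l, m) = pl x y j l • sg V x i₀ (I, m) -
        pl x y j m • sg V x i₀ (I, l) + pl x y l m • sg V x i₀ (I, j) := by
      simp only [lv, sg]
      rw [Lf_base x y i₀ hx]
      simp only
      rw [mul_add, mul_sub, map_add, map_sub, mul_smul_comm, mul_smul_comm, mul_smul_comm,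
        map_smul, map_smul, map_smul]
    rw [h8]
    exact h6

/-- **Point**: the same number of singles can be taken among the `fn`. -/
theorem ex_fan {M : Type*} [AddCommGroup M] [Module E M] [FiniteDimensional E M]
    (V : Sym σ (n + 1) → M) {A : Type*} [Fintype A] (v : A → M) {t : ℕ}
    (f : Fin t → Sym σ n × σ) (x y : σ → E) (i₀ a : σ) (hx : x i₀ = 1) (ha : pl x y i₀ a ≠ 0)
    (hv : LinearIndependent E (Sum.elim v fun s => sg V x i₀ (f s)))
    (h1 : ∀ g ∈ Ipt x, cP V g ∈ Submodule.span E (Set.range (Sum.elim v fun s => sg V x i₀ (f s))))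
    (h2 : ∀ g ∈ Il (pl x y), cP V g ∈ Submodule.span E (Set.range v)) :
    ∃ K : Fin t → ℕ, (∀ s, K s ≤ n) ∧ Function.Injective K ∧
      LinearIndependent E (Sum.elim v fun s => fn V x i₀ a (K s)) ∧
      ∀ g ∈ Ipt x, cP V g ∈ Submodule.span E (Set.range
        (Sum.elim v fun s => fn V x i₀ a (K s))) := by
  have hv0 : LinearIndependent E v := hv.comp Sum.inl Sum.inl_injective
  obtain ⟨m, β, hβ, h3, h4⟩ := sel v hv0 (fun k : Fin (n + 1) => fn V x i₀ a k)
  have h5 : ∀ g ∈ Ipt x, cP V g ∈ Submodule.span E (Set.range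
      (Sum.elim v fun s => fn V x i₀ a (β s))) := by
    intro g hg
    refine span_fn V x y i₀ a ha _ (fun g' hg' => ?_) (fun k hk => ?_) g hg
    · refine Submodule.span_mono ?_ (h2 g' hg')
      rintro _ ⟨a', rfl⟩
      exact ⟨Sum.inl a', rfl⟩
    · exact h4 ⟨k, Nat.lt_succ_of_le hk⟩
  have h6 : Submodule.span E (Set.range (Sum.elim v fun s => sg V x i₀ (f s))) =
      Submodule.span E (Set.range (Sum.elim v fun s => fn V x i₀ a (β s))) := by
    apply le_antisymm
    · rw [Submodule.span_le]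
      rintro _ ⟨s | s, rfl⟩
      · exact Submodule.subset_span ⟨Sum.inl s, rfl⟩
      · exact h5 _ (sg_mem x i₀ (f s))
    · rw [Submodule.span_le]
      rintro _ ⟨s | s, rfl⟩
      · exact Submodule.subset_span ⟨Sum.inl s, rfl⟩
      · exact h1 _ (fn_mem x i₀ a (β s))
  have h7 := (mv5 _ _ hv).1
  have h8 := (mv5 _ _ h3).1
  rw [h6, h8, Fintype.card_fin, Fintype.card_fin] at h7
  have h9 : m = t := by omega
  subst h9
  refine ⟨fun s => (β s : ℕ), fun s => (β s).is_le, fun s s' h => hβ (Fin.ext h), h3, h5⟩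

end Pool.Agent.Helper49.LN
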