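import Pool.Agent.Helper74.LG.KeyAbs

/-!
# LN: expansion of a determinant whose columns are combinations of bounded vectors

`PB O A μ`: for every injective `g : T → U` the product `∏ t, A (g t) t` lies in `μ O`.
-/

set_option autoImplicit false

namespace Pool.Agent.Helper49.LN

open scoped BigOperators
open Pool.Agent.Helper74.LG (det_tri det_mem sum_single_smul)

section pb

variable {E : Type*} [Field E]

/-- the matrix `A` (rows `U`, columns `T`) is product-bounded by `μ` -/
def PB (O : ValuationSubring E) {U T : Type*} [Fintype T] (A : U → T → E) (μ : E) : Prop :=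
  ∀ g : T → U, Function.Injective g → ∃ w ∈ O, ∏ t, A (g t) t = μ * w

/-- block diagonal sum of two matrices -/
def blk {U₁ U₂ T₁ T₂ : Type*} (A₁ : U₁ → T₁ → E) (A₂ : U₂ → T₂ → E) :
    U₁ ⊕ U₂ → T₁ ⊕ T₂ → E
  | Sum.inl u, Sum.inl t => A₁ u t
  | Sum.inr u, Sum.inr t => A₂ u t
  | _, _ => 0

theorem PB.blk {O : ValuationSubring E} {U₁ U₂ T₁ T₂ : Type*} [Fintype T₁] [Fintype T₂]
    {A₁ : U₁ → T₁ → E} {A₂ : U₂ → T₂ → E} {μ₁ μ₂ : E} (h₁ : PB O A₁ μ₁) (h₂ : PB O A₂ μ₂) :
    PB O (blk A₁ A₂) (μ₁ * μ₂) := by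
  intro g hg
  by_cases hl : ∀ t, ∃ u, g (Sum.inl t) = Sum.inl u
  · by_cases hr : ∀ t, ∃ u, g (Sum.inr t) = Sum.inr u
    · choose g₁ hg₁ using hl
      choose g₂ hg₂ using hr
      have hi₁ : Function.Injective g₁ := by
        intro s t hst
        have h : g (Sum.inl s) = g (Sum.inl t) := by rw [hg₁, hg₁, hst]
        exact Sum.inl_injective (hg h)
      have hi₂ : Function.Injective g₂ := by
        intro s t hst
        have h : g (Sum.inr s) = g (Sum.inr t) := by rw [hg₂, hg₂, hst]
        exact Sum.inr_injective (hg h)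
      obtain ⟨w₁, hw₁, e₁⟩ := h₁ g₁ hi₁
      obtain ⟨w₂, hw₂, e₂⟩ := h₂ g₂ hi₂
      refine ⟨w₁ * w₂, mul_mem hw₁ hw₂, ?_⟩
      rw [Fintype.prod_sum_type]
      have h3 : ∀ t, LN.blk A₁ A₂ (g (Sum.inl t)) (Sum.inl t) = A₁ (g₁ t) t := by
        intro t
        rw [hg₁]
        rfl
      have h4 : ∀ t, LN.blk A₁ A₂ (g (Sum.inr t)) (Sum.inr t) = A₂ (g₂ t) t := by
        intro t
        rw [hg₂]
        rfl
      simp only [h3, h4]
      rw [e₁, e₂]
      ring
    · push Not at hr
      obtain ⟨t, ht⟩ := hr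
      refine ⟨0, zero_mem O, ?_⟩
      rw [mul_zero, Fintype.prod_sum_type]
      have h0 : LN.blk A₁ A₂ (g (Sum.inr t)) (Sum.inr t) = 0 := by
        rcases h : g (Sum.inr t) with u | u
        · rfl
        · exact absurd h (ht u)
      rw [Finset.prod_eq_zero (Finset.mem_univ t) h0, mul_zero]
  · push Not at hl
    obtain ⟨t, ht⟩ := hl
    refine ⟨0, zero_mem O, ?_⟩
    rw [mul_zero, Fintype.prod_sum_type]
    have h0 : LN.blk A₁ A₂ (g (Sum.inl t)) (Sum.inl t) = 0 := by
      rcases h : g (Sum.inl t) with u | u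
      · exact absurd h (ht u)
      · rfl
    rw [Finset.prod_eq_zero (Finset.mem_univ t) h0, zero_mul]

/-- block diagonal sum of a family of copies of shapes `U`, `T` -/
def blks {I U T : Type*} [DecidableEq I] (A : I → U → T → E) : I × U → I × T → E :=
  fun u t => if u.1 = t.1 then A t.1 u.2 t.2 else 0

theorem PB.blks {O : ValuationSubring E} {I U T : Type*} [Fintype I] [DecidableEq I] [Fintype T]
    {A : I → U → T → E} {μ : I → E} (h : ∀ i, PB O (A i) (μ i)) :
    PB O (blks A) (∏ i, μ i) := by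
  intro g hg
  by_cases hd : ∀ t : I × T, (g t).1 = t.1
  · have h1 : ∀ i, ∃ w ∈ O, ∏ t : T, A i (g (i, t)).2 t = μ i * w := by
      intro i
      refine h i (fun t => (g (i, t)).2) ?_
      intro s t hst
      have h2 : g (i, s) = g (i, t) := Prod.ext ((hd (i, s)).trans (hd (i, t)).symm) hst
      exact (Prod.mk.inj (hg h2)).2
    choose w hw hw2 using h1
    refine ⟨∏ i, w i, prod_mem fun i _ => hw i, ?_⟩
    rw [Fintype.prod_prod_type, ← Finset.prod_mul_distrib]
    refine Finset.prod_congr rfl fun i _ => ?_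
    rw [← hw2 i]
    refine Finset.prod_congr rfl fun t _ => ?_
    exact if_pos (hd (i, t))
  · push Not at hd
    obtain ⟨t, ht⟩ := hd
    refine ⟨0, zero_mem O, ?_⟩
    rw [mul_zero, Finset.prod_eq_zero (Finset.mem_univ t)]
    exact if_neg ht

/-- a diagonal matrix -/
theorem PB.diag (O : ValuationSubring E) {T : Type*} [Fintype T] [DecidableEq T] (a : T → E) :
    PB O (fun u t => if u = t then a t else 0) (∏ t, a t) := by
  intro g hg
  by_cases hd : ∀ t, g t = t
  · refine ⟨1, one_mem O, ?_⟩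
    rw [mul_one]
    exact Finset.prod_congr rfl fun t _ => if_pos (hd t)
  · push Not at hd
    obtain ⟨t, ht⟩ := hd
    refine ⟨0, zero_mem O, ?_⟩
    rw [mul_zero, Finset.prod_eq_zero (Finset.mem_univ t)]
    exact if_neg ht

theorem PB.const (O : ValuationSubring E) (T : Type*) [Fintype T] [DecidableEq T] (a : E) :
    PB O (fun u t : T => if u = t then a else 0) (a ^ Fintype.card T) := by
  have h := PB.diag O (fun _ : T => a)
  rwa [Finset.prod_const, Finset.card_univ] at h

/-- A `3 × 2` block: columns `h_s - y_s h_none`, `y_s ∈ c O`, `c⁻¹ ∈ O`. -/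
theorem PB.pair (O : ValuationSubring E) (c : E) (hc : c ≠ 0) (hcO : c⁻¹ ∈ O) (y : Fin 2 → E)
    (hy : ∀ s, c⁻¹ * y s ∈ O) :
    PB O (fun (u : Option (Fin 2)) (t : Fin 2) => u.elim (-y t) fun s => if s = t then 1 else 0)
      c := by
  intro g hg
  rw [Fin.prod_univ_two]
  -- a value which is not `none` gives `0` or `1`
  have h01 : ∀ (t s : Fin 2), (if s = t then (1 : E) else 0) ∈ O := by
    intro t s
    split_ifs
    · exact one_mem O
    · exact zero_mem O
  rcases h0 : g 0 with _ | s0
  · rcases h1 : g 1 with _ | s1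
    · exact absurd (hg (h0.trans h1.symm)) (by decide)
    · refine ⟨c⁻¹ * (-y 0) * (if s1 = 1 then 1 else 0), mul_mem ?_ (h01 1 s1), ?_⟩
      · rw [mul_neg]
        exact neg_mem (hy 0)
      · simp only [Option.elim]
        rw [← mul_assoc, mul_inv_cancel_left₀ hc]
  · rcases h1 : g 1 with _ | s1
    · refine ⟨c⁻¹ * (-y 1) * (if s0 = 0 then 1 else 0), mul_mem ?_ (h01 0 s0), ?_⟩
      · rw [mul_neg]
        exact neg_mem (hy 1)
      · simp only [Option.elim]
        rw [← mul_assoc, mul_inv_cancel_left₀ hc, mul_comm]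
    · refine ⟨c⁻¹ * ((if s0 = 0 then 1 else 0) * (if s1 = 1 then 1 else 0)),
        mul_mem hcO (mul_mem (h01 0 s0) (h01 1 s1)), ?_⟩
      simp only [Option.elim]
      rw [mul_inv_cancel_left₀ hc]

theorem PB.mono {O : ValuationSubring E} {U T : Type*} [Fintype T] {A : U → T → E} {μ ν : E}
    (h : PB O A μ) (w : E) (hw : w ∈ O) (hμ : μ = ν * w) : PB O A ν := by
  intro g hg
  obtain ⟨w', hw', e⟩ := h g hg
  exact ⟨w * w', mul_mem hw hw', by rw [e, hμ]; ring⟩

theorem PB.congr {O : ValuationSubring E} {U T : Type*} [Fintype T] {A B : U → T → E} {μ : E}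
    (h : PB O A μ) (hAB : ∀ u t, A u t = B u t) : PB O B μ := by
  have : A = B := funext fun u => funext fun t => hAB u t
  rwa [← this]

/-- multiplication of the columns by scalars -/
theorem PB.mul {O : ValuationSubring E} {U T : Type*} [Fintype T] {A : U → T → E} {μ : E}
    (h : PB O A μ) (a : T → E) : PB O (fun u t => a t * A u t) ((∏ t, a t) * μ) := by
  intro g hg
  obtain ⟨w, hw, e⟩ := h g hg
  refine ⟨w, hw, ?_⟩
  rw [Finset.prod_mul_distrib, e, mul_assoc]

end pb

section det

variable {E : Type*} [Field E] {R T U : Type*} [Fintype T] [DecidableEq T]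

/-- the determinant of a family of vectors (columns) in the rows `r s` -/
noncomputable def dt (r : T → R) (v : T → R → E) : E :=
  Matrix.det (Matrix.of fun s t => v t (r s))

theorem dt_mem (O : ValuationSubring E) (Δ : E) (r : T → R) (v : T → R → E)
    (hv : ∀ t l, Δ * v t l ∈ O) : Δ ^ Fintype.card T * dt r v ∈ O := by
  unfold dt
  rw [← Matrix.det_smul]
  refine det_mem O.toSubring _ fun s t => ?_
  rw [Matrix.smul_apply, smul_eq_mul]
  exact hv t (r s)

theorem dt_expand [Fintype U] (O : ValuationSubring E) (Δ μ : E) (r : T → R) (W : U → R → E)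
    (hW : ∀ u l, Δ * W u l ∈ O) (A : U → T → E) (hA : PB O A μ) :
    ∃ N ∈ O, Δ ^ Fintype.card T * dt r (fun t => ∑ u, A u t • W u) = μ * N := by
  classical
  have h1 : dt r (fun t => ∑ u, A u t • W u) =
      ∑ g : T → U, (∏ t, A (g t) t) * dt r fun t => W (g t) := by
    have h2 : ∀ v : T → R → E, dt r v =
        (Matrix.detRowAlternating : (T → E) [⋀^T]→ₗ[E] E).toMultilinearMap
          fun t => fun s => v t (r s) := by
      intro v
      unfold dt
      rw [← Matrix.det_transpose]
      rfl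
    rw [h2]
    have h3 : (fun t => fun s => (∑ u, A u t • W u) (r s)) =
        fun t => ∑ u, A u t • (fun s => W u (r s) : T → E) := by
      funext t s
      simp only [Finset.sum_apply, Pi.smul_apply]
    rw [h3, MultilinearMap.map_sum]
    refine Finset.sum_congr rfl fun g _ => ?_
    rw [MultilinearMap.map_smul_univ, h2, smul_eq_mul]
  have h4 : ∀ g : T → U, ∃ w ∈ O, Δ ^ Fintype.card T *
      ((∏ t, A (g t) t) * dt r fun t => W (g t)) = μ * w := by
    intro g
    by_cases hg : Function.Injective g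
    · obtain ⟨w, hw, e⟩ := hA g hg
      refine ⟨w * (Δ ^ Fintype.card T * dt r fun t => W (g t)),
        mul_mem hw (dt_mem O Δ r _ fun t l => hW (g t) l), ?_⟩
      rw [e]
      ring
    · refine ⟨0, zero_mem O, ?_⟩
      unfold Function.Injective at hg
      push Not at hg
      obtain ⟨s, t, hst, hne⟩ := hg
      have h5 : dt r (fun t => W (g t)) = 0 := by
        unfold dt
        refine Matrix.det_zero_of_column_eq hne fun k => ?_
        simp only [Matrix.of_apply, hst]
      rw [h5, mul_zero, mul_zero, mul_zero]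
  choose w hw hw2 using h4
  refine ⟨∑ g, w g, sum_mem fun g _ => hw g, ?_⟩
  rw [h1, Finset.mul_sum, Finset.mul_sum]
  exact Finset.sum_congr rfl fun g _ => hw2 g

/-- unitriangular change of columns -/
theorem dt_tri (r : T → R) (v v' : T → R → E) (rk : T → ℕ)
    (h : ∀ t, v t - v' t ∈ Submodule.span E (v' '' {t' | rk t' < rk t})) : dt r v = dt r v' := by
  have h1 : ∀ t, ∃ τ : T → E, v t = ∑ t', τ t' • v' t' ∧ τ t = 1 ∧
      ∀ t', t' ≠ t → rk t ≤ rk t' → τ t' = 0 := by
    intro t
    obtain ⟨l, hl1, hl2⟩ := (Finsupp.mem_span_image_iff_linearCombination E).1 (h t)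
    refine ⟨fun t' => (Pi.single t 1 : T → E) t' + l t', ?_, ?_, ?_⟩
    · simp only [add_smul, Finset.sum_add_distrib]
      rw [sum_single_smul, one_smul]
      have h2 : ∑ t', l t' • v' t' = v t - v' t := by
        rw [← hl2, Finsupp.linearCombination_apply, Finsupp.sum_fintype]
        intro i
        rw [zero_smul]
      rw [h2]
      abel
    · have h3 : l t = 0 := by
        by_contra h4
        have h5 : rk t < rk t := hl1 (Finsupp.mem_support_iff.2 h4)
        exact lt_irrefl _ h5
      change (Pi.single t 1 : T → E) t + l t = 1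
      rw [Pi.single_eq_same, h3, add_zero]
    · intro t' ht' hrk
      change (Pi.single t 1 : T → E) t' + l t' = 0
      rw [Pi.single_eq_of_ne ht', zero_add]
      by_contra h4
      have h5 := hl1 (Finsupp.mem_support_iff.2 h4)
      exact absurd h5 (not_lt.2 hrk)
  choose τ hτ1 hτ2 hτ3 using h1
  have hmat : (Matrix.of fun s t => v t (r s)) =
      (Matrix.of fun s t' => v' t' (r s)) * (Matrix.of fun t' t => τ t t') := by
    ext s t
    rw [Matrix.mul_apply, Matrix.of_apply, hτ1 t, Finset.sum_apply]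
    refine Finset.sum_congr rfl fun t' _ => ?_
    rw [Pi.smul_apply, smul_eq_mul, Matrix.of_apply, Matrix.of_apply, mul_comm]
  unfold dt
  rw [hmat, Matrix.det_mul, det_tri (Matrix.of fun t' t => τ t t') rk (fun _ => 1)
    (fun t => hτ2 t) (fun t' t h1 h2 => hτ3 t t' h1 h2), Finset.prod_const_one, mul_one]

/-- a linear map applied to all columns -/
theorem dt_map [Fintype R] [DecidableEq R] (r : T ≃ R) (Γ : (R → E) →ₗ[E] (R → E))
    (v : T → R → E) : dt r (fun t => Γ (v t)) = LinearMap.det Γ * dt r v := by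
  unfold dt
  have h1 : (Matrix.of fun s t => Γ (v t) (r s)) =
      (LinearMap.toMatrix' Γ).submatrix r r * Matrix.of fun s t => v t (r s) := by
    ext s t
    rw [Matrix.mul_apply, Matrix.of_apply]
    have h2 : Γ (v t) = (LinearMap.toMatrix' Γ).mulVec (v t) := by
      rw [← Matrix.toLin'_apply, Matrix.toLin'_toMatrix']
    rw [h2, Matrix.mulVec, dotProduct, ← r.sum_comp]
    rfl
  rw [h1, Matrix.det_mul, Matrix.det_submatrix_equiv_self, LinearMap.det_toMatrix']

/-- **Expansion.** Columns `v t` which are `Γ (∑ u, A u t • W u)` up to columns of smaller rank,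
`W u` bounded by `Δ⁻¹`, `A` product-bounded by `μ`. -/
theorem det_expand [Fintype R] [DecidableEq R] [Fintype U] (O : ValuationSubring E) (Δ μ : E)
    (r : T ≃ R) (Γ : (R → E) →ₗ[E] (R → E)) (W : U → R → E) (hW : ∀ u l, Δ * W u l ∈ O)
    (A : U → T → E) (hA : PB O A μ) (v : T → R → E) (rk : T → ℕ)
    (hv : ∀ t, v t - Γ (∑ u, A u t • W u) ∈
      Submodule.span E ((fun t' => Γ (∑ u, A u t' • W u)) '' {t' | rk t' < rk t})) :
    ∃ N ∈ O, Δ ^ Fintype.card T * dt r v = LinearMap.det Γ * μ * N := by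
  obtain ⟨N, hN, e⟩ := dt_expand O Δ μ r W hW A hA
  refine ⟨N, hN, ?_⟩
  rw [dt_tri r v (fun t => Γ (∑ u, A u t • W u)) rk hv,
    dt_map r Γ (fun t => ∑ u, A u t • W u)]
  calc Δ ^ Fintype.card T * (LinearMap.det Γ * dt r fun t => ∑ u, A u t • W u) =
        LinearMap.det Γ * (Δ ^ Fintype.card T * dt r fun t => ∑ u, A u t • W u) := by ring
    _ = _ := by rw [e]; ring

end det

end Pool.Agent.Helper49.LN
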