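import Pool.Agent.Helper49.LN.KeyPt
import Pool.Agent.Helper49.LN.Choice

/-!
# LN: the dichotomy for one moving form, abstract version
-/

set_option autoImplicit false

namespace Pool.Agent.Helper49.LN

open scoped BigOperators
open MvPolynomial
open Pool.Agent.Helper8.LG (Bdd col MinorsVanish)

theorem exists_j {E σ : Type*} [Field E] [Fintype σ] (O : ValuationSubring E) (x y : σ → E)
    (a b : σ) (hab : pl x y a b ≠ 0) (m : σ) (hm : x m ≠ 0) (hx : ∀ l, xt x m l ∈ O) :
    ∃ j, Loc O x y m j := by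
  have hy : ∃ j, pl x y m j ≠ 0 := by
    by_contra hcon
    push Not at hcon
    apply hab
    have h1 : ∀ l, x m * y l = x l * y m := fun l => by
      have := hcon l
      unfold pl at this
      exact sub_eq_zero.1 this
    have h2 : x m * pl x y a b = 0 := by
      unfold pl
      have ha := h1 a
      have hb := h1 b
      calc x m * (x a * y b - x b * y a) = x a * (x m * y b) - x b * (x m * y a) := by ring
        _ = 0 := by rw [ha, hb]; ring
    rcases mul_eq_zero.1 h2 with h | h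
    · exact absurd h hm
    · exact h
  obtain ⟨j₀, hj₀⟩ := hy
  obtain ⟨j, hj, hj2⟩ := Pool.Agent.Helper74.LG.exists_max_coord O (fun l => pl x y m l) j₀ hj₀
  exact ⟨j, hm, hx, hj, hj2⟩

theorem ka_w {E : Type*} [Field E] (lam D N : E) (hlam : lam ≠ 0) (q p k c kw a : ℕ)
    (h : D * lam ^ (q + p) = lam ^ (k + a) * N) (hk : p + c = k) (hc : c ≤ kw) :
    D * lam ^ q = lam ^ (kw + a) * (lam⁻¹ ^ (kw - c) * N) := by
  refine mul_right_cancel₀ (pow_ne_zero p hlam) ?_
  obtain ⟨s, hs⟩ : ∃ s, kw = c + s := ⟨kw - c, by omega⟩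
  have h1 : kw - c = s := by omega
  have h2 : lam ^ s * lam⁻¹ ^ s = 1 := by
    rw [← mul_pow, mul_inv_cancel₀ hlam, one_pow]
  rw [h1, hs]
  calc D * lam ^ q * lam ^ p = D * lam ^ (q + p) := by rw [pow_add]; ring
    _ = lam ^ (k + a) * N := h
    _ = lam ^ (c + a) * lam ^ p * 1 * N := by rw [← hk]; ring
    _ = lam ^ (c + a) * lam ^ p * (lam ^ s * lam⁻¹ ^ s) * N := by rw [h2]
    _ = lam ^ (c + s + a) * (lam⁻¹ ^ s * N) * lam ^ p := by ring

/-- the easy case -/
theorem ka_easy {E : Type*} [Field E] (O : ValuationSubring E) (G lam Δ : E)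
    (k i t q k₁ : ℕ) (h : k + i + t + 1 ≤ q) (hlam : lam ≠ 0) (hl : lam⁻¹ ∈ O)
    (H : ∃ w ∈ O, Δ ^ k₁ * G * lam ^ q = lam ^ (k + i + t) * w) : Δ ^ k₁ * G * lam ∈ O := by
  obtain ⟨w, hw, e⟩ := H
  obtain ⟨M, hM⟩ : ∃ M : ℕ, q = M + (k + i + t + 1) := ⟨q - (k + i + t + 1), by omega⟩
  have key : Δ ^ k₁ * G * lam = (lam⁻¹) ^ M * w := by
    refine mul_right_cancel₀ (pow_ne_zero q hlam) ?_
    have h3 : (lam⁻¹) ^ M * lam ^ M = 1 := by
      rw [← mul_pow, inv_mul_cancel₀ hlam, one_pow]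
    calc Δ ^ k₁ * G * lam * lam ^ q = (Δ ^ k₁ * G * lam ^ q) * lam := by ring
      _ = lam ^ (k + i + t) * w * lam := by rw [e]
      _ = 1 * (lam ^ (k + i + t + 1) * w) := by ring
      _ = ((lam⁻¹) ^ M * lam ^ M) * (lam ^ (k + i + t + 1) * w) := by rw [h3]
      _ = (lam⁻¹) ^ M * w * lam ^ (M + (k + i + t + 1)) := by ring
      _ = (lam⁻¹) ^ M * w * lam ^ q := by rw [← hM]
  rw [key]
  exact mul_mem (pow_mem hl M) hw

section

variable {E : Type*} [Field E] {σ : Type*} [Fintype σ] [DecidableEq σ] {κ : Type*}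

theorem ka_comp {M M' : Type*} [AddCommGroup M] [Module E M] [AddCommGroup M'] [Module E M']
    {q : ℕ} (V : Sym σ q → M) (φ : M →ₗ[E] M') (f : MvPolynomial σ E) :
    φ (cP V f) = cP (fun J => φ (V J)) f := by
  rw [cP_apply, cP_apply, map_sum]
  simp only [map_smul]

/-- the projection of the rows of a flag to those of the point -/
def fp : ((σ ⊕ σ) ⊕ κ → E) →ₗ[E] (σ ⊕ κ → E) := LinearMap.funLeft E E (Sum.map Sum.inl id)

omit [Fintype σ] [DecidableEq σ] in
theorem fp_tr (u v : σ → E) (w : κ → E) : fp (tr u v w) = Sum.elim u w := by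
  funext r
  rcases r with l | k <;> rfl

omit [Fintype σ] [DecidableEq σ] in
theorem fp_fv {n : ℕ} (D : Sym σ (n + 1) → Derivation ℤ E E) (x y : σ → E)
    (g : Sym σ (n + 1) → κ → E) (J : Sym σ (n + 1)) : fp (fv D x y g J) = pv D x g J := by
  funext r
  rcases r with l | k <;> rfl

end

/-- **The dichotomy.** -/
theorem key_abs {E : Type*} [Field E] [CharZero E] {σ : Type*} [Fintype σ] [DecidableEq σ]
    {κ : Type*} [Fintype κ] [DecidableEq κ] {n : ℕ}
    (D : Sym σ (n + 1) → Derivation ℤ E E) (x : σ → E) (i₀ : σ) (hx : x i₀ = 1)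
    (g : Sym σ (n + 1) → κ → E) (ε : κ → E) (lam : (σ ⊕ κ → E) →ₗ[E] E)
    (hl0 : lam (pe x ε) = 0) (hl1 : ∀ f ∈ Ipt x, lam (cP (pv D x g) f) = 0)
    (hu : lam (la (E := E) (pv D x g) i₀) ≠ 0) (kw T z : ℕ) (hkw : kw ≤ Fintype.card σ)
    (hS : Module.finrank E (Submodule.span E (Set.range (col D x))) ≤ kw)
    (h10 : 2 * Fintype.card σ + kw + Fintype.card κ + 52 ≤ 10 * (n + 1) ∨
      kw = Fintype.card σ)
    (hq : 3 * kw + Fintype.card κ ≤ 2 * (n + 1)) (hT : T + z + 2 ≤ n + 1) :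
    (∃ G : E, G ≠ 0 ∧ ∀ (O : ValuationSubring E) (Δ : E) (m : σ) (g' : Sym σ (n + 1) → κ → E),
      x m ≠ 0 → (∀ l, xt x m l ∈ O) → LocG O Δ D x m g g' ε →
      Δ ^ (5 * (Fintype.card σ + Fintype.card κ) ^ 3) * (G * x m) ∈ O) ∨
    ∃ y : σ → E, (∃ j l, pl x y j l ≠ 0) ∧
      Module.finrank E ↥(Submodule.span E (Set.range (b3 x y ε)) ⊔
        IC (fv D x y g) (Il (pl x y))) + (T + z + 1) ≤
      Module.finrank E ↥(Submodule.span E (Set.range (b3 x y ε)) ⊔
        IC (E := E) (fv D x y g) ⊤) := by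
  classical
  have hk1 : 1 ≤ Fintype.card σ := Fintype.card_pos_iff.2 ⟨i₀⟩
  have hkk : Fintype.card σ + Fintype.card κ ≤ 5 * (Fintype.card σ + Fintype.card κ) ^ 3 := by
    have h1 : Fintype.card σ + Fintype.card κ ≤ (Fintype.card σ + Fintype.card κ) ^ 3 :=
      Nat.le_self_pow (by norm_num) _
    omega
  have he0 : pe x ε ≠ 0 := by
    intro h
    have h1 : pe x ε (Sum.inl i₀) = 0 := by rw [h]; rfl
    have h2 : pe x ε (Sum.inl i₀) = x i₀ := rfl
    rw [h2, hx] at h1
    exact one_ne_zero h1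
  obtain ⟨S, hSd⟩ : ∃ S, S = Submodule.span E (Set.range (col D x)) := ⟨_, rfl⟩
  have hS0 : (fun l => pe x ε (Sum.inl l)) ∈ S := by
    rw [hSd]
    exact Submodule.subset_span ⟨none, rfl⟩
  have hSV : ∀ J, (fun l => pv D x g J (Sum.inl l)) ∈ S := by
    intro J
    rw [hSd]
    exact Submodule.subset_span ⟨some J, rfl⟩
  rw [← hSd] at hS
  obtain ⟨i, t, β, f, hlin, hspan, hline⟩ := ex_point (pv D x g) (pe x ε) he0 x i₀ hx
  have hlin' := indep_right _ hlin (Fin.elim0 : Fin 0 → σ ⊕ κ → E)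
  obtain ⟨p, u, e, f', rr, hp, hdt⟩ := point_complete (pv D x g) (pe x ε) x i₀ lam hl0 hl1 hu S
    hS0 hSV β _ (fun s => ⟨_, sg_mem x i₀ (f s), rfl⟩) _ (fun s => s.elim0) hlin'
  have hcard := Fintype.card_congr rr
  simp only [Fintype.card_sum, Fintype.card_prod, Fintype.card_fin] at hcard
  have hit : 2 * i + t + 2 ≤ kw + Fintype.card κ := by omega
  by_cases hA : kw + i + t + 1 ≤ n + 1
  · left
    refine ⟨_, hdt, ?_⟩
    intro O Δ m g' hm hxm hG
    have hl : (x m)⁻¹ ∈ O := by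
      have h1 := hxm i₀
      unfold xt at h1
      rw [hx, one_div] at h1
      exact h1
    obtain ⟨N, hN, eq⟩ := g1_det hG hm hxm hx β f e f' rr (by
      intro q hq
      have h1 := hspan q hq
      rw [Set.Sum.elim_range, Set.Sum.elim_range] at h1
      exact h1)
    rw [Fintype.card_sum, add_assoc (Fintype.card σ) i t] at eq
    have h2 := ka_w _ _ _ hm (n + 1) p (Fintype.card σ) (Module.finrank E S) kw (i + t) eq hp hS
    rw [← add_assoc] at h2
    have h3 := ka_easy O _ (x m) Δ kw i t (n + 1) (Fintype.card σ + Fintype.card κ) hA hm hl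
      ⟨_, mul_mem (pow_mem hl _) hN, h2⟩
    obtain ⟨s, hs⟩ : ∃ s, 5 * (Fintype.card σ + Fintype.card κ) ^ 3 =
      s + (Fintype.card σ + Fintype.card κ) := ⟨_, (Nat.sub_add_cancel hkk).symm⟩
    rw [hs, pow_add, mul_assoc]
    rw [mul_assoc] at h3
    exact mul_mem (pow_mem hG.bdd.1 _) h3
  · have ht : 2 ≤ t := by omega
    obtain ⟨y, a, ha, hI⟩ := hline ht
    -- the fan
    obtain ⟨K, hK, -, hlinK, hspanK⟩ := ex_fan (pv D x g) _ f x y i₀ a hx ha hlin hspan hI
    have hlinK' := indep_mid _ _ hlinK (Fin.elim0 : Fin 0 → σ ⊕ κ → E)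
    obtain ⟨p₁, u₁, e₁, f₁, rr₁, hp₁, hdt₁⟩ := point_complete (pv D x g) (pe x ε) x i₀ lam hl0
      hl1 hu S hS0 hSV β _ (fun s => s.elim0) _ (fun s => ⟨_, fn_mem x i₀ a (K s), rfl⟩) hlinK'
    -- the flag
    have hcomp : ∀ q : MvPolynomial σ E, fp (cP (fv D x y g) q) = cP (pv D x g) q := by
      intro q
      have h1 : (fun J => fp (fv D x y g J)) = pv D x g := funext fun J => fp_fv D x y g J
      rw [ka_comp, h1]
    obtain ⟨b, r, t', f₂, K₂, f₂', rr₂, hK₂, -, hdt₂, hI₂, hJ₂, hd1, hd2, hd3, hc2⟩ :=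
      ex_flag (fv D x y g) x y ε i₀ a hx ha (lam.comp fp) (by
        intro s
        fin_cases s
        · show lam (fp (tr 0 x 0)) = 0
          rw [fp_tr]
          have : (Sum.elim (0 : σ → E) (0 : κ → E)) = 0 := by
            funext r
            rcases r with l | k <;> rfl
          rw [this, map_zero]
        · show lam (fp (tr x 0 ε)) = 0
          rw [fp_tr]
          exact hl0
        · show lam (fp (tr 0 y 0)) = 0
          rw [fp_tr]
          have : (Sum.elim (0 : σ → E) (0 : κ → E)) = 0 := by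
            funext r
            rcases r with l | k <;> rfl
          rw [this, map_zero]) (by
        intro q hq
        show lam (fp (cP (fv D x y g) q)) = 0
        rw [hcomp]
        exact hl1 q hq) (by
        show lam (fp (cP (fv D x y g) _)) ≠ 0
        rw [hcomp]
        exact hu)
    by_cases hr : T + z ≤ r
    · right
      refine ⟨y, ⟨i₀, a, ha⟩, ?_⟩
      omega
    · left
      have hrk := rk4 D x y g ε
      rw [← hSd] at hrk
      obtain ⟨B, C, M, hM, hch⟩ := choice_pt_w (E := E) (Fintype.card σ) kw (Fintype.card κ)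
        (n + 1) i t b r hkw hk1 h10 hit (by omega) (by omega) hq ht
      refine ⟨dt rr₁ _ ^ B * dt rr₂ _ ^ C / pl x y i₀ a ^ M,
        div_ne_zero (mul_ne_zero (pow_ne_zero _ hdt₁) (pow_ne_zero _ hdt₂))
          (pow_ne_zero _ ha), ?_⟩
      intro O Δ m g' hm hxm hG
      have hl : (x m)⁻¹ ∈ O := by
        have h1 := hxm i₀
        unfold xt at h1
        rw [hx, one_div] at h1
        exact h1
      obtain ⟨j, hL⟩ := exists_j O x y i₀ a ha m hm hxm
      have hδ : pl x y i₀ a / pl x y m j = pl (xt x m) (yt x y m j) i₀ a := by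
        rw [hL.pl_eq i₀ a, mul_div_cancel_left₀ _ hL.hρ]
      obtain ⟨N₁, hN₁, eq₁⟩ := g1_fan hG hL hx ha β K hK e₁ f₁ rr₁ (by
        intro q hq
        have h1 := hI q hq
        rw [Set.Sum.elim_range] at h1
        exact h1) (by
        intro q hq
        have h1 := hspanK q hq
        rw [Set.Sum.elim_range, Set.Sum.elim_range] at h1
        exact h1)
      obtain ⟨N₂, hN₂, eq₂⟩ := g2_det hG hL i₀ a hx ha f₂ K₂ hK₂ f₂' rr₂ hI₂ hJ₂
      rw [Fintype.card_sum, add_assoc (Fintype.card σ) i t, mul_assoc (x m ^ _)] at eq₁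
      have h2 := ka_w _ _ _ hm (n + 1) p₁ (Fintype.card σ) (Module.finrank E S) kw (i + t)
        eq₁ hp₁ hS
      rw [← add_assoc] at h2
      have h4 : Fintype.card ((σ ⊕ σ) ⊕ κ) = 2 * Fintype.card σ + Fintype.card κ := by
        rw [Fintype.card_sum, Fintype.card_sum]
        ring
      rw [h4] at eq₂
      have h6 : ∀ X : E, X = x m ^ (kw + i + t) * ((x m)⁻¹ ^ (kw - Module.finrank E S) *
          (pl (xt x m) (yt x y m j) i₀ a ^ (t * (t + 1) / 2) * N₁)) →
          X = x m ^ (kw + i + t) * (pl x y i₀ a / pl x y m j) ^ (t * (t + 1) / 2) *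
            ((x m)⁻¹ ^ (kw - Module.finrank E S) * N₁) := by
        intro X hX
        rw [hX, hδ]
        ring
      have h7 : ∀ X : E, X * (x m ^ (n + 1) * pl x y m j) =
          x m ^ (2 + r) * pl x y m j ^ (Fintype.card σ + b) *
            pl (xt x m) (yt x y m j) i₀ a ^ (r * (r + 1) / 2) * N₂ →
          X * x m ^ (n + 1) * pl x y m j = x m ^ (2 + r) * pl x y m j ^ (Fintype.card σ + b) *
            (pl x y i₀ a / pl x y m j) ^ (r * (r + 1) / 2) * N₂ := by
        intro X hX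
        rw [hδ, ← hX]
        ring
      have h3 := hch O _ _ (x m) (pl x y m j) Δ (pl x y i₀ a) (Fintype.card σ + Fintype.card κ)
        (2 * Fintype.card σ + Fintype.card κ) hm hL.hρ ha
        (by rw [hδ]; exact hL.pl_mem i₀ a) hl
        ⟨_, mul_mem (pow_mem hl _) hN₁, h6 _ h2⟩ ⟨_, hN₂, h7 _ eq₂⟩
      have h5 := hM (Fintype.card σ + Fintype.card κ) (2 * Fintype.card σ + Fintype.card κ)
        le_rfl le_rfl
      obtain ⟨s, hs⟩ : ∃ s, 5 * (Fintype.card σ + Fintype.card κ) ^ 3 =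
        s + (B * (Fintype.card σ + Fintype.card κ) +
          C * (2 * Fintype.card σ + Fintype.card κ)) := ⟨_, (Nat.sub_add_cancel h5).symm⟩
      rw [hs, pow_add, mul_assoc]
      rw [mul_assoc] at h3
      exact mul_mem (pow_mem hG.bdd.1 _) h3

end Pool.Agent.Helper49.LN
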