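import Pool.Agent.Helper49.LN.KeyAbs
import Pool.Agent.Helper74.LN.Defs
import Pool.Agent.Helper8.LV.KeyFun

/-!
# LN: the dichotomy for one moving form
-/

set_option autoImplicit false

namespace Pool.Agent.Helper49.LN

open scoped BigOperators
open MvPolynomial
open Pool.Agent.Helper8.LG (mon form Ix Bdd Dual RowBdd MinorsVanish col)
open Pool.Agent.Helper8.LV (Fam Mov Over cv eul syz phi exists_functional cv_scale)
open Pool.Agent.Helper74.LN (KeyP)

section

variable {E : Type*} [Field E] {σ ι τ : Type*} [Fintype σ] [DecidableEq σ] [Fintype ι]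
  [DecidableEq ι] [Unique ι]

/-- the extra rows: the logarithmic ones and the corrections -/
abbrev Kp (ι τ : Type*) [Fintype ι] [DecidableEq ι] (Z : Finset ι) :=
  {i : ι // i ∈ (Zᶜ : Finset ι)} ⊕ τ

/-- the extra rows of the columns -/
def gK (n : ι → ℕ) {d : ι → ℕ} (a : (i : ι) → Sym σ (d i) → E)
    (D : Ix σ (fun i => n i + 1) → Derivation ℤ E E)
    (θ : τ → Ix σ (fun i => n i + 1) → E) (Z : Finset ι) (x : σ → E)
    (J : Sym σ (n default + 1)) : Kp ι τ Z → E :=
  Sum.elim (fun i => D ⟨default, J⟩ (form (a i.1) x) / form (a i.1) x)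
    fun j => θ j ⟨default, J⟩

/-- the extra rows of the Euler column -/
def εK (d : ι → ℕ) (Z : Finset ι) : Kp ι τ Z → E :=
  Sum.elim (fun i => (d i.1 : E)) fun _ => 0

/-- insertion of zero rows -/
def ext (Z : Finset ι) : (σ ⊕ Kp ι τ Z → E) →ₗ[E] ((σ ⊕ ι) ⊕ τ → E) :=
  LinearMap.pi fun r => Sum.elim (Sum.elim
    (fun l => (LinearMap.proj (Sum.inl l) : (σ ⊕ Kp ι τ Z → E) →ₗ[E] E))
    (fun i => if h : i ∈ (Zᶜ : Finset ι) then
      (LinearMap.proj (Sum.inr (Sum.inl ⟨i, h⟩)) : (σ ⊕ Kp ι τ Z → E) →ₗ[E] E) else 0))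
    (fun j => (LinearMap.proj (Sum.inr (Sum.inr j)) : (σ ⊕ Kp ι τ Z → E) →ₗ[E] E)) r

omit [Fintype σ] [DecidableEq σ] [Unique ι] in
theorem ext_pe (d : ι → ℕ) (Z : Finset ι) (x : σ → E) :
    ext (τ := τ) Z (pe x (εK d Z)) = eul d Z x := by
  funext r
  rcases r with (l | i) | j
  · rfl
  · by_cases h : i ∈ Z
    · have h1 : i ∉ (Zᶜ : Finset ι) := by simpa using h
      show (if h : i ∈ (Zᶜ : Finset ι) then (LinearMap.proj (Sum.inr (Sum.inl ⟨i, h⟩)) :
        (σ ⊕ Kp ι τ Z → E) →ₗ[E] E) else 0) (pe x (εK d Z)) = if i ∈ Z then 0 else (d i : E)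
      rw [dif_neg h1, if_pos h]
      rfl
    · have h1 : i ∈ (Zᶜ : Finset ι) := by simpa using h
      show (if h : i ∈ (Zᶜ : Finset ι) then (LinearMap.proj (Sum.inr (Sum.inl ⟨i, h⟩)) :
        (σ ⊕ Kp ι τ Z → E) →ₗ[E] E) else 0) (pe x (εK d Z)) = if i ∈ Z then 0 else (d i : E)
      rw [dif_pos h1, if_neg h]
      rfl
  · rfl

theorem ext_pv (n : ι → ℕ) {d : ι → ℕ} (a : (i : ι) → Sym σ (d i) → E)
    (D : Ix σ (fun i => n i + 1) → Derivation ℤ E E)
    (θ : τ → Ix σ (fun i => n i + 1) → E) (Z : Finset ι) (x : σ → E)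
    (J : Sym σ (n default + 1)) :
    ext Z (pv (fun J => D ⟨default, J⟩) x (gK n a D θ Z x) J) = cv n a D θ Z x ⟨default, J⟩ := by
  funext r
  rcases r with (l | i) | j
  · rfl
  · by_cases h : i ∈ Z
    · have h1 : i ∉ (Zᶜ : Finset ι) := by simpa using h
      show (if h : i ∈ (Zᶜ : Finset ι) then (LinearMap.proj (Sum.inr (Sum.inl ⟨i, h⟩)) :
        (σ ⊕ Kp ι τ Z → E) →ₗ[E] E) else 0) _ = if i ∈ Z then 0 else _
      rw [dif_neg h1, if_pos h]
      rfl
    · have h1 : i ∈ (Zᶜ : Finset ι) := by simpa using h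
      show (if h : i ∈ (Zᶜ : Finset ι) then (LinearMap.proj (Sum.inr (Sum.inl ⟨i, h⟩)) :
        (σ ⊕ Kp ι τ Z → E) →ₗ[E] E) else 0) _ = if i ∈ Z then 0 else _
      rw [dif_pos h1, if_neg h]
      rfl
  · rfl

/-- the column of `X^I (x_j X_l - x_l X_j)` -/
theorem cP_hf {M : Type*} [AddCommGroup M] [Module E M] {n : ℕ} (V : Sym σ (n + 1) → M)
    (x : σ → E) (I : Sym σ n) (j l : σ) :
    cP V (mo E (I : Multiset σ) * hf x j l) = x j • V (l ::ₛ I) - x l • V (j ::ₛ I) := by
  have h1 : ∀ k : σ, mo E (I : Multiset σ) * X k = mo E ((k ::ₛ I : Sym σ (n + 1)) :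
      Multiset σ) := by
    intro k
    rw [Sym.coe_cons]
    unfold mo
    rw [Multiset.map_cons, Multiset.prod_cons, mul_comm]
  unfold hf
  rw [mul_sub, mul_smul_comm, mul_smul_comm, map_sub, map_smul, map_smul, h1, h1, cP_mo, cP_mo]

theorem la_eq {M : Type*} [AddCommGroup M] [Module E M] {n : ℕ} (V : Sym σ n → M) (i : σ) :
    la (E := E) V i = V (Sym.replicate n i) := by
  have h1 : (X i : MvPolynomial σ E) ^ n = mo E ((Sym.replicate n i : Sym σ n) : Multiset σ) := by
    unfold mo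
    rw [Sym.coe_replicate, Multiset.map_replicate, Multiset.prod_replicate]
  unfold la
  rw [h1, cP_mo]

variable [Fintype τ]

theorem key_one [CharZero E] (d b : ι → ℕ) (n : ι → ℕ)
    (a A : (i : ι) → Sym σ (d i) → E) (p : (i : ι) → Sym σ (b i) → E)
    (h : (i : ι) → Sym σ (n i + 1) → E) (D : Ix σ (fun i => n i + 1) → Derivation ℤ E E)
    (jj : τ → Ix σ (fun i => n i + 1)) (θ : τ → Ix σ (fun i => n i + 1) → E)
    (hD : Dual (fun i => n i + 1) h D jj θ) (hM : Mov d b (fun i => n i + 1) a A p h D)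
    (Z : Finset ι) (x : σ → E) (i₀ : σ) (hx : x i₀ = 1)
    (hZ : ∀ i ∈ Z, form (a i) x = 0) (hU : ∀ i ∉ Z, form (a i) x ≠ 0)
    (hP : ∀ i, form (p i) x ≠ 0) (w T : ℕ)
    (h0 : w + 1 = Fintype.card σ ∨
      2 * Fintype.card σ + w + Fintype.card τ + Zᶜ.card + 53 ≤ 10 * (n default + 1))
    (h1 : 3 * w + 3 + Zᶜ.card + Fintype.card τ ≤ 2 * (n default + 1))
    (h2 : T + Zᶜ.card + 2 ≤ n default + 1) (hmw : MinorsVanish D x w) :
    (∃ G : E, G ≠ 0 ∧
      KeyP (5 * (Fintype.card σ + Fintype.card ι + Fintype.card τ) ^ 3) d a D θ Z x G) ∨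
      ∃ y : σ → E, (∃ j l, pl x y j l ≠ 0) ∧
        Module.finrank E ↥(Submodule.span E (Set.range (b3 x y (εK (τ := τ) d Z))) ⊔
          IC (fv (fun J => D ⟨default, J⟩) x y (gK n a D θ Z x)) (Il (pl x y))) +
            (T + Fintype.card {i : ι // i ∈ (Zᶜ : Finset ι)} + 1) ≤
        Module.finrank E ↥(Submodule.span E (Set.range (b3 x y (εK (τ := τ) d Z))) ⊔
          IC (E := E) (fv (fun J => D ⟨default, J⟩) x y (gK n a D θ Z x)) ⊤) := by
  classical
  have hcz : Fintype.card {i : ι // i ∈ (Zᶜ : Finset ι)} = Zᶜ.card := Fintype.card_coe _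
  have hck : Fintype.card (Kp ι τ Z) = Zᶜ.card + Fintype.card τ := by
    rw [Fintype.card_sum, hcz]
  have hcu : Zᶜ.card ≤ Fintype.card ι := Finset.card_le_univ _
  obtain ⟨lam, hl1, hl2, hl3⟩ := exists_functional n a A p h D jj θ hD hM Z x hZ hU
  let lam' : (σ ⊕ Kp ι τ Z → E) →ₗ[E] E := (LinearMap.proj default).comp (lam.comp (ext Z))
  have hlv : ∀ J, lam' (pv (fun J => D ⟨default, J⟩) x (gK n a D θ Z x) J) =
      -(form (p default) x * mon x J) := by
    intro J
    show lam (ext Z _) default = _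
    rw [ext_pv, hl2, Pi.single_eq_same]
  have hmon : ∀ (k : σ) (I : Sym σ (n default)), mon x (k ::ₛ I) = x k * mon x I := by
    intro k I
    unfold mon
    rw [Sym.coe_cons, Multiset.map_cons, Multiset.prod_cons]
  have hmem : ∀ f ∈ Ipt x, lam' (cP (pv (fun J => D ⟨default, J⟩) x (gK n a D θ Z x)) f) = 0 := by
    intro f hff
    have h3 : cP (pv (fun J => D ⟨default, J⟩) x (gK n a D θ Z x)) f ∈ LinearMap.ker lam' := by
      refine cP_ideal_mem _ _ (n default) 1 rfl (fun p : σ × σ => hf x p.1 p.2)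
        (fun p => hf_hom x p.1 p.2) (fun p I => ?_) f hff
      rw [cP_hf, LinearMap.mem_ker, map_sub, map_smul, map_smul, hlv, hlv, hmon, hmon]
      simp only [smul_eq_mul]
      ring
    exact h3
  have hla : lam' (la (E := E) (pv (fun J => D ⟨default, J⟩) x (gK n a D θ Z x)) i₀) ≠ 0 := by
    rw [la_eq, hlv]
    have h3 : mon x (Sym.replicate (n default + 1) i₀) = 1 := by
      unfold mon
      rw [Sym.coe_replicate, Multiset.map_replicate, Multiset.prod_replicate, hx, one_pow]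
    rw [h3, mul_one, neg_ne_zero]
    exact hP default
  have hrk : Module.finrank E (Submodule.span E (Set.range
      (col (fun J : Sym σ (n default + 1) => D ⟨default, J⟩) x))) ≤ min (w + 1)
        (Fintype.card σ) := by
    refine le_min ?_ ?_
    · refine rk1 _ x w ?_
      intro r c
      have h3 := hmw r (fun t => (c t).map fun J => ⟨default, J⟩)
      refine Eq.trans ?_ h3
      refine congrArg Matrix.det ?_
      ext s t
      simp only [Matrix.of_apply]
      rcases hct : c t with _ | J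
      · rfl
      · rfl
    · refine le_trans (Submodule.finrank_le _) ?_
      rw [Module.finrank_fintype_fun_eq_card]
  rcases key_abs (fun J : Sym σ (n default + 1) => D ⟨default, J⟩) x i₀ hx (gK n a D θ Z x)
    (εK d Z) lam' (by
      show lam (ext Z _) default = 0
      rw [ext_pe, hl1]
      rfl) hmem hla (min (w + 1) (Fintype.card σ)) T
    (Fintype.card {i : ι // i ∈ (Zᶜ : Finset ι)}) (min_le_right _ _) hrk (by
      rw [hck]
      rcases h0 with h0 | h0
      · right
        rw [← h0, min_self]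
      · left
        have h3 := min_le_left (w + 1) (Fintype.card σ)
        omega) (by
      rw [hck]
      have h3 := min_le_left (w + 1) (Fintype.card σ)
      omega) (by
      rw [hcz]
      exact h2) with ⟨G, hG, hG2⟩ | ⟨y, hy, hfl⟩
  · left
    refine ⟨G, hG, ?_⟩
    intro O Δ hB hθ hR l
    obtain ⟨m, hm, hm2⟩ := Pool.Agent.Helper74.LG.exists_max_coord O x i₀ (by
      rw [hx]
      exact one_ne_zero)
    have h3 := hG2 O Δ m (gK n a D θ Z fun l => x l / x m) hm hm2 ⟨⟨hB.1, fun J => hB.2 _⟩, ?_,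
      ?_, ?_⟩
    · obtain ⟨s, hs⟩ : ∃ s, 5 * (Fintype.card σ + Fintype.card ι + Fintype.card τ) ^ 3 =
          s + 5 * (Fintype.card σ + Fintype.card (Kp ι τ Z)) ^ 3 := by
        refine ⟨_, (Nat.sub_add_cancel ?_).symm⟩
        refine Nat.mul_le_mul_left 5 (Nat.pow_le_pow_left ?_ 3)
        omega
      have h4 : G * x l = G * x m * (x l / x m) := by
        field_simp
      rw [hs, pow_add, h4]
      have h5 : Δ ^ s * Δ ^ (5 * (Fintype.card σ + Fintype.card (Kp ι τ Z)) ^ 3) *
          (G * x m * (x l / x m)) = Δ ^ s *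
          (Δ ^ (5 * (Fintype.card σ + Fintype.card (Kp ι τ Z)) ^ 3) * (G * x m)) *
          (x l / x m) := by ring
      rw [h5]
      exact mul_mem (mul_mem (pow_mem hB.1 _) h3) (hm2 l)
    · intro J
      have h4 := cv_scale n a D θ Z x hU (x m) hm ⟨default, J⟩
      funext k
      rcases k with i | j
      · have hi : i.1 ∉ Z := Finset.mem_compl.1 i.2
        have h5 := congrFun h4 (Sum.inl (Sum.inr i.1))
        have h6 : cv n a D θ Z x ⟨default, J⟩ (Sum.inl (Sum.inr i.1)) =
            D ⟨default, J⟩ (form (a i.1) x) / form (a i.1) x := if_neg hi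
        have h7 : (phi (x m) (cv n a D θ Z (fun l => x l / x m) ⟨default, J⟩) +
            (D ⟨default, J⟩ (x m) / x m) • eul d Z x : (σ ⊕ ι) ⊕ τ → E)
              (Sum.inl (Sum.inr i.1)) =
            1 * (if i.1 ∈ Z then 0 else D ⟨default, J⟩ (form (a i.1) fun l => x l / x m) /
              form (a i.1) fun l => x l / x m) +
            (D ⟨default, J⟩ (x m) / x m) * (if i.1 ∈ Z then 0 else (d i.1 : E)) := rfl
        rw [h6, h7, if_neg hi, if_neg hi, one_mul] at h5
        exact h5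
      · show θ j ⟨default, J⟩ = θ j ⟨default, J⟩ + (D ⟨default, J⟩ (x m) / x m) * 0
        rw [mul_zero, add_zero]
    · intro J k
      rcases k with i | j
      · have hi : i.1 ∉ Z := Finset.mem_compl.1 i.2
        have h4 := (hR i.1 hi m hm hm2).2 ⟨default, J⟩
        rw [pow_zero, div_one, one_mul] at h4
        exact h4
      · exact hθ j _
    · intro k
      rcases k with i | j
      · exact natCast_mem O (d i.1)
      · exact zero_mem O
  · right
    exact ⟨y, hy, hfl⟩

end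

end Pool.Agent.Helper49.LN
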