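import Pool.Agent.Helper49.LN.Rank

/-!
# LN: completion of the columns of a point
-/

set_option autoImplicit false

namespace Pool.Agent.Helper49.LN

open scoped BigOperators
open MvPolynomial
open Pool.Agent.Helper8.LG (Bdd col MinorsVanish)

variable {E : Type*} [Field E] {σ : Type*} [Fintype σ] [DecidableEq σ] {κ : Type*} {n : ℕ}

theorem cP_proj {q : ℕ} (V : Sym σ q → σ ⊕ κ → E) (S : Submodule E (σ → E))
    (hV : ∀ J, (fun l => V J (Sum.inl l)) ∈ S) (f : MvPolynomial σ E) :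
    (fun l => cP V f (Sum.inl l)) ∈ S := by
  have h1 : (fun l => cP V f (Sum.inl l)) =
      ∑ J : Sym σ q, coeff (Multiset.toFinsupp (J : Multiset σ)) f •
        fun l => V J (Sum.inl l) := by
    rw [cP_apply]
    funext l
    simp only [Finset.sum_apply, Pi.smul_apply]
  rw [h1]
  exact sum_mem fun J _ => S.smul_mem _ (hV J)

omit [Fintype σ] [DecidableEq σ] in
theorem indep_right {M A : Type*} [AddCommGroup M] [Module E M] (v : A → M)
    (hv : LinearIndependent E v) (w : Fin 0 → M) : LinearIndependent E (Sum.elim v w) := by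
  refine hv.sum_type linearIndependent_empty_type ?_
  rw [Set.range_eq_empty w, Submodule.span_empty]
  exact disjoint_bot_right

omit [Fintype σ] [DecidableEq σ] in
theorem indep_mid {M A B : Type*} [AddCommGroup M] [Module E M] (v : A → M) (u : B → M)
    (hv : LinearIndependent E (Sum.elim v u)) (w : Fin 0 → M) :
    LinearIndependent E (Sum.elim (Sum.elim v w) u) := by
  let f : (A ⊕ Fin 0) ⊕ B → A ⊕ B := Sum.elim (Sum.elim Sum.inl fun s => s.elim0) Sum.inr
  have hf : Function.Injective f := by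
    rintro ((a | s) | b) ((a' | s') | b') h
    · rw [Sum.inl.inj h]
    · exact s'.elim0
    · exact absurd h Sum.inl_ne_inr
    · exact s.elim0
    · exact s.elim0
    · exact s.elim0
    · exact absurd h Sum.inr_ne_inl
    · exact s'.elim0
    · rw [Sum.inr.inj h]
  have h1 := hv.comp f hf
  have h2 : Sum.elim (Sum.elim v w) u = Sum.elim v u ∘ f := by
    funext s
    rcases s with (a | s) | b
    · rfl
    · exact s.elim0
    · rfl
  rw [h2]
  exact h1

variable [Fintype κ] [DecidableEq κ]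

theorem point_complete (V : Sym σ (n + 1) → σ ⊕ κ → E) (e₀ : σ ⊕ κ → E) (x : σ → E) (i₀ : σ)
    (lam : (σ ⊕ κ → E) →ₗ[E] E) (hl0 : lam e₀ = 0) (hl1 : ∀ g ∈ Ipt x, lam (cP V g) = 0)
    (hu : lam (la (E := E) V i₀) ≠ 0) (S : Submodule E (σ → E))
    (hS0 : (fun l => e₀ (Sum.inl l)) ∈ S) (hSV : ∀ J, (fun l => V J (Sum.inl l)) ∈ S)
    {i t r : ℕ} (β : Fin i → (Sym σ n × Sym σ n) × (σ × σ)) (v1 : Fin t → σ ⊕ κ → E)
    (h1 : ∀ s, ∃ g ∈ Ipt x, v1 s = cP V g) (v2 : Fin r → σ ⊕ κ → E)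
    (h2 : ∀ s, ∃ g ∈ Ipt x, v2 s = cP V g)
    (hlin : LinearIndependent E (Sum.elim (Sum.elim (Sum.elim (fun _ : Fin 1 => e₀)
      (fun p : Fin i × Fin 2 => bl V x i₀ (β p.1) p.2)) v1) v2)) :
    ∃ (p u : ℕ) (e : Fin p → σ) (f' : Fin u → σ ⊕ κ)
      (rr : TT (Fin 1) (Fin i) (Fin t) (Fin r) (Fin 1 ⊕ Fin p) (Fin u) ≃ σ ⊕ κ),
      p + Module.finrank E S = Fintype.card σ ∧
      dt rr (vv (fun _ => e₀) (fun p => bl V x i₀ (β p.1) p.2) v1 v2
        (Sum.elim (fun _ => la (E := E) V i₀) fun s => uv (Sum.inl (e s)))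
        fun s => uv (f' s)) ≠ 0 := by
  have hbl : ∀ p : Fin i × Fin 2, ∃ g ∈ Ipt x, bl V x i₀ (β p.1) p.2 = cP V g := fun p =>
    ⟨_, bl_mem x i₀ (β p.1) p.2, rfl⟩
  have hP : ∀ v, (∃ g ∈ Ipt x, v = cP V g) → (fun l => v (Sum.inl l)) ∈ S := by
    rintro _ ⟨g, -, rfl⟩
    exact cP_proj V S hSV g
  have hL : ∀ v, (∃ g ∈ Ipt x, v = cP V g) → lam v = 0 := by
    rintro _ ⟨g, hg, rfl⟩
    exact hl1 g hg
  obtain ⟨p, u, e, f, rr, e1, e2⟩ := rk3 _ hlin lam (by
    rintro (((s | s) | s) | s)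
    · exact hl0
    · exact hL _ (hbl s)
    · exact hL _ (h1 s)
    · exact hL _ (h2 s)) (la (E := E) V i₀) hu S (by
    rintro (((s | s) | s) | s)
    · exact hS0
    · exact hP _ (hbl s)
    · exact hP _ (h1 s)
    · exact hP _ (h2 s)) (cP_proj V S hSV _)
  exact ⟨p, u, e, f, rr, e1, e2⟩

end Pool.Agent.Helper49.LN
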