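import Pool.Agent.Helper49.LN.Poly

/-!
# LN: the ideal of a line

`Lf P j l m = P_jl X_m - P_jm X_l + P_lm X_j`, `P = x ∧ y`; `Il P` is the ideal generated by them.
-/

set_option autoImplicit false

namespace Pool.Agent.Helper49.LN

open scoped BigOperators
open MvPolynomial

variable {E : Type*} [Field E] {σ : Type*}

/-- the Pluecker coordinates of the line through `x` and `y` -/
def pl (x y : σ → E) (j l : σ) : E := x j * y l - x l * y j

/-- the linear forms vanishing on the line -/
noncomputable def Lf (P : σ → σ → E) (s : σ × σ × σ) : MvPolynomial σ E :=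
  P s.1 s.2.1 • X s.2.2 - P s.1 s.2.2 • X s.2.1 + P s.2.1 s.2.2 • X s.1

theorem Lf_hom (P : σ → σ → E) (s : σ × σ × σ) : (Lf P s).IsHomogeneous 1 := by
  have h : ∀ (a : E) (i : σ), (a • (X i : MvPolynomial σ E)).IsHomogeneous 1 := by
    intro a i
    rw [smul_eq_C_mul]
    have h1 := (isHomogeneous_C σ a).mul (isHomogeneous_X E i)
    rwa [zero_add] at h1
  exact ((h _ _).sub (h _ _)).add (h _ _)

/-- the ideal of the line -/
noncomputable def Il (P : σ → σ → E) : Ideal (MvPolynomial σ E) := Ideal.span (Set.range (Lf P))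

theorem Lf_mem (P : σ → σ → E) (s : σ × σ × σ) : Lf P s ∈ Il P := Ideal.subset_span ⟨s, rfl⟩

/-- scaling of the Pluecker coordinates -/
theorem Lf_smul (ρ : E) (P P' : σ → σ → E) (h : ∀ j l, P j l = ρ * P' j l) (s : σ × σ × σ) :
    Lf P s = ρ • Lf P' s := by
  unfold Lf
  rw [h, h, h]
  simp only [mul_smul, smul_add, smul_sub]

theorem Il_smul (ρ : E) (hρ : ρ ≠ 0) (P P' : σ → σ → E) (h : ∀ j l, P j l = ρ * P' j l) :
    Il P = Il P' := by
  apply le_antisymm
  · unfold Il
    rw [Ideal.span_le]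
    rintro _ ⟨s, rfl⟩
    rw [Lf_smul ρ P P' h, smul_eq_C_mul]
    exact Ideal.mul_mem_left _ _ (Lf_mem P' s)
  · unfold Il
    rw [Ideal.span_le]
    rintro _ ⟨s, rfl⟩
    have h1 : Lf P' s = ρ⁻¹ • Lf P s := by
      rw [Lf_smul ρ P P' h, smul_smul, inv_mul_cancel₀ hρ, one_smul]
    rw [h1, smul_eq_C_mul]
    exact Ideal.mul_mem_left _ _ (Lf_mem P s)

/-- modulo the ideal of the line every variable is a combination of `X_a` and `X_b` -/
theorem X_mod (P : σ → σ → E) (hPs : ∀ j l, P l j = -P j l) (a b : σ) (hab : P a b ≠ 0) (l : σ) :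
    (X l : MvPolynomial σ E) - ((P l b / P a b) • X a + (P a l / P a b) • X b) ∈ Il P := by
  have h1 : (X l : MvPolynomial σ E) - ((P l b / P a b) • X a + (P a l / P a b) • X b) =
      C (P a b)⁻¹ * Lf P (a, b, l) := by
    unfold Lf
    rw [← smul_eq_C_mul]
    simp only [smul_add, smul_sub, smul_smul]
    rw [inv_mul_cancel₀ hab, one_smul, hPs b l]
    simp only [div_eq_mul_inv, mul_neg, neg_smul, neg_mul]
    rw [hPs l b]
    simp only [neg_mul, neg_smul, mul_neg, mul_comm (P a b)⁻¹]
    abel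
  rw [h1]
  exact Ideal.mul_mem_left _ _ (Lf_mem P _)

/-- the reduction of a variable at a point `x` with `x_m = 1` and a second point `y` with
`y_m = 0`, `y_j = 1` -/
theorem X_mod_std (x y : σ → E) (m j : σ) (hxm : x m = 1) (hym : y m = 0) (hyj : y j = 1) (a : σ) :
    (X a : MvPolynomial σ E) - (x a • X m + y a • (X j - x j • X m)) ∈ Il (pl x y) := by
  have h1 : (X a : MvPolynomial σ E) - (x a • X m + y a • (X j - x j • X m)) =
      Lf (pl x y) (m, j, a) := by
    unfold Lf pl
    simp only [hxm, hym, hyj]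
    module
  rw [h1]
  exact Lf_mem _ _

/-- the linear form `x_a X_b - x_b X_a` -/
noncomputable def hf (x : σ → E) (a b : σ) : MvPolynomial σ E := x a • X b - x b • X a

theorem hf_hom (x : σ → E) (a b : σ) : (hf x a b).IsHomogeneous 1 := by
  have h : ∀ (c : E) (i : σ), (c • (X i : MvPolynomial σ E)).IsHomogeneous 1 := by
    intro c i
    rw [smul_eq_C_mul]
    have h1 := (isHomogeneous_C σ c).mul (isHomogeneous_X E i)
    rwa [zero_add] at h1
  exact (h _ _).sub (h _ _)

theorem smul_mem_Il (P : σ → σ → E) (c : E) {f : MvPolynomial σ E} (hf : f ∈ Il P) :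
    c • f ∈ Il P := by
  rw [smul_eq_C_mul]
  exact Ideal.mul_mem_left _ _ hf

/-- `x_a X_b - x_b X_a` is a multiple of `X_j - x_j X_m` modulo the ideal of the line -/
theorem hf_mod_std (x y : σ → E) (m j : σ) (hxm : x m = 1) (hym : y m = 0) (hyj : y j = 1)
    (a b : σ) :
    hf x a b - pl x y a b • (X j - x j • X m) ∈ Il (pl x y) := by
  have ha := X_mod_std x y m j hxm hym hyj a
  have hb := X_mod_std x y m j hxm hym hyj b
  have h1 : hf x a b - pl x y a b • ((X j : MvPolynomial σ E) - x j • X m) =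
      x a • ((X b : MvPolynomial σ E) - (x b • X m + y b • (X j - x j • X m))) -
      x b • ((X a : MvPolynomial σ E) - (x a • X m + y a • (X j - x j • X m))) := by
    unfold hf pl
    module
  rw [h1]
  exact Ideal.sub_mem _ (smul_mem_Il _ _ hb) (smul_mem_Il _ _ ha)

/-- `x_j X_l - x_l X_j` is a multiple of `x_a X_b - x_b X_a` modulo the ideal of the line -/
theorem hf_mod (x y : σ → E) (a b : σ) (hab : pl x y a b ≠ 0) (j l : σ) :
    hf x j l - (pl x y j l / pl x y a b) • hf x a b ∈ Il (pl x y) := by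
  have hs : ∀ j l, pl x y l j = -pl x y j l := fun j l => by
    unfold pl
    ring
  have hj := X_mod (pl x y) hs a b hab j
  have hl := X_mod (pl x y) hs a b hab l
  have h1 : hf x j l - (pl x y j l / pl x y a b) • hf x a b =
      x j • ((X l : MvPolynomial σ E) - ((pl x y l b / pl x y a b) • X a +
        (pl x y a l / pl x y a b) • X b)) -
      x l • ((X j : MvPolynomial σ E) - ((pl x y j b / pl x y a b) • X a +
        (pl x y a j / pl x y a b) • X b)) := by
    have e1 : x j * (pl x y l b / pl x y a b) - x l * (pl x y j b / pl x y a b) =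
        -(pl x y j l / pl x y a b * x b) := by
      field_simp
      unfold pl
      ring
    have e2 : x j * (pl x y a l / pl x y a b) - x l * (pl x y a j / pl x y a b) =
        pl x y j l / pl x y a b * x a := by
      field_simp
      unfold pl
      ring
    have h2 : x j • ((X l : MvPolynomial σ E) - ((pl x y l b / pl x y a b) • X a +
        (pl x y a l / pl x y a b) • X b)) -
      x l • ((X j : MvPolynomial σ E) - ((pl x y j b / pl x y a b) • X a +
        (pl x y a j / pl x y a b) • X b)) =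
        x j • (X l : MvPolynomial σ E) - x l • X j -
        ((x j * (pl x y l b / pl x y a b) - x l * (pl x y j b / pl x y a b)) • X a +
        (x j * (pl x y a l / pl x y a b) - x l * (pl x y a j / pl x y a b)) • X b) := by
      simp only [smul_sub, smul_add, smul_smul, sub_smul]
      abel
    rw [h2, e1, e2]
    unfold hf
    simp only [smul_sub, smul_smul, neg_smul]
    abel
  rw [h1]
  exact Ideal.sub_mem _ (smul_mem_Il _ _ hl) (smul_mem_Il _ _ hj)

/-- binary forms in `X_a`, `X_b` modulo the ideal of the line -/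
noncomputable def Bk (P : σ → σ → E) (a b : σ) (k : ℕ) : Submodule E (MvPolynomial σ E) :=
  Submodule.span E (Set.range fun i : Fin (k + 1) =>
    (X a ^ (k - (i : ℕ)) * X b ^ (i : ℕ) : MvPolynomial σ E)) ⊔ (Il P).restrictScalars E

theorem Bk_mul (P : σ → σ → E) (hPs : ∀ j l, P l j = -P j l) (a b : σ) (hab : P a b ≠ 0)
    (k : ℕ) (l : σ) (f : MvPolynomial σ E) (hf : f ∈ Bk P a b k) : X l * f ∈ Bk P a b (k + 1) := by
  obtain ⟨g, hg, w, hw, rfl⟩ := Submodule.mem_sup.1 hf
  have hI : ∀ w' ∈ Il P, w' ∈ Bk P a b (k + 1) := fun w' hw' => Submodule.mem_sup_right hw'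
  rw [mul_add]
  refine add_mem ?_ (hI _ (Ideal.mul_mem_left _ _ hw))
  clear hf
  induction hg using Submodule.span_induction with
  | mem g hg =>
    obtain ⟨i, rfl⟩ := hg
    have h1 := X_mod P hPs a b hab l
    have h2 : X l * (X a ^ (k - (i : ℕ)) * X b ^ (i : ℕ) : MvPolynomial σ E) =
        (P l b / P a b) • (X a ^ (k + 1 - (i : ℕ)) * X b ^ (i : ℕ)) +
        (P a l / P a b) • (X a ^ (k + 1 - ((i : ℕ) + 1)) * X b ^ ((i : ℕ) + 1)) +
        ((X l : MvPolynomial σ E) - ((P l b / P a b) • X a + (P a l / P a b) • X b)) *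
          (X a ^ (k - (i : ℕ)) * X b ^ (i : ℕ)) := by
      have h3 : k + 1 - (i : ℕ) = (k - (i : ℕ)) + 1 := by
        have := i.is_le
        omega
      have h4 : k + 1 - ((i : ℕ) + 1) = k - (i : ℕ) := by omega
      rw [h3, h4]
      simp only [smul_eq_C_mul]
      ring
    rw [h2]
    refine add_mem (add_mem ?_ ?_) (hI _ (Ideal.mul_mem_right _ _ h1))
    · refine Submodule.smul_mem _ _ (Submodule.mem_sup_left (Submodule.subset_span
        ⟨⟨i, by have := i.is_le; omega⟩, rfl⟩))
    · refine Submodule.smul_mem _ _ (Submodule.mem_sup_left (Submodule.subset_span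
        ⟨⟨(i : ℕ) + 1, by have := i.is_le; omega⟩, rfl⟩))
  | zero =>
    rw [mul_zero]
    exact zero_mem _
  | add g g' _ _ ih ih' =>
    rw [mul_add]
    exact add_mem ih ih'
  | smul c g _ ih =>
    rw [mul_smul_comm]
    exact Submodule.smul_mem _ _ ih

theorem mo_mem_Bk (P : σ → σ → E) (hPs : ∀ j l, P l j = -P j l) (a b : σ) (hab : P a b ≠ 0)
    (K : Multiset σ) : mo E K ∈ Bk P a b (Multiset.card K) := by
  induction K using Multiset.induction_on with
  | empty =>
    refine Submodule.mem_sup_left (Submodule.subset_span ⟨0, ?_⟩)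
    simp [mo]
  | cons l K ih =>
    have h1 : mo E (l ::ₘ K) = X l * mo E K := by
      unfold mo
      rw [Multiset.map_cons, Multiset.prod_cons]
    rw [h1, Multiset.card_cons]
    exact Bk_mul P hPs a b hab _ l _ ih

/-- modulo the columns of the ideal of the line, the columns of the multiples of `h` are spanned by
those of the binary monomials times `h` -/
theorem span_bin [Fintype σ] [DecidableEq σ] {V : Type*} [AddCommGroup V] [Module E V] {n : ℕ}
    (v : Sym σ n → V) (W : Submodule E V) (P : σ → σ → E) (hPs : ∀ j l, P l j = -P j l) (a b : σ)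
    (hab : P a b ≠ 0) (hW : ∀ f ∈ Il P, cP v f ∈ W) (k e : ℕ) (hn : k + e = n)
    (h : MvPolynomial σ E) (hh : h.IsHomogeneous e) (f : MvPolynomial σ E) :
    cP v (f * h) ∈ W ⊔ Submodule.span E (Set.range fun i : Fin (k + 1) =>
      cP v (X a ^ (k - (i : ℕ)) * X b ^ (i : ℕ) * h)) := by
  refine cP_mul_mem v _ k e hn h hh (fun I => ?_) f
  have h1 := mo_mem_Bk P hPs a b hab (I : Multiset σ)
  rw [Sym.card_coe] at h1
  obtain ⟨g, hg, w, hw, h2⟩ := Submodule.mem_sup.1 h1
  rw [← h2, add_mul, map_add]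
  refine add_mem ?_ (Submodule.mem_sup_left (hW _ (Ideal.mul_mem_right _ _ hw)))
  refine Submodule.mem_sup_right ?_
  clear h1 h2
  induction hg using Submodule.span_induction with
  | mem g hg =>
    obtain ⟨i, rfl⟩ := hg
    exact Submodule.subset_span ⟨i, rfl⟩
  | zero =>
    rw [zero_mul, map_zero]
    exact zero_mem _
  | add g g' _ _ ih ih' =>
    rw [add_mul, map_add]
    exact add_mem ih ih'
  | smul c g _ ih =>
    rw [smul_mul_assoc, map_smul]
    exact Submodule.smul_mem _ _ ih

/-- the ideal of the point `x` -/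
noncomputable def Ipt (x : σ → E) : Ideal (MvPolynomial σ E) :=
  Ideal.span (Set.range fun p : σ × σ => hf x p.1 p.2)

/-- `X_i^n` and `X_m^n` agree up to scaling modulo the ideal of the point -/
theorem pow_mod (x : σ → E) (i m : σ) (hi : x i = 1) (hm : x m ≠ 0) (n : ℕ) :
    (X i ^ n : MvPolynomial σ E) - (x m ^ n)⁻¹ • X m ^ n ∈ Ipt x := by
  have h1 : (X i : MvPolynomial σ E) - (x m)⁻¹ • X m = (x m)⁻¹ • hf x m i := by
    unfold hf
    rw [hi, smul_sub, smul_smul, inv_mul_cancel₀ hm]
    simp only [one_smul]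
  have h2 : (x m ^ n)⁻¹ • (X m ^ n : MvPolynomial σ E) = ((x m)⁻¹ • X m) ^ n := by
    rw [smul_pow, inv_pow]
  rw [h2]
  obtain ⟨g, hg⟩ := sub_dvd_pow_sub_pow (X i : MvPolynomial σ E) ((x m)⁻¹ • X m) n
  rw [hg, h1, smul_eq_C_mul, mul_assoc]
  refine Ideal.mul_mem_left _ _ (Ideal.mul_mem_right _ _ ?_)
  exact Ideal.subset_span ⟨(m, i), rfl⟩

end Pool.Agent.Helper49.LN
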