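import Pool.Agent.Helper49.LN.Line
import Pool.Agent.Helper49.LN.DetMain

/-!
# LN: the standard basis of a line at a valuation ring, columns of a point and of a flag
-/

set_option autoImplicit false

namespace Pool.Agent.Helper49.LN

open scoped BigOperators
open MvPolynomial
open Pool.Agent.Helper8.LG (Bdd)

variable {E : Type*} [Field E] {σ : Type*}

/-- the point `x / x_m` -/
def xt (x : σ → E) (m : σ) (l : σ) : E := x l / x m

/-- the second point of the standard basis -/
def yt (x y : σ → E) (m j : σ) (l : σ) : E := pl x y m l / pl x y m j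

/-- `x_m` is maximal, `P_mj` is maximal among the `P_ml` -/
structure Loc (O : ValuationSubring E) (x y : σ → E) (m j : σ) : Prop where
  xm : x m ≠ 0
  hx : ∀ l, xt x m l ∈ O
  hρ : pl x y m j ≠ 0
  hy : ∀ l, yt x y m j l ∈ O

theorem exists_loc [Fintype σ] (O : ValuationSubring E) (x y : σ → E) (a b : σ)
    (hab : pl x y a b ≠ 0) : ∃ m j, Loc O x y m j := by
  have hx : ∃ i, x i ≠ 0 := by
    by_contra hcon
    push Not at hcon
    apply hab
    unfold pl
    rw [hcon a, hcon b]
    ring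
  obtain ⟨i, hi⟩ := hx
  obtain ⟨m, hm, hm2⟩ := Pool.Agent.Helper74.LG.exists_max_coord O x i hi
  have hy : ∃ j, pl x y m j ≠ 0 := by
    by_contra hcon
    push Not at hcon
    apply hab
    have h1 : ∀ l, x m * y l = x l * y m := fun l => by
      have := hcon l
      unfold pl at this
      exact sub_eq_zero.1 this
    have h2 : x m * pl x y a b = 0 := by
      unfold pl
      have ha := h1 a
      have hb := h1 b
      calc x m * (x a * y b - x b * y a) = x a * (x m * y b) - x b * (x m * y a) := by ring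
        _ = 0 := by rw [ha, hb]; ring
    rcases mul_eq_zero.1 h2 with h | h
    · exact absurd h hm
    · exact h
  obtain ⟨j₀, hj₀⟩ := hy
  obtain ⟨j, hj, hj2⟩ := Pool.Agent.Helper74.LG.exists_max_coord O (fun l => pl x y m l) j₀ hj₀
  exact ⟨m, j, hm, hm2, hj, hj2⟩

section

variable {O : ValuationSubring E} {x y : σ → E} {m j : σ}

theorem Loc.x_eq (h : Loc O x y m j) (l : σ) : x l = x m * xt x m l := by
  unfold xt
  rw [mul_div_cancel₀ _ h.xm]

/-- `P_mj / x_m` -/
def mu (x y : σ → E) (m j : σ) : E := pl x y m j / x m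

theorem Loc.mu_ne (h : Loc O x y m j) : mu x y m j ≠ 0 := div_ne_zero h.hρ h.xm

theorem Loc.y_eq (h : Loc O x y m j) (l : σ) :
    y l = y m * xt x m l + mu x y m j * yt x y m j l := by
  unfold xt yt mu
  have h1 := h.xm
  have h2 := h.hρ
  field_simp
  unfold pl
  ring

theorem Loc.xt_m (h : Loc O x y m j) : xt x m m = 1 := div_self h.xm

theorem Loc.yt_m (_h : Loc O x y m j) : yt x y m j m = 0 := by
  unfold yt pl
  rw [sub_self, zero_div]

theorem Loc.yt_j (h : Loc O x y m j) : yt x y m j j = 1 := div_self h.hρ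

theorem Loc.pl_eq (h : Loc O x y m j) (k l : σ) :
    pl x y k l = pl x y m j * pl (xt x m) (yt x y m j) k l := by
  have h1 := h.xm
  have h2 := h.hρ
  have hk := h.y_eq k
  have hl := h.y_eq l
  have e : pl x y m j = x m * mu x y m j := by
    unfold mu
    rw [mul_div_cancel₀ _ h1]
  have h3 : pl x y k l = x k * y l - x l * y k := rfl
  rw [h3, hk, hl, h.x_eq k, h.x_eq l, e]
  unfold pl
  ring

theorem Loc.pl_mem (h : Loc O x y m j) (k l : σ) :
    pl (xt x m) (yt x y m j) k l ∈ O :=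
  sub_mem (mul_mem (h.hx k) (h.hy l)) (mul_mem (h.hx l) (h.hy k))

end

section cols

variable {n : ℕ} {κ : Type*}

/-- the columns of a point: `(D_J x; g_J)` -/
def pv (D : Sym σ (n + 1) → Derivation ℤ E E) (x : σ → E) (g : Sym σ (n + 1) → κ → E)
    (J : Sym σ (n + 1)) : σ ⊕ κ → E := Sum.elim (fun l => D J (x l)) (g J)

/-- the Euler column of a point -/
def pe (x : σ → E) (ε : κ → E) : σ ⊕ κ → E := Sum.elim x ε

/-- the columns of a flag: `(D_J x, D_J y; g_J)` -/
def fv (D : Sym σ (n + 1) → Derivation ℤ E E) (x y : σ → E) (g : Sym σ (n + 1) → κ → E)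
    (J : Sym σ (n + 1)) : (σ ⊕ σ) ⊕ κ → E :=
  Sum.elim (Sum.elim (fun l => D J (x l)) fun l => D J (y l)) (g J)

/-- the vector `(u, v; w)` -/
def tr (u v : σ → E) (w : κ → E) : (σ ⊕ σ) ⊕ κ → E := Sum.elim (Sum.elim u v) w

/-- `(u; w) ↦ (c u; w)` -/
def gp (c : E) : (σ ⊕ κ → E) →ₗ[E] (σ ⊕ κ → E) :=
  LinearMap.pi fun r => (Sum.elim (fun _ => c) (fun _ => 1) r : E) • LinearMap.proj r

theorem gp_apply (c : E) (u : σ → E) (w : κ → E) :
    gp c (Sum.elim u w) = Sum.elim (fun l => c * u l) w := by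
  funext r
  rcases r with l | k
  · rfl
  · show (1 : E) * w k = w k
    rw [one_mul]

/-- `(u, v; w) ↦ (c u, d u + e v; w)` -/
def gf (c d e : E) : ((σ ⊕ σ) ⊕ κ → E) →ₗ[E] ((σ ⊕ σ) ⊕ κ → E) :=
  LinearMap.pi fun r => Sum.elim (Sum.elim
    (fun l => c • (LinearMap.proj (Sum.inl (Sum.inl l)) : ((σ ⊕ σ) ⊕ κ → E) →ₗ[E] E))
    (fun l => d • (LinearMap.proj (Sum.inl (Sum.inl l)) : ((σ ⊕ σ) ⊕ κ → E) →ₗ[E] E) +
      e • (LinearMap.proj (Sum.inl (Sum.inr l)) : ((σ ⊕ σ) ⊕ κ → E) →ₗ[E] E)))
    (fun k => (LinearMap.proj (Sum.inr k) : ((σ ⊕ σ) ⊕ κ → E) →ₗ[E] E)) r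

theorem gf_apply (c d e : E) (u v : σ → E) (w : κ → E) :
    gf c d e (tr u v w) = tr (fun l => c * u l) (fun l => d * u l + e * v l) w := by
  funext r
  rcases r with (l | l) | k <;> rfl

theorem tr_eta (f : (σ ⊕ σ) ⊕ κ → E) : f = tr (fun l => f (Sum.inl (Sum.inl l)))
    (fun l => f (Sum.inl (Sum.inr l))) fun k => f (Sum.inr k) := by
  funext r
  rcases r with (l | l) | k <;> rfl

theorem det_gp [Fintype σ] [DecidableEq σ] [Fintype κ] [DecidableEq κ] (c : E) :
    LinearMap.det (gp (σ := σ) (κ := κ) c) = c ^ Fintype.card σ := by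
  have h1 : LinearMap.toMatrix' (gp (σ := σ) (κ := κ) c) =
      Matrix.fromBlocks (c • (1 : Matrix σ σ E)) 0 0 (1 : Matrix κ κ E) := by
    ext r s
    rw [LinearMap.toMatrix'_apply]
    rcases r with l | k <;> rcases s with l' | k' <;>
      simp [gp, Pi.single_apply, Matrix.one_apply, Matrix.fromBlocks, eq_comm]
  rw [← LinearMap.det_toMatrix', h1, Matrix.det_fromBlocks_zero₂₁, Matrix.det_smul,
    Matrix.det_one, Matrix.det_one, mul_one, mul_one]

theorem det_gf [Fintype σ] [DecidableEq σ] [Fintype κ] [DecidableEq κ] (c d e : E) :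
    LinearMap.det (gf (σ := σ) (κ := κ) c d e) = (c * e) ^ Fintype.card σ := by
  have h1 : LinearMap.toMatrix' (gf (σ := σ) (κ := κ) c d e) =
      Matrix.fromBlocks (Matrix.fromBlocks (c • (1 : Matrix σ σ E)) 0 (d • (1 : Matrix σ σ E))
        (e • (1 : Matrix σ σ E))) 0 0 (1 : Matrix κ κ E) := by
    ext r s
    rw [LinearMap.toMatrix'_apply]
    rcases r with (l | l) | k <;> rcases s with (l' | l') | k' <;>
      simp [gf, Pi.single_apply, Matrix.one_apply, Matrix.fromBlocks, eq_comm]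
  rw [← LinearMap.det_toMatrix', h1, Matrix.det_fromBlocks_zero₂₁, Matrix.det_fromBlocks_zero₁₂,
    Matrix.det_smul, Matrix.det_smul, Matrix.det_one, Matrix.det_one, mul_one, mul_one, mul_one,
    mul_pow]

/-- transformation of the columns of a point -/
theorem pv_trans (D : Sym σ (n + 1) → Derivation ℤ E E) (x : σ → E) (m : σ) (hm : x m ≠ 0)
    (g g' : Sym σ (n + 1) → κ → E) (ε : κ → E)
    (hg : ∀ J, g J = g' J + (D J (x m) / x m) • ε) (J : Sym σ (n + 1)) :
    pv D x g J - gp (x m) (pv D (xt x m) g' J) = (D J (x m) / x m) • pe x ε := by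
  have h1 : ∀ l, D J (x l) = x m * D J (xt x m l) + (D J (x m) / x m) * x l := by
    intro l
    have h2 : x l = x m * xt x m l := by
      unfold xt
      rw [mul_div_cancel₀ _ hm]
    conv_lhs => rw [h2]
    rw [Derivation.leibniz, smul_eq_mul, smul_eq_mul]
    unfold xt
    field_simp
  unfold pv pe
  rw [gp_apply]
  funext r
  rcases r with l | k
  · show D J (x l) - x m * D J (xt x m l) = (D J (x m) / x m) * x l
    rw [h1 l]
    ring
  · show g J k - g' J k = (D J (x m) / x m) * ε k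
    rw [hg J]
    simp

theorem pe_trans (x : σ → E) (m : σ) (hm : x m ≠ 0) (ε : κ → E) :
    pe x ε = gp (x m) (pe (xt x m) ε) := by
  unfold pe
  rw [gp_apply]
  funext r
  rcases r with l | k
  · show x l = x m * xt x m l
    unfold xt
    rw [mul_div_cancel₀ _ hm]
  · rfl

/-- transformation of the columns of a flag -/
theorem fv_trans {O : ValuationSubring E} (D : Sym σ (n + 1) → Derivation ℤ E E) (x y : σ → E)
    (m j : σ) (h : Loc O x y m j) (g g' : Sym σ (n + 1) → κ → E) (ε : κ → E)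
    (hg : ∀ J, g J = g' J + (D J (x m) / x m) • ε) (J : Sym σ (n + 1)) :
    fv D x y g J - gf (x m) (y m) (mu x y m j) (fv D (xt x m) (yt x y m j) g' J) ∈
      Submodule.span E {tr x 0 ε, tr 0 x 0, tr 0 y (0 : κ → E)} := by
  obtain ⟨c, hc⟩ : ∃ c, c = x m := ⟨_, rfl⟩
  obtain ⟨d, hd⟩ : ∃ d, d = y m := ⟨_, rfl⟩
  obtain ⟨e, he⟩ : ∃ e, e = mu x y m j := ⟨_, rfl⟩
  have hc0 : c ≠ 0 := hc ▸ h.xm
  have he0 : e ≠ 0 := he ▸ h.mu_ne
  have hx : ∀ l, x l = c * xt x m l := fun l => by rw [hc]; exact h.x_eq l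
  have hy : ∀ l, y l = d * xt x m l + e * yt x y m j l := fun l => by
    rw [hd, he]
    exact h.y_eq l
  have h1 : ∀ l, D J (x l) = c * D J (xt x m l) + (D J c / c) * x l := by
    intro l
    conv_lhs => rw [hx l]
    rw [Derivation.leibniz, smul_eq_mul, smul_eq_mul, hx l]
    field_simp
  have h2 : ∀ l, D J (y l) = d * D J (xt x m l) + e * D J (yt x y m j l) +
      ((D J d / c - D J e * d / (e * c)) * x l + (D J e / e) * y l) := by
    intro l
    conv_lhs => rw [hy l]
    rw [map_add, Derivation.leibniz, Derivation.leibniz, smul_eq_mul, smul_eq_mul, smul_eq_mul,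
      smul_eq_mul, hx l, hy l]
    field_simp
    ring
  have h3 : fv D x y g J - gf (x m) (y m) (mu x y m j) (fv D (xt x m) (yt x y m j) g' J) =
      (D J c / c) • tr x 0 ε + (D J d / c - D J e * d / (e * c)) • tr 0 x 0 +
        (D J e / e) • tr 0 y (0 : κ → E) := by
    rw [← hc, ← hd, ← he]
    have h4 : fv D (xt x m) (yt x y m j) g' J = tr (fun l => D J (xt x m l))
      (fun l => D J (yt x y m j l)) (g' J) := rfl
    rw [h4, gf_apply]
    funext r
    rcases r with (l | l) | k
    · show D J (x l) - c * D J (xt x m l) = (D J c / c) * x l +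
        (D J d / c - D J e * d / (e * c)) * 0 + (D J e / e) * 0
      rw [h1 l]
      ring
    · show D J (y l) - (d * D J (xt x m l) + e * D J (yt x y m j l)) = (D J c / c) * 0 +
        (D J d / c - D J e * d / (e * c)) * x l + (D J e / e) * y l
      rw [h2 l]
      ring
    · show g J k - g' J k = (D J c / c) * ε k +
        (D J d / c - D J e * d / (e * c)) * 0 + (D J e / e) * 0
      rw [hg J, hc]
      simp
  rw [h3]
  refine add_mem (add_mem (Submodule.smul_mem _ _ (Submodule.subset_span (by simp)))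
    (Submodule.smul_mem _ _ (Submodule.subset_span (by simp))))
    (Submodule.smul_mem _ _ (Submodule.subset_span (by simp)))

end cols

end Pool.Agent.Helper49.LN
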