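import Pool.Agent.Helper49.LN.Fan
import Pool.Agent.Helper8.LG.Defs

/-!
# LN: columns as linear functions of polynomials

`cP v f = ∑ J, (coefficient of X^J in f) • v J`.
-/

set_option autoImplicit false

namespace Pool.Agent.Helper49.LN

open scoped BigOperators
open MvPolynomial

variable {E : Type*} [Field E] {σ : Type*} [Fintype σ] [DecidableEq σ]

/-- the monomial of a multiset -/
noncomputable def mo (E : Type*) [Field E] {σ : Type*} (K : Multiset σ) : MvPolynomial σ E :=
  (K.map X).prod

omit [Fintype σ] in
theorem mo_eq (K : Multiset σ) : mo E K = monomial (Multiset.toFinsupp K) 1 := by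
  unfold mo
  induction K using Multiset.induction_on with
  | empty => simp
  | cons a K ih =>
    rw [Multiset.map_cons, Multiset.prod_cons, ih, X, monomial_mul, one_mul]
    congr 1
    rw [← Multiset.singleton_add, map_add, Multiset.toFinsupp_singleton]

omit [Fintype σ] [DecidableEq σ] in
theorem mo_hom (K : Multiset σ) : (mo E K).IsHomogeneous (Multiset.card K) := by
  unfold mo
  induction K using Multiset.induction_on with
  | empty => simpa using isHomogeneous_one σ E
  | cons a K ih =>
    rw [Multiset.map_cons, Multiset.prod_cons, Multiset.card_cons, add_comm]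
    exact (isHomogeneous_X E a).mul ih

section cP

variable {V : Type*} [AddCommGroup V] [Module E V] {n : ℕ}

/-- the column of a polynomial -/
noncomputable def cP (v : Sym σ n → V) : MvPolynomial σ E →ₗ[E] V :=
  ∑ J : Sym σ n, (lcoeff E (Multiset.toFinsupp (J : Multiset σ))).smulRight (v J)

theorem cP_apply (v : Sym σ n → V) (f : MvPolynomial σ E) :
    cP v f = ∑ J : Sym σ n, coeff (Multiset.toFinsupp (J : Multiset σ)) f • v J := by
  unfold cP
  rw [LinearMap.sum_apply]
  rfl

theorem toFinsupp_degree (K : Multiset σ) : (Multiset.toFinsupp K).degree = Multiset.card K := by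
  induction K using Multiset.induction_on with
  | empty => simp
  | cons a K ih =>
    rw [← Multiset.singleton_add, map_add, Multiset.toFinsupp_singleton, map_add, ih,
      Multiset.card_add, Multiset.card_singleton, Finsupp.degree_single]

theorem cP_hom_ne (v : Sym σ n → V) (f : MvPolynomial σ E) (k : ℕ) (hf : f.IsHomogeneous k)
    (hk : k ≠ n) : cP v f = 0 := by
  rw [cP_apply]
  refine Finset.sum_eq_zero fun J _ => ?_
  rw [hf.coeff_eq_zero, zero_smul]
  rw [toFinsupp_degree, Sym.card_coe]
  exact hk.symm

theorem cP_mo (v : Sym σ n → V) (J : Sym σ n) : cP v (mo E (J : Multiset σ)) = v J := by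
  rw [cP_apply, Finset.sum_eq_single J]
  · rw [mo_eq, coeff_monomial, if_pos rfl, one_smul]
  · intro J' _ hJ
    rw [mo_eq, coeff_monomial, if_neg, zero_smul]
    intro h
    exact hJ (Sym.coe_injective (Multiset.toFinsupp.injective h)).symm
  · intro h
    exact absurd (Finset.mem_univ J) h

/-- every polynomial is a combination of monomials -/
theorem mo_span (f : MvPolynomial σ E) : f = ∑ m ∈ f.support, coeff m f • mo E (Finsupp.toMultiset m) := by
  conv_lhs => rw [f.as_sum]
  refine Finset.sum_congr rfl fun m _ => ?_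
  rw [mo_eq, smul_monomial, smul_eq_mul, mul_one, Finsupp.toMultiset_toFinsupp]

/-- to check `cP v (f * g) ∈ W` for all `f`, `g` homogeneous of degree `e`, monomials `f` of degree
`k`, `k + e = n`, are enough -/
theorem cP_mul_mem (v : Sym σ n → V) (W : Submodule E V) (k e : ℕ) (hn : k + e = n)
    (g : MvPolynomial σ E) (hg : g.IsHomogeneous e)
    (h : ∀ I : Sym σ k, cP v (mo E (I : Multiset σ) * g) ∈ W) (f : MvPolynomial σ E) :
    cP v (f * g) ∈ W := by
  rw [mo_span f, Finset.sum_mul, map_sum]
  refine sum_mem fun m _ => ?_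
  rw [smul_mul_assoc, map_smul]
  refine W.smul_mem _ ?_
  by_cases hm : Multiset.card (Finsupp.toMultiset m) = k
  · exact h (Sym.mk _ hm)
  · rw [cP_hom_ne v _ _ ((mo_hom _).mul hg) (by omega)]
    exact W.zero_mem

/-- the same for an ideal generated by forms of one degree -/
theorem cP_ideal_mem (v : Sym σ n → V) (W : Submodule E V) (k e : ℕ) (hn : k + e = n)
    {X : Type*} (g : X → MvPolynomial σ E) (hg : ∀ i, (g i).IsHomogeneous e)
    (h : ∀ i (I : Sym σ k), cP v (mo E (I : Multiset σ) * g i) ∈ W) (f : MvPolynomial σ E)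
    (hf : f ∈ Ideal.span (Set.range g)) : cP v f ∈ W := by
  obtain ⟨l, rfl⟩ := (Finsupp.mem_ideal_span_range_iff_exists_finsupp).1 hf
  rw [Finsupp.sum, map_sum]
  exact sum_mem fun i _ => cP_mul_mem v W k e hn (g i) (hg i) (h i) _

end cP

/-- polynomials with coefficients in `O` -/
def IntP (O : ValuationSubring E) (f : MvPolynomial σ E) : Prop := ∀ m, coeff m f ∈ O

omit [Fintype σ] [DecidableEq σ] in
theorem IntP.add {O : ValuationSubring E} {f g : MvPolynomial σ E} (hf : IntP O f)
    (hg : IntP O g) : IntP O (f + g) := fun m => by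
  rw [coeff_add]
  exact add_mem (hf m) (hg m)

omit [Fintype σ] [DecidableEq σ] in
theorem IntP.sub {O : ValuationSubring E} {f g : MvPolynomial σ E} (hf : IntP O f)
    (hg : IntP O g) : IntP O (f - g) := fun m => by
  rw [coeff_sub]
  exact sub_mem (hf m) (hg m)

omit [Fintype σ] in
theorem IntP.mul {O : ValuationSubring E} {f g : MvPolynomial σ E} (hf : IntP O f)
    (hg : IntP O g) : IntP O (f * g) := fun m => by
  rw [coeff_mul]
  exact sum_mem fun p _ => mul_mem (hf _) (hg _)

omit [Fintype σ] in
theorem IntP.pow {O : ValuationSubring E} {f : MvPolynomial σ E} (hf : IntP O f) (k : ℕ) :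
    IntP O (f ^ k) := by
  induction k with
  | zero =>
    intro m
    rw [pow_zero, coeff_one]
    split_ifs
    · exact one_mem O
    · exact zero_mem O
  | succ k ih =>
    rw [pow_succ]
    exact ih.mul hf

omit [Fintype σ] [DecidableEq σ] in
theorem IntP.smul {O : ValuationSubring E} {f : MvPolynomial σ E} (hf : IntP O f) {a : E}
    (ha : a ∈ O) : IntP O (a • f) := fun m => by
  rw [coeff_smul, smul_eq_mul]
  exact mul_mem ha (hf m)

omit [Fintype σ] in
theorem IntP.X (O : ValuationSubring E) (i : σ) : IntP O (X i : MvPolynomial σ E) := fun m => by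
  rw [coeff_X]
  split_ifs
  · exact one_mem O
  · exact zero_mem O

omit [Fintype σ] in
theorem IntP.mo (O : ValuationSubring E) (K : Multiset σ) : IntP O (mo E K) := fun m => by
  rw [mo_eq, coeff_monomial]
  split_ifs
  · exact one_mem O
  · exact zero_mem O

omit [Fintype σ] [DecidableEq σ] in
theorem IntP.one (O : ValuationSubring E) : IntP O (1 : MvPolynomial σ E) := fun m => by
  classical
  rw [coeff_one]
  split_ifs
  · exact one_mem O
  · exact zero_mem O

/-- columns of integral polynomials are bounded -/
theorem cP_bdd {R : Type*} {n : ℕ} (O : ValuationSubring E) (Δ : E) (v : Sym σ n → R → E)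
    (hv : ∀ J l, Δ * v J l ∈ O) (f : MvPolynomial σ E) (hf : IntP O f) (l : R) :
    Δ * cP v f l ∈ O := by
  rw [cP_apply, Finset.sum_apply, Finset.mul_sum]
  refine sum_mem fun J _ => ?_
  rw [Pi.smul_apply, smul_eq_mul]
  have h1 : Δ * (coeff (Multiset.toFinsupp (J : Multiset σ)) f * v J l) =
      coeff (Multiset.toFinsupp (J : Multiset σ)) f * (Δ * v J l) := by ring
  rw [h1]
  exact mul_mem (hf _) (hv J l)

/-- transformation of the columns -/
theorem cP_trans {V : Type*} [AddCommGroup V] [Module E V] {n : ℕ} (Γ : V →ₗ[E] V)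
    (v v' : Sym σ n → V) (B : Submodule E V) (h : ∀ J, v J - Γ (v' J) ∈ B)
    (f : MvPolynomial σ E) : cP v f - Γ (cP v' f) ∈ B := by
  rw [cP_apply, cP_apply, map_sum, ← Finset.sum_sub_distrib]
  refine sum_mem fun J _ => ?_
  rw [map_smul, ← smul_sub]
  exact B.smul_mem _ (h J)

end Pool.Agent.Helper49.LN
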