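import Pool.Agent.Helper49.LN.Exist2
import Pool.Agent.Helper49.LN.DetPoint

/-!
# LN: ranks
-/

set_option autoImplicit false

namespace Pool.Agent.Helper49.LN

open scoped BigOperators
open MvPolynomial
open Pool.Agent.Helper8.LG (col MinorsVanish exists_minor)

/-- the rank of the matrix with columns `x` and `D_p x` -/
theorem rk1 {E σ P : Type*} [Field E] [Finite σ] (D : P → Derivation ℤ E E) (x : σ → E) (w : ℕ)
    (h : MinorsVanish D x w) :
    Module.finrank E ↥(Submodule.span E (Set.range (col D x))) ≤ w + 1 := by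
  by_contra hcon
  push Not at hcon
  obtain ⟨m, β, -, h1, h2⟩ := sel (E := E) (Fin.elim0 : Fin 0 → σ → E)
    linearIndependent_empty_type (col D x)
  have h3 : LinearIndependent E fun s => col D x (β s) := h1.comp Sum.inr Sum.inr_injective
  have h4 : Submodule.span E (Set.range (col D x)) ≤
      Submodule.span E (Set.range fun s => col D x (β s)) := by
    rw [Submodule.span_le]
    rintro _ ⟨b, rfl⟩
    have h5 := h2 b
    have h6 : Set.range (Sum.elim (Fin.elim0 : Fin 0 → σ → E) fun s => col D x (β s)) =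
        Set.range fun s => col D x (β s) := by
      rw [Set.Sum.elim_range, Set.range_eq_empty (Fin.elim0 : Fin 0 → σ → E), Set.empty_union]
    rw [h6] at h5
    exact h5
  have h5 := Submodule.finrank_mono h4
  rw [finrank_span_eq_card h3, Fintype.card_fin] at h5
  have h6 : w + 2 ≤ m := by omega
  have h7 := h3.comp (Fin.castLE h6) (Fin.castLE_injective h6)
  obtain ⟨r, -, hr⟩ := exists_minor _ h7
  exact hr (h r fun s => β (Fin.castLE h6 s))

/-- a complement of coordinate vectors -/
theorem rk2 {E σ : Type*} [Field E] [Fintype σ] [DecidableEq σ] (S : Submodule E (σ → E)) :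
    ∃ (m : ℕ) (e : Fin m → σ), m + Module.finrank E S = Fintype.card σ ∧
      LinearIndependent E (fun s => (Pi.single (e s) 1 : σ → E)) ∧
      Disjoint S (Submodule.span E (Set.range fun s => (Pi.single (e s) 1 : σ → E))) := by
  let b := Module.finBasis E S
  have hb : LinearIndependent E fun i => ((b i : S) : σ → E) :=
    b.linearIndependent.map' S.subtype (Submodule.ker_subtype S)
  have hbs : Submodule.span E (Set.range fun i => ((b i : S) : σ → E)) = S := by
    have h1 : (Set.range fun i => ((b i : S) : σ → E)) = S.subtype '' Set.range b := by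
      rw [← Set.range_comp]
      rfl
    rw [h1, Submodule.span_image, b.span_eq, Submodule.map_top, Submodule.range_subtype]
  obtain ⟨m, e, -, h1, h2⟩ := sel (fun i => ((b i : S) : σ → E)) hb
    (fun l : σ => (Pi.single l 1 : σ → E))
  have h3 : Submodule.span E (Set.range (Sum.elim (fun i => ((b i : S) : σ → E))
      fun s => (Pi.single (e s) 1 : σ → E))) = ⊤ := by
    rw [eq_top_iff, ← span_unit (E := E) (R := σ), Submodule.span_le]
    rintro _ ⟨l, rfl⟩
    exact h2 l
  obtain ⟨rr⟩ := card_of_basis _ h1 h3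
  have h4 := Fintype.card_congr rr
  rw [Fintype.card_sum, Fintype.card_fin, Fintype.card_fin] at h4
  obtain ⟨h5, h6, h7⟩ := linearIndependent_sum.1 h1
  refine ⟨m, e, by omega, h6, ?_⟩
  have h8 : Disjoint (Submodule.span E (Set.range fun i => ((b i : S) : σ → E)))
    (Submodule.span E (Set.range fun s => (Pi.single (e s) 1 : σ → E))) := h7
  rwa [hbs] at h8

/-- completion for a point -/
theorem rk3 {E σ κ A : Type*} [Field E] [Fintype σ] [DecidableEq σ] [Fintype κ] [DecidableEq κ]
    [Fintype A] [DecidableEq A] (v : A → σ ⊕ κ → E) (hv : LinearIndependent E v)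
    (lam : (σ ⊕ κ → E) →ₗ[E] E) (hl : ∀ a, lam (v a) = 0) (u : σ ⊕ κ → E) (hu : lam u ≠ 0)
    (S : Submodule E (σ → E)) (hS : ∀ a, (fun l => v a (Sum.inl l)) ∈ S)
    (huS : (fun l => u (Sum.inl l)) ∈ S) :
    ∃ (m t : ℕ) (e : Fin m → σ) (f : Fin t → σ ⊕ κ)
      (rr : ((A ⊕ (Fin 1 ⊕ Fin m)) ⊕ Fin t) ≃ (σ ⊕ κ)),
      m + Module.finrank E S = Fintype.card σ ∧
      dt rr (Sum.elim (Sum.elim v (Sum.elim (fun _ : Fin 1 => u)
        fun s => uv (Sum.inl (e s)))) fun s => uv (f s)) ≠ 0 := by
  obtain ⟨m, e, hm, h1, h2⟩ := rk2 S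
  have h3 : LinearIndependent E (Sum.elim v (Sum.elim (fun _ : Fin 1 => u)
      fun s => (uv (Sum.inl (e s)) : σ ⊕ κ → E))) := by
    rw [Fintype.linearIndependent_iff]
    intro c hc
    rw [Fintype.sum_sum_type, Fintype.sum_sum_type, Fin.sum_univ_one] at hc
    simp only [Sum.elim_inl, Sum.elim_inr] at hc
    -- the coordinates in `σ`
    have h4 : (∑ a, c (Sum.inl a) • fun l => v a (Sum.inl l)) +
        (c (Sum.inr (Sum.inl 0)) • (fun l => u (Sum.inl l)) +
          ∑ s, c (Sum.inr (Sum.inr s)) • (Pi.single (e s) 1 : σ → E)) = 0 := by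
      funext l
      have h5 := congrFun hc (Sum.inl l)
      simp only [Pi.add_apply, Finset.sum_apply, Pi.smul_apply, Pi.zero_apply] at h5 ⊢
      rw [← h5]
      congr 2
      refine Finset.sum_congr rfl fun s _ => ?_
      congr 1
      unfold uv
      simp only [Pi.single_apply, Sum.inl.injEq]
    have h5 : (∑ a, c (Sum.inl a) • fun l => v a (Sum.inl l)) +
        c (Sum.inr (Sum.inl 0)) • (fun l => u (Sum.inl l)) ∈ S :=
      S.add_mem (S.sum_mem fun a _ => S.smul_mem _ (hS a)) (S.smul_mem _ huS)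
    have h6 : ∑ s, c (Sum.inr (Sum.inr s)) • (Pi.single (e s) 1 : σ → E) = 0 := by
      have h7 : ∑ s, c (Sum.inr (Sum.inr s)) • (Pi.single (e s) 1 : σ → E) =
          -((∑ a, c (Sum.inl a) • fun l => v a (Sum.inl l)) +
            c (Sum.inr (Sum.inl 0)) • (fun l => u (Sum.inl l))) := by
        rw [← add_assoc] at h4
        exact eq_neg_of_add_eq_zero_right h4
      refine Submodule.disjoint_def.1 h2 _ ?_ ?_
      · rw [h7]
        exact S.neg_mem h5
      · exact Submodule.sum_mem _ fun s _ =>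
          Submodule.smul_mem _ _ (Submodule.subset_span ⟨s, rfl⟩)
    have h7 : ∀ s, c (Sum.inr (Sum.inr s)) = 0 := Fintype.linearIndependent_iff.1 h1 _ h6
    have h8 : ∑ s, c (Sum.inr (Sum.inr s)) • (uv (Sum.inl (e s)) : σ ⊕ κ → E) = 0 :=
      Finset.sum_eq_zero fun s _ => by rw [h7 s, zero_smul]
    rw [h8, add_zero] at hc
    have h9 : c (Sum.inr (Sum.inl 0)) = 0 := by
      have h10 := congrArg lam hc
      rw [map_add, map_sum, map_smul, map_zero, smul_eq_mul] at h10
      have h11 : ∑ a, lam (c (Sum.inl a) • v a) = 0 :=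
        Finset.sum_eq_zero fun a _ => by rw [map_smul, hl, smul_zero]
      rw [h11, zero_add] at h10
      exact (mul_eq_zero.1 h10).resolve_right hu
    rw [h9, zero_smul, add_zero] at hc
    have h10 := Fintype.linearIndependent_iff.1 hv _ hc
    rintro (a | i | s)
    · exact h10 a
    · rw [Subsingleton.elim i 0]
      exact h9
    · exact h7 s
  obtain ⟨t, f, -, h4, h5⟩ := sel _ h3 (uv : σ ⊕ κ → σ ⊕ κ → E)
  have h6 : Submodule.span E (Set.range (Sum.elim (Sum.elim v (Sum.elim (fun _ : Fin 1 => u)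
      fun s => (uv (Sum.inl (e s)) : σ ⊕ κ → E))) fun s => uv (f s))) = ⊤ := by
    rw [eq_top_iff, ← span_unit (E := E) (R := σ ⊕ κ), Submodule.span_le]
    rintro _ ⟨l, rfl⟩
    exact h5 l
  obtain ⟨rr⟩ := card_of_basis _ h4 h6
  exact ⟨m, t, e, f, rr, hm, det_ne _ h4 rr⟩

/-- the rank of the columns of a flag -/
theorem rk4 {E σ κ : Type*} [Field E] [Fintype σ] [DecidableEq σ] [Fintype κ] {n : ℕ}
    (D : Sym σ (n + 1) → Derivation ℤ E E) (x y : σ → E) (g : Sym σ (n + 1) → κ → E)
    (ε : κ → E) :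
    Module.finrank E ↥(Submodule.span E (Set.range (b3 x y ε)) ⊔
        IC (E := E) (fv D x y g) ⊤) ≤
      Module.finrank E ↥(Submodule.span E (Set.range (col D x))) +
        Fintype.card σ + Fintype.card κ := by
  obtain ⟨W, hW⟩ : ∃ W, W = Submodule.span E (Set.range (b3 x y ε)) ⊔
    IC (E := E) (fv D x y g) ⊤ := ⟨_, rfl⟩
  obtain ⟨S, hS⟩ : ∃ S, S = Submodule.span E (Set.range (col D x)) := ⟨_, rfl⟩
  rw [← hW, ← hS]
  let p1 : ((σ ⊕ σ) ⊕ κ → E) →ₗ[E] (σ → E) :=
    LinearMap.funLeft E E fun l => Sum.inl (Sum.inl l)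
  let p2 : ((σ ⊕ σ) ⊕ κ → E) →ₗ[E] (σ ⊕ κ → E) :=
    LinearMap.funLeft E E (Sum.elim (fun l => Sum.inl (Sum.inr l)) Sum.inr)
  have h1 : W ≤ S.comap p1 := by
    rw [hW]
    refine sup_le ?_ ?_
    · rw [Submodule.span_le]
      rintro _ ⟨s, rfl⟩
      show p1 (b3 x y ε s) ∈ S
      fin_cases s
      · have h2 : p1 (b3 x y ε 0) = 0 := by
          funext l
          rfl
        show p1 (b3 x y ε 0) ∈ S
        rw [h2]
        exact S.zero_mem
      · have h2 : p1 (b3 x y ε 1) = col D x none := by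
          funext l
          rfl
        show p1 (b3 x y ε 1) ∈ S
        rw [h2, hS]
        exact Submodule.subset_span ⟨none, rfl⟩
      · have h2 : p1 (b3 x y ε 2) = 0 := by
          funext l
          rfl
        show p1 (b3 x y ε 2) ∈ S
        rw [h2]
        exact S.zero_mem
    · rintro _ ⟨f, -, rfl⟩
      show p1 (cP (fv D x y g) f) ∈ S
      rw [cP_apply, map_sum]
      refine S.sum_mem fun J _ => ?_
      rw [map_smul]
      refine S.smul_mem _ ?_
      have h2 : p1 (fv D x y g J) = col D x (some J) := by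
        funext l
        rfl
      rw [h2, hS]
      exact Submodule.subset_span ⟨some J, rfl⟩
  let F : W →ₗ[E] S × (σ ⊕ κ → E) :=
    LinearMap.prod ((p1.comp W.subtype).codRestrict S fun w => h1 w.2) (p2.comp W.subtype)
  have hF : Function.Injective F := by
    rw [← LinearMap.ker_eq_bot, LinearMap.ker_eq_bot']
    intro w hw
    have h2 : p1 (w : (σ ⊕ σ) ⊕ κ → E) = 0 := congrArg (fun z => ((z.1 : S) : σ → E)) hw
    have h3 : p2 (w : (σ ⊕ σ) ⊕ κ → E) = 0 := congrArg (fun z => z.2) hw
    apply Subtype.ext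
    funext r
    rcases r with (l | l) | k
    · exact congrFun h2 l
    · exact congrFun h3 (Sum.inl l)
    · exact congrFun h3 (Sum.inr k)
  have h2 := LinearMap.finrank_le_finrank_of_injective hF
  rw [Module.finrank_prod, Module.finrank_fintype_fun_eq_card, Fintype.card_sum] at h2
  omega

end Pool.Agent.Helper49.LN
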