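import Pool.Agent.Helper49.LN.Cols
import Pool.Agent.Helper49.LN.Fam

/-!
# LN: spans of columns
-/

set_option autoImplicit false

namespace Pool.Agent.Helper49.LN

open scoped BigOperators
open MvPolynomial

variable {E : Type*} [Field E] {σ : Type*} [Fintype σ] [DecidableEq σ] {κ : Type*} [Fintype κ]
  [DecidableEq κ] {n : ℕ}

/-- the unit vectors span everything -/
theorem span_unit {R : Type*} [Fintype R] [DecidableEq R] :
    Submodule.span E (Set.range fun r : R => (Pi.single r 1 : R → E)) = ⊤ := by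
  have h := (Pi.basisFun E R).span_eq
  rw [← h]
  congr 1
  congr 1
  funext r
  rw [Pi.basisFun_apply]

/-- the constant columns span everything -/
theorem span_kv (x y : σ → E) (a b : σ) (hab : pl x y a b ≠ 0) :
    Submodule.span E (Set.range (kv (κ := κ) x y)) = ⊤ := by
  rw [eq_top_iff, ← span_unit (E := E) (R := (σ ⊕ σ) ⊕ κ), Submodule.span_le]
  rintro _ ⟨r, rfl⟩
  change (Pi.single r 1 : (σ ⊕ σ) ⊕ κ → E) ∈ Submodule.span E (Set.range (kv (κ := κ) x y))
  have hk : ∀ t, kv (κ := κ) x y t ∈ Submodule.span E (Set.range (kv (κ := κ) x y)) :=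
    fun t => Submodule.subset_span ⟨t, rfl⟩
  rcases r with (l | l) | i
  · have h1 : (Pi.single (Sum.inl (Sum.inl l)) 1 : (σ ⊕ σ) ⊕ κ → E) =
        (pl x y a b)⁻¹ • (y b • kv x y (Sum.inl (l, a)) - y a • kv x y (Sum.inl (l, b))) := by
      funext r
      rcases r with (l' | l') | i
      · simp only [kv, tr, Pi.smul_apply, Pi.sub_apply, Sum.elim_inl, smul_eq_mul, Pi.single_apply,
          Sum.inl.injEq]
        split_ifs
        · rw [eq_inv_mul_iff_mul_eq₀ hab]
          unfold pl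
          ring
        · ring
      · simp only [kv, tr, Pi.smul_apply, Pi.sub_apply, Sum.elim_inl, Sum.elim_inr, smul_eq_mul,
          Pi.single_apply, Sum.inl.injEq, reduceCtorEq, if_false]
        split_ifs
        · ring
        · ring
      · simp [kv, tr]
    rw [h1]
    exact Submodule.smul_mem _ _ (Submodule.sub_mem _ (Submodule.smul_mem _ _ (hk _))
      (Submodule.smul_mem _ _ (hk _)))
  · have h1 : (Pi.single (Sum.inl (Sum.inr l)) 1 : (σ ⊕ σ) ⊕ κ → E) =
        (pl x y a b)⁻¹ • (x a • kv x y (Sum.inl (l, b)) - x b • kv x y (Sum.inl (l, a))) := by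
      funext r
      rcases r with (l' | l') | i
      · simp only [kv, tr, Pi.smul_apply, Pi.sub_apply, Sum.elim_inl, smul_eq_mul,
          Pi.single_apply, Sum.inl.injEq, reduceCtorEq, if_false]
        split_ifs
        · ring
        · ring
      · simp only [kv, tr, Pi.smul_apply, Pi.sub_apply, Sum.elim_inl, Sum.elim_inr, smul_eq_mul,
          Pi.single_apply, Sum.inl.injEq, Sum.inr.injEq]
        split_ifs
        · rw [eq_inv_mul_iff_mul_eq₀ hab]
          unfold pl
          ring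
        · ring
      · simp [kv, tr]
    rw [h1]
    exact Submodule.smul_mem _ _ (Submodule.sub_mem _ (Submodule.smul_mem _ _ (hk _))
      (Submodule.smul_mem _ _ (hk _)))
  · have h1 : (Pi.single (Sum.inr i) 1 : (σ ⊕ σ) ⊕ κ → E) = kv x y (Sum.inr i) := by
      funext r
      rcases r with (l' | l') | i'
      · simp [kv, tr]
      · simp [kv, tr]
      · simp only [kv, tr, Sum.elim_inr, Pi.single_apply, Sum.inr.injEq]
    rw [h1]
    exact hk _

omit [Fintype σ] [DecidableEq σ] [Fintype κ] [DecidableEq κ] in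
private theorem two_zero (x y : σ → E) (a b : σ) (hab : pl x y a b ≠ 0) (s t : E)
    (h : ∀ l, s * x l + t * y l = 0) : s = 0 ∧ t = 0 := by
  have ha := h a
  have hb := h b
  constructor
  · have h1 : s * pl x y a b = 0 := by
      unfold pl
      linear_combination y b * ha - y a * hb
    exact (mul_eq_zero.1 h1).resolve_right hab
  · have h1 : t * pl x y a b = 0 := by
      unfold pl
      linear_combination x a * hb - x b * ha
    exact (mul_eq_zero.1 h1).resolve_right hab

omit [Fintype σ] [DecidableEq σ] [Fintype κ] [DecidableEq κ] in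
theorem b3_indep (x y : σ → E) (ε : κ → E) (a b : σ) (hab : pl x y a b ≠ 0) :
    LinearIndependent E (b3 x y ε) := by
  rw [Fintype.linearIndependent_iff]
  intro g hg
  rw [Fin.sum_univ_three] at hg
  have h1 : ∀ l, g 1 * x l = 0 := by
    intro l
    have := congrFun hg (Sum.inl (Sum.inl l))
    simpa [b3, tr] using this
  have h2 : ∀ l, g 0 * x l + g 2 * y l = 0 := by
    intro l
    have := congrFun hg (Sum.inl (Sum.inr l))
    simpa [b3, tr] using this
  have h3 := two_zero x y a b hab (g 1) 0 (fun l => by rw [zero_mul, add_zero]; exact h1 l)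
  have h4 := two_zero x y a b hab (g 0) (g 2) h2
  intro i
  fin_cases i
  · exact h4.1
  · exact h3.1
  · exact h4.2

omit [Fintype σ] [DecidableEq σ] [Fintype κ] [DecidableEq κ] in
theorem b4_indep (x y : σ → E) (a b : σ) (hab : pl x y a b ≠ 0) :
    LinearIndependent E (b4 (κ := κ) x y) := by
  rw [Fintype.linearIndependent_iff]
  intro g hg
  rw [Fin.sum_univ_four] at hg
  have h1 : ∀ l, g 1 * x l + g 3 * y l = 0 := by
    intro l
    have := congrFun hg (Sum.inl (Sum.inl l))
    simpa [b4, tr] using this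
  have h2 : ∀ l, g 0 * x l + g 2 * y l = 0 := by
    intro l
    have := congrFun hg (Sum.inl (Sum.inr l))
    simpa [b4, tr] using this
  have h3 := two_zero x y a b hab (g 1) (g 3) h1
  have h4 := two_zero x y a b hab (g 0) (g 2) h2
  intro i
  fin_cases i
  · exact h4.1
  · exact h3.1
  · exact h4.2
  · exact h3.2

section gen

variable {M : Type*} [AddCommGroup M] [Module E M]

/-- the columns of the ideal of the line (use `cP_ideal_mem`) -/
theorem span_lv (V : Sym σ (n + 1) → M) (P : σ → σ → E) (W : Submodule E M)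
    (h : ∀ p, lv V P p ∈ W) (f : MvPolynomial σ E) (hf : f ∈ Il P) : cP V f ∈ W :=
  cP_ideal_mem V W n 1 rfl (Lf P) (Lf_hom P) (fun s I => h (I, s)) f hf

omit [Fintype σ] [DecidableEq σ] in
/-- `x_j X_l - x_l X_j` in terms of `X_l - x_l X_(i₀)` -/
theorem hf_base (x : σ → E) (i₀ : σ) (hx : x i₀ = 1) (j l : σ) :
    hf x j l = x j • hf x i₀ l - x l • hf x i₀ j := by
  unfold hf
  rw [hx]
  module

/-- the columns of the ideal of the point -/
theorem span_sg (V : Sym σ (n + 1) → M) (x : σ → E) (i₀ : σ) (hx : x i₀ = 1) (W : Submodule E M)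
    (h : ∀ p, sg V x i₀ p ∈ W) (f : MvPolynomial σ E) (hf : f ∈ Ipt x) : cP V f ∈ W := by
  refine cP_ideal_mem V W n 1 rfl (fun p : σ × σ => Pool.Agent.Helper49.LN.hf x p.1 p.2)
    (fun p => hf_hom x _ _) (fun p I => ?_) f hf
  rw [hf_base x i₀ hx p.1 p.2, mul_sub, mul_smul_comm, mul_smul_comm, map_sub, map_smul,
    map_smul]
  exact W.sub_mem (W.smul_mem _ (h (I, p.2))) (W.smul_mem _ (h (I, p.1)))

/-- the columns of the ideal of the point, modulo those of the ideal of the line (use `hf_mod`,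
`span_bin`) -/
theorem span_fn (V : Sym σ (n + 1) → M) (x y : σ → E) (a b : σ) (hab : pl x y a b ≠ 0)
    (W : Submodule E M) (h : ∀ f ∈ Il (pl x y), cP V f ∈ W)
    (h' : ∀ k ≤ n, fn V x a b k ∈ W) (f : MvPolynomial σ E) (hf : f ∈ Ipt x) : cP V f ∈ W := by
  refine cP_ideal_mem V W n 1 rfl (fun p : σ × σ => Pool.Agent.Helper49.LN.hf x p.1 p.2)
    (fun p => hf_hom x _ _) (fun p I => ?_) f hf
  have h1 := hf_mod x y a b hab p.1 p.2
  have h2 : mo E (I : Multiset σ) * Pool.Agent.Helper49.LN.hf x p.1 p.2 =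
      mo E (I : Multiset σ) * (Pool.Agent.Helper49.LN.hf x p.1 p.2 -
        (pl x y p.1 p.2 / pl x y a b) • Pool.Agent.Helper49.LN.hf x a b) +
      (pl x y p.1 p.2 / pl x y a b) •
        (mo E (I : Multiset σ) * Pool.Agent.Helper49.LN.hf x a b) := by
    rw [mul_sub, mul_smul_comm, sub_add_cancel]
  rw [h2, map_add, map_smul]
  refine W.add_mem (h _ (Ideal.mul_mem_left _ _ h1)) (W.smul_mem _ ?_)
  have h3 := span_bin V W (pl x y) (fun j l => by unfold pl; ring) a b hab h n 1 rfl
    (Pool.Agent.Helper49.LN.hf x a b) (hf_hom x a b) (mo E (I : Multiset σ))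
  refine (sup_le le_rfl ?_ : W ⊔ _ ≤ W) h3
  rw [Submodule.span_le]
  rintro _ ⟨i, rfl⟩
  exact h' i.1 i.is_le

/-- all columns, modulo those of the ideal of the line -/
theorem span_bn (V : Sym σ n → M) (x y : σ → E) (a b : σ) (hab : pl x y a b ≠ 0)
    (W : Submodule E M) (h : ∀ f ∈ Il (pl x y), cP V f ∈ W)
    (h' : ∀ k ≤ n, bn (E := E) V a b k ∈ W) (f : MvPolynomial σ E) : cP V f ∈ W := by
  have h3 := span_bin V W (pl x y) (fun j l => by unfold pl; ring) a b hab h n 0 rfl
    1 (isHomogeneous_one σ E) f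
  rw [mul_one] at h3
  refine (sup_le le_rfl ?_ : W ⊔ _ ≤ W) h3
  rw [Submodule.span_le]
  rintro _ ⟨i, rfl⟩
  simp only [mul_one]
  exact h' i.1 i.is_le

omit [Fintype σ] [DecidableEq σ] in
/-- the ideal of the line is contained in the ideal of the point -/
theorem Il_le_Ipt (x y : σ → E) (i₀ : σ) (hx : x i₀ = 1) : Il (pl x y) ≤ Ipt x := by
  unfold Il
  rw [Ideal.span_le]
  rintro _ ⟨⟨j, l, m⟩, rfl⟩
  have hm : ∀ s t, hf x s t ∈ Ipt x := fun s t => Ideal.subset_span ⟨(s, t), rfl⟩
  have h1 : Lf (pl x y) (j, l, m) =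
      C (y l) * hf x j m + C (y j) * hf x m l + C (y m) * hf x l j := by
    unfold Lf pl hf
    simp only [← smul_eq_C_mul]
    module
  rw [h1]
  exact Ideal.add_mem _ (Ideal.add_mem _ (Ideal.mul_mem_left _ _ (hm _ _))
    (Ideal.mul_mem_left _ _ (hm _ _))) (Ideal.mul_mem_left _ _ (hm _ _))

omit [Fintype σ] [DecidableEq σ] in
theorem fn_mem (x : σ → E) (a b : σ) (k : ℕ) :
    (X a ^ (n - k) * X b ^ k * hf x a b : MvPolynomial σ E) ∈ Ipt x :=
  Ideal.mul_mem_left _ _ (Ideal.subset_span ⟨(a, b), rfl⟩)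

omit [Fintype σ] [DecidableEq σ] in
theorem sg_mem (x : σ → E) (i₀ : σ) (p : Sym σ n × σ) :
    (mo E (p.1 : Multiset σ) * hf x i₀ p.2 : MvPolynomial σ E) ∈ Ipt x :=
  Ideal.mul_mem_left _ _ (Ideal.subset_span ⟨(i₀, p.2), rfl⟩)

omit [Fintype σ] [DecidableEq σ] in
theorem bl_mem (x : σ → E) (i₀ : σ) (β : (Sym σ n × Sym σ n) × (σ × σ)) (s : Fin 2) :
    ((mo E (β.1.1 : Multiset σ) + mo E (β.1.2 : Multiset σ)) *
      hf x i₀ (if s = 0 then β.2.1 else β.2.2) : MvPolynomial σ E) ∈ Ipt x :=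
  Ideal.mul_mem_left _ _ (Ideal.subset_span ⟨(i₀, _), rfl⟩)

omit [Fintype σ] [DecidableEq σ] in
theorem lv_mem (P : σ → σ → E) (p : Sym σ n × σ × σ × σ) :
    (mo E (p.1 : Multiset σ) * Lf P p.2 : MvPolynomial σ E) ∈ Il P :=
  Ideal.mul_mem_left _ _ (Lf_mem P _)

end gen

end Pool.Agent.Helper49.LN
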